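import Pool.Agent.Helper33.TS.Defs

/-!
# The numerators of the Laplacian: ring identities

`NN (e+1) (D X) = D NN e X`; modulo `U` the numerator is `4 e (2 e + 3) U_σ² X`; if `U_σ = U ω` then `NN e X = D NP e X` with an
operator `NP e` of second order whose coefficients are given.
-/

set_option autoImplicit false

namespace Pool.Agent.Helper33.TS

variable {R : Type*} [CommRing R] [Algebra ℝ R]

theorem lei (d : Derivation ℝ R R) (x y : R) : d (x * y) = x * d y + y * d x := by
  rw [Derivation.leibniz, smul_eq_mul, smul_eq_mul]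

theorem NN_mul (ds dt : Derivation ℝ R R) (U V X : R) (e : ℤ) :
    NN ds dt U V (e + 1) (U * V * X) = U * V * NN ds dt U V e X := by
  have h1 : dt (U * V * X) = U * V * dt X + X * dt (U * V) := lei dt _ _
  have h2 : ds (U * V * X) = U * V * ds X + X * ds (U * V) := lei ds _ _
  have h3 : dt (dt (U * V * X)) = U * V * dt (dt X) + 2 * dt (U * V) * dt X + X * dt (dt (U * V)) := by
    rw [h1, map_add, lei dt (U * V) (dt X), lei dt X (dt (U * V))]; ring
  have h4 : ds (ds (U * V * X)) = U * V * ds (ds X) + 2 * ds (U * V) * ds X + X * ds (ds (U * V)) := by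
    rw [h2, map_add, lei ds (U * V) (ds X), lei ds X (ds (U * V))]; ring
  unfold NN
  rw [h3, h4, h1, h2]
  push_cast
  ring

theorem NN_pow (ds dt : Derivation ℝ R R) (U V X : R) (e : ℤ) (k : ℕ) :
    NN ds dt U V (e + k) ((U * V) ^ k * X) = (U * V) ^ k * NN ds dt U V e X := by
  induction k with
  | zero => simp
  | succ k ih =>
    have h1 : (U * V) ^ (k + 1) * X = U * V * ((U * V) ^ k * X) := by ring
    have h2 : e + ((k + 1 : ℕ) : ℤ) = (e + k) + 1 := by push_cast; ring
    rw [h1, h2, NN_mul, ih]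
    ring

theorem NN_add (ds dt : Derivation ℝ R R) (U V X Y : R) (e : ℤ) :
    NN ds dt U V e (X + Y) = NN ds dt U V e X + NN ds dt U V e Y := by
  unfold NN
  simp only [map_add]
  ring

/-- the numerator modulo `U` -/
theorem NN_modU (ds dt : Derivation ℝ R R) (U V X : R) (e : ℤ) (hUV : U + V = 2) :
    ∃ Y, NN ds dt U V e X = 4 * e * (2 * e + 3) * (ds U) ^ 2 * X + U * Y := by
  have hV : V = 2 - U := by linear_combination hUV
  have h0 : ds (2 : R) = 0 := by
    have := ds.map_natCast 2
    simpa using this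
  have h1 : ds (U * V) = (2 - 2 * U) * ds U := by
    rw [lei, hV, map_sub, h0]; ring
  refine ⟨((U * V) ^ 2 * dt (dt X) - 2 * e * (U * V) * dt (U * V) * dt X - e * (U * V) * dt (dt (U * V)) * X
      + e * (e + 1) * dt (U * V) ^ 2 * X)
    + V * (U * V ^ 2 * ds (ds X) - 2 * e * V * ds (U * V) * ds X - e * V * ds (ds (U * V)) * X)
    + dt U * (U * V * dt X - e * dt (U * V) * X) - V * ds U * (V * ds X)
    + e * (e + 1) * (ds U) ^ 2 * X * (-4 * U ^ 2 + 16 * U - 20)
    + e * ds U ^ 2 * X * (2 * U - 6), ?_⟩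
  unfold NN
  rw [show ds (ds (U * V)) = ds (ds (U * V)) from rfl]
  generalize ds (ds (U * V)) = w
  rw [h1]
  rw [hV]
  ring

/-- the reduced numerator in the tangential case `U_σ = U ω`, with `v V = 1` -/
def NP (ds dt : R → R) (U V v ω : R) (e : ℤ) (X : R) : R :=
  U * (U * V) * dt (dt X) + (U * dt U - 2 * e * U * dt (U * V)) * dt X
    + V * (U * V) * ds (ds X) + (- (2 * e * V * ds (U * V)) - ω * (U * V)) * ds X
    + (v * (e * (e + 1)) * dt (U * V) ^ 2 - e * (v * dt U * dt (U * V)) - e * U * dt (dt (U * V))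
        - e * V * ds (ds (U * V)) + 4 * e * (e + 1) * (1 - U) ^ 2 * U * ω ^ 2 + e * ω * ds (U * V)) * X

theorem NN_eq_NP (ds dt : Derivation ℝ R R) (U V v ω X : R) (e : ℤ) (hUV : U + V = 2) (hv : v * V = 1)
    (hω : ds U = U * ω) : NN ds dt U V e X = U * V * NP ds dt U V v ω e X := by
  have hV : V = 2 - U := by linear_combination hUV
  have h0 : ds (2 : R) = 0 := by
    have := ds.map_natCast 2
    simpa using this
  have h1 : ds (U * V) = (2 - 2 * U) * (U * ω) := by
    rw [lei, hV, map_sub, h0, hω]; ring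
  unfold NN NP
  generalize ds (ds (U * V)) = w
  rw [h1, hω]
  have h2 : U * (e * (e + 1) * dt (U * V) ^ 2 * X) = U * V * (v * (e * (e + 1)) * dt (U * V) ^ 2) * X := by
    linear_combination (-(U * (e * (e + 1) * dt (U * V) ^ 2 * X))) * hv
  have h3 : U * dt U * (e * dt (U * V) * X) = U * V * (e * (v * dt U * dt (U * V))) * X := by
    linear_combination (-(U * dt U * (e * dt (U * V) * X))) * hv
  have h4 : V * (U * ω) ^ 2 * (2 - 2 * U) ^ 2 * (e * (e + 1)) * X
      = U * V * (4 * e * (e + 1) * (1 - U) ^ 2 * U * ω ^ 2) * X := by ring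
  linear_combination h2 - h3 + h4

end Pool.Agent.Helper33.TS
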