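import Pool.Agent.Helper33.TS.Vec
import Pool.Agent.Helper99.TR.Good

/-!
# The core: a surface of finite type whose mean curvature does not vanish has both tangents in one affine plane
-/

set_option autoImplicit false

namespace Pool.Agent.Helper33.TS

open Pool.Agent.Helper99.TR3
open MvPolynomial
open Pool.Agent.Helper99.TR (B2 dS dT)

/-- stereographic coordinates: an isotropic line through `a` -/
theorem good_F {a B : Fin 3 → ℂ} {z0 w0 x y : ℂ} (ha : dot a a = 1) (hB : dot B B = 1) (a1 : 1 - a 2 ≠ 0)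
    (a2 : 1 + a 2 ≠ 0) (b1 : 1 - B 2 ≠ 0) (b2 : 1 + B 2 ≠ 0)
    (hx : x * (1 - a 2) = a 0 + Complex.I * a 1) (hy : y * (1 + a 2) = - (a 0 + Complex.I * a 1))
    (hz : z0 * (1 - B 2) = B 0 + Complex.I * B 1) (hw : w0 * (1 + B 2) = - (B 0 + Complex.I * B 1))
    (h : (z0 = x ∧ w0 ≠ y) ∨ (w0 = y ∧ z0 ≠ x)) : dot a B = 1 ∧ ∃ i, a i - B i ≠ 0 := by
  have hI : Complex.I * Complex.I = -1 := Complex.I_mul_I
  unfold dot at *
  have hPa : a 0 + Complex.I * a 1 ≠ 0 := by
    intro h0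
    have h1 : (1 - a 2) * (1 + a 2) = 0 := by
      linear_combination -ha + (a 0 - Complex.I * a 1) * h0 + (a 1) ^ 2 * hI
    rcases mul_eq_zero.1 h1 with h1 | h1
    · exact a1 h1
    · exact a2 h1
  have hPB : B 0 + Complex.I * B 1 ≠ 0 := by
    intro h0
    have h1 : (1 - B 2) * (1 + B 2) = 0 := by
      linear_combination -hB + (B 0 - Complex.I * B 1) * h0 + (B 1) ^ 2 * hI
    rcases mul_eq_zero.1 h1 with h1 | h1
    · exact b1 h1
    · exact b2 h1
  constructor
  · -- the key identity: `2 P_a P_B (1 - F) = (P_a (1 - B2) - P_B (1 - a2)) (P_B (1 + a2) - P_a (1 + B2))` up to sign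
    have key : 2 * (a 0 + Complex.I * a 1) * (B 0 + Complex.I * B 1) * (1 - (a 0 * B 0 + a 1 * B 1 + a 2 * B 2)) =
        - (((a 0 + Complex.I * a 1) * (1 - B 2) - (B 0 + Complex.I * B 1) * (1 - a 2)) *
          ((a 0 + Complex.I * a 1) * (1 + B 2) - (B 0 + Complex.I * B 1) * (1 + a 2))) := by
      linear_combination (- (B 0 + Complex.I * B 1) ^ 2) * ha - (a 0 + Complex.I * a 1) ^ 2 * hB
        + ((a 0 + Complex.I * a 1) ^ 2 * B 1 ^ 2 + (B 0 + Complex.I * B 1) ^ 2 * a 1 ^ 2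
          - 2 * (a 0 + Complex.I * a 1) * (B 0 + Complex.I * B 1) * a 1 * B 1) * hI
    have h0 : 2 * (a 0 + Complex.I * a 1) * (B 0 + Complex.I * B 1) *
        (1 - (a 0 * B 0 + a 1 * B 1 + a 2 * B 2)) = 0 := by
      rw [key]
      rcases h with ⟨h, _⟩ | ⟨h, _⟩
      · have h1 : (a 0 + Complex.I * a 1) * (1 - B 2) - (B 0 + Complex.I * B 1) * (1 - a 2) = 0 := by
          rw [← hx, ← hz, h]; ring
        rw [h1]; ring
      · have h1 : (a 0 + Complex.I * a 1) * (1 + B 2) - (B 0 + Complex.I * B 1) * (1 + a 2) = 0 := by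
          have e1 : a 0 + Complex.I * a 1 = - (y * (1 + a 2)) := by rw [hy]; ring
          have e2 : B 0 + Complex.I * B 1 = - (w0 * (1 + B 2)) := by rw [hw]; ring
          rw [e1, e2, h]; ring
        rw [h1]; ring
    have h1 := (mul_eq_zero.1 h0).resolve_left (mul_ne_zero (mul_ne_zero two_ne_zero hPa) hPB)
    linear_combination -h1
  · by_contra hcon
    push Not at hcon
    have e0 : a 0 = B 0 := sub_eq_zero.1 (hcon 0)
    have e1 : a 1 = B 1 := sub_eq_zero.1 (hcon 1)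
    have e2 : a 2 = B 2 := sub_eq_zero.1 (hcon 2)
    have hzx : z0 = x := mul_right_cancel₀ b1 (by rw [hz, ← e0, ← e1, ← e2, hx])
    have hwy : w0 = y := mul_right_cancel₀ b2 (by rw [hw, ← e0, ← e1, ← e2, hy])
    rcases h with ⟨_, h⟩ | ⟨_, h⟩
    · exact h hwy
    · exact h hzx

/-- a real tangent vector is not orthogonal to an isotropic normal vector -/
theorem good_Fs {a a1 : Fin 3 → ℝ} {B : Fin 3 → ℂ} (ha : dot a a = 1) (haa : dot a1 a = 0) (h1 : ∃ i, a1 i ≠ 0)
    (hB : dot B B = 1) (hF : dot (fun i => (a i : ℂ)) B = 1) (hne : ∃ i, (a i : ℂ) - B i ≠ 0) :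
    dot (fun i => (a1 i : ℂ)) B ≠ 0 := by
  intro h0
  have haC : dot (fun i => (a i : ℂ)) (fun i => (a i : ℂ)) = 1 := by
    have := congrArg (fun r : ℝ => (r : ℂ)) ha
    unfold dot at *
    push_cast at this
    exact this
  have haaC : dot (fun i => (a1 i : ℂ)) (fun i => (a i : ℂ)) = 0 := by
    have := congrArg (fun r : ℝ => (r : ℂ)) haa
    unfold dot at *
    push_cast at this
    exact this
  have h2 := (gram (fun i => (a i : ℂ) - B i) (fun i => (a i : ℂ)) (fun i => (a1 i : ℂ))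
    (by unfold dot at *; linear_combination haC + hB - 2 * hF)
    (by unfold dot at *; linear_combination haC - hF)
    (by rw [haC]; exact one_ne_zero)
    (by unfold dot at *; linear_combination haaC - h0)
    haaC hne).1
  have h3 : dot a1 a1 = 0 := by
    have : ((dot a1 a1 : ℝ) : ℂ) = 0 := by
      rw [← h2]
      unfold dot
      push_cast
      rfl
    exact_mod_cast this
  obtain ⟨i, hi⟩ := h1
  unfold dot at h3
  have : a1 0 = 0 ∧ a1 1 = 0 ∧ a1 2 = 0 := by
    refine ⟨?_, ?_, ?_⟩ <;> nlinarith [sq_nonneg (a1 0), sq_nonneg (a1 1), sq_nonneg (a1 2)]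
  fin_cases i
  · exact hi this.1
  · exact hi this.2.1
  · exact hi this.2.2

section

variable {A B : Fin 3 → B2}

theorem two_ne : (2 : B2) ≠ 0 := by
  intro h0
  have := congrArg cc h0
  rw [map_zero, map_ofNat] at this
  norm_num at this

theorem germ_U (hA : ∀ i, dS (A i) = dT (A i)) (hB : ∀ i, dS (B i) = - dT (B i))
    (hs : cc (dot (fun i => dT (A i)) B) ≠ 0) : UU A B ≠ 0 := by
  intro h0
  apply hs
  have h5 : dS (UU A B) + dT (UU A B) = - (2 * dot (fun i => dT (A i)) B) := by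
    unfold UU
    rw [map_sub, map_sub, lei_dot, lei_dot]
    have e1 : dS (1 : B2) = 0 := dS.map_one_eq_zero
    have e2 : dT (1 : B2) = 0 := dT.map_one_eq_zero
    rw [e1, e2]
    unfold dot
    dsimp only
    rw [hA, hA, hA, hB, hB, hB]
    ring
  rw [h0, map_zero, map_zero, add_zero] at h5
  have h6 := congrArg cc h5
  rw [map_zero, map_neg, map_mul, map_ofNat] at h6
  have h7 : (2 : ℂ) * cc (dot (fun i => dT (A i)) B) = 0 := by linear_combination h6
  exact (mul_eq_zero.1 h7).resolve_left two_ne_zero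

/-- the determinant vanishes in a formal germ of finite type with isotropic tangent plane -/
theorem germ_mm (hA : ∀ i, dS (A i) = dT (A i)) (hB : ∀ i, dS (B i) = - dT (B i)) (hAA : dot A A = 1)
    (hBB : dot B B = 1) (hU0 : cc (UU A B) = 0) (hne : ∃ i, cc (A i - B i) ≠ 0)
    (hs : cc (dot (fun i => dT (A i)) B) ≠ 0) (k : ℕ) (c : ℕ → ℝ) (hrel : ∀ i, QQ dT dS A B (k + 1) i =
      ∑ j ∈ Finset.range (k + 1), c j • ((UU A B * VV A B) ^ (3 * (k + 1 - j)) * QQ dT dS A B j i)) :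
    mm dT A B = 0 := by
  have hgerm := germ hA hB hAA hBB hU0 hne hs k c hrel
  have h := QQ_mm dT dS A B
  rw [hgerm 0, hgerm 1, hgerm 2] at h
  have hUne : UU A B ≠ 0 := germ_U hA hB hs
  have hVne : VV A B ≠ 0 := by
    intro h0
    have h8 := UV_two A B
    have h9 := congrArg cc h8
    rw [h0, add_zero, hU0, map_ofNat] at h9
    norm_num at h9
  have h10 : 2 * (UU A B * VV A B) * mm dT A B = 0 := by
    rw [← h]; ring
  exact (mul_eq_zero.1 h10).resolve_left (mul_ne_zero two_ne (mul_ne_zero hUne hVne))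

end

section

variable {a b : Fin 3 → ℕ → ℝ → ℝ}

/-- the same for the image of the universal ring -/
theorem phi_mm (φ : P →ₐ[ℝ] B2) (hPU : ∀ F, φ (PU F) = dT (φ F)) (hPW : ∀ F, φ (PW F) = dS (φ F))
    (hAA : φ (dot gA gA) = 1) (hBB : φ (dot gB gB) = 1)
    (hU0 : cc (φ (UU gA gB)) = 0) (hne : ∃ i, cc (φ (gA i - gB i)) ≠ 0) (hs : cc (φ (dot gA1 gB)) ≠ 0)
    (k : ℕ) (c : ℕ → ℝ) (hrel : ∀ i, φ (Rel k c i) = 0) : φ (mm PU gA gB) = 0 := by
  have hdot : ∀ H K : Fin 3 → P, φ (dot H K) = dot (fun i => φ (H i)) (fun i => φ (K i)) := fun H K =>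
    map_dot φ.toRingHom H K
  have hU : φ (UU gA gB) = UU (fun i => φ (gA i)) (fun i => φ (gB i)) := map_UU φ.toRingHom gA gB
  have hV : φ (VV gA gB) = VV (fun i => φ (gA i)) (fun i => φ (gB i)) := map_VV φ.toRingHom gA gB
  have hQQ : ∀ n i, φ (QQ PU PW gA gB n i) = QQ dT dS (fun i => φ (gA i)) (fun i => φ (gB i)) n i := fun n i =>
    map_QQ φ.toRingHom PU PW dT dS hPU hPW gA gB n i
  have hA : ∀ i, dS (φ (gA i)) = dT (φ (gA i)) := fun i => by rw [← hPU, ← hPW, PU_gA, PW_gA]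
  have hB : ∀ i, dS (φ (gB i)) = - dT (φ (gB i)) := fun i => by rw [← hPU, ← hPW, PU_gB, PW_gB, map_neg, neg_neg]
  have h : φ (mm PU gA gB) = mm dT (fun i => φ (gA i)) (fun i => φ (gB i)) :=
    map_mm φ.toRingHom PU dT hPU gA gB
  refine h.trans ?_
  refine germ_mm hA hB ?_ ?_ ?_ ?_ ?_ k c ?_
  · rw [← hdot]; exact hAA
  · rw [← hdot]; exact hBB
  · rw [← hU]; exact hU0
  · obtain ⟨i, hi⟩ := hne
    refine ⟨i, ?_⟩
    rw [← map_sub]
    exact hi
  · have e : (fun i => dT (φ (gA i))) = fun i => φ (gA1 i) := by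
      funext i
      rw [← hPU, PU_gA]
    rw [e, ← hdot]
    exact hs
  · intro i
    have h := hrel i
    unfold Rel at h
    rw [map_sub, map_sum, sub_eq_zero, hQQ] at h
    rw [h]
    refine Finset.sum_congr rfl fun j _ => ?_
    rw [map_smul, map_mul, map_pow, map_mul, hU, hV, hQQ]

/-- and for all derivatives -/
theorem phi_mm_iter (φ : P →ₐ[ℝ] B2) (hPU : ∀ F, φ (PU F) = dT (φ F)) (hPW : ∀ F, φ (PW F) = dS (φ F))
    (F : P) (hF : φ F = 0) (n : ℕ) : φ (PS^[n] F) = 0 := by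
  induction n with
  | zero => exact hF
  | succ n ih =>
    rw [Function.iterate_succ_apply']
    have h5 : 2 * PS (PS^[n] F) = PW (PS^[n] F) + PU (PS^[n] F) := by
      rw [PW_apply, PU_apply]; ring
    have h6 := congrArg φ h5
    rw [map_mul, map_add, hPW, hPU, ih, map_zero, map_zero, add_zero, map_ofNat] at h6
    exact (mul_eq_zero.1 h6).resolve_left two_ne

end

theorem cc_phi (w z : Fin 3 → ℕ → ℂ) (F : P) : cc (phi w z F) = aeval (pt w z) F := phi_const w z F

section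

variable {I J J' : Set ℝ} {a b : Fin 3 → ℕ → ℝ → ℝ}

/-- **a formal germ of a surface of finite type with isotropic tangent plane is minimal** -/
theorem formal_zero (hI : IsOpen I) (hJ : IsOpen J) (ha : ∀ i n, ∀ s ∈ I, HasDerivAt (a i n) (a i (n + 1) s) s)
    (hb : ∀ i n, ∀ t ∈ J, HasDerivAt (b i n) (b i (n + 1) t) t)
    (haa : ∀ s ∈ I, dot (fun i => a i 0 s) (fun i => a i 0 s) = 1)
    (hbb : ∀ t ∈ J, dot (fun i => b i 0 t) (fun i => b i 0 t) = 1) (hJ' : J' ⊆ J) {s : ℝ} (hs : s ∈ I)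
    (k : ℕ) (c : ℕ → ℝ)
    (hrel : ∀ i, ∀ s ∈ I, ∀ t ∈ J, aeval (pt (fun i n => a i n s) fun i n => b i n t) (Rel k c i) = 0)
    (z : Fin 3 → ℕ → ℂ)
    (hz : ∀ G : MvPolynomial (Fin 3 × ℕ) ℂ, (∀ t ∈ J', MvPolynomial.eval (fun x => (b x.1 x.2 t : ℂ)) G = 0) →
      MvPolynomial.eval (fun x => z x.1 x.2) G = 0)
    (h1 : dot (fun i => (a i 0 s : ℂ)) (fun i => z i 0) = 1) (h2 : ∃ i, (a i 0 s : ℂ) - z i 0 ≠ 0)
    (h3 : dot (fun i => (a i 1 s : ℂ)) (fun i => z i 0) ≠ 0) (n : ℕ) :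
    aeval (pt (fun i n => (a i n s : ℂ)) z) (PS^[n] (mm PU gA gB)) = 0 := by
  have htr : ∀ F : P, (∀ s ∈ I, ∀ t ∈ J, aeval (pt (fun i n => a i n s) fun i n => b i n t) F = 0) →
      phi (fun i n => (a i n s : ℂ)) z F = 0 :=
    fun F hF => transfer hI hJ ha hb F hF hs hJ' z hz
  have hcc : ∀ F, cc (phi (fun i n => (a i n s : ℂ)) z F) = aeval (pt (fun i n => (a i n s : ℂ)) z) F :=
    cc_phi _ _
  have eA : ∀ i, aeval (pt (fun i n => (a i n s : ℂ)) z) (gA i) = (a i 0 s : ℂ) := fun i => by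
    unfold gA; rw [aeval_X]; rfl
  have eB : ∀ i, aeval (pt (fun i n => (a i n s : ℂ)) z) (gB i) = z i 0 := fun i => by
    unfold gB; rw [aeval_X]; rfl
  have eA1 : ∀ i, aeval (pt (fun i n => (a i n s : ℂ)) z) (gA1 i) = (a i 1 s : ℂ) := fun i => by
    unfold gA1; rw [aeval_X]; rfl
  have hevdot : ∀ H K : Fin 3 → P, aeval (pt (fun i n => (a i n s : ℂ)) z) (dot H K) =
      dot (fun i => aeval (pt (fun i n => (a i n s : ℂ)) z) (H i)) (fun i => aeval (pt (fun i n => (a i n s : ℂ)) z) (K i)) :=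
    fun H K => map_dot (aeval (pt (fun i n => (a i n s : ℂ)) z)).toRingHom H K
  have hAA : phi (fun i n => (a i n s : ℂ)) z (dot gA gA) = 1 := by
    have h := htr (dot gA gA - 1) (fun s hs t ht => by
      rw [map_sub, map_one, Td.val_dot]
      simp only [ev_gA]
      rw [haa s hs, sub_self])
    rw [map_sub, map_one, sub_eq_zero] at h
    exact h
  have hBB : phi (fun i n => (a i n s : ℂ)) z (dot gB gB) = 1 := by
    have h := htr (dot gB gB - 1) (fun s hs t ht => by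
      rw [map_sub, map_one, Td.val_dot]
      simp only [ev_gB]
      rw [hbb t ht, sub_self])
    rw [map_sub, map_one, sub_eq_zero] at h
    exact h
  rw [← hcc, phi_mm_iter _ (phi_PU _ _) (phi_PW _ _) _ (phi_mm _ (phi_PU _ _) (phi_PW _ _) hAA hBB ?_ ?_ ?_ k c
    fun i => htr _ (hrel i)) n, map_zero]
  · rw [hcc]
    unfold UU
    rw [map_sub, map_one, hevdot]
    simp only [eA, eB]
    rw [h1, sub_self]
  · obtain ⟨i, hi⟩ := h2
    refine ⟨i, ?_⟩
    rw [hcc, map_sub, eA, eB]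
    exact hi
  · rw [hcc, hevdot]
    simp only [eA1, eB]
    exact h3

end

end Pool.Agent.Helper33.TS
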