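import Mathlib

/-!
# Translation surfaces of finite type (project TS, MP_078326_gt): the universal formulas

`R` is a commutative ring with two derivations `ds` (the derivative in `σ = (s - t) / 2`) and `dt` (the derivative in
`τ = (s + t) / 2`), `a`, `b : Fin 3 → R` the two unit tangent vectors, `a` a function of `s`, `b` a function of `t`. The surface
is `f = α(s) + β(t)`, `f_σ = a - b`, `f_τ = a + b` are orthogonal, `⟨f_σ, f_σ⟩ = 2 U`, `⟨f_τ, f_τ⟩ = 2 V`, `U = 1 - ⟨a, b⟩`,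
`V = 1 + ⟨a, b⟩`, and the Laplacian (analyst's sign) is
`2 L = D⁻¹ (U ∂τ² + V ∂σ²) + D⁻² (U U_τ ∂τ - V U_σ ∂σ)`, `D = U V`. We have `2 L (X D ^ (-e)) = D ^ (-e-3) NN e X` and
`(2 L) ^ (n+1) f = D ^ (-(3 n + 2)) QQ n`.
-/

set_option autoImplicit false

namespace Pool.Agent.Helper33.TS

section general

variable {R : Type*} [CommRing R]

/-- the scalar product -/
def dot (a b : Fin 3 → R) : R := a 0 * b 0 + a 1 * b 1 + a 2 * b 2

/-- `U = 1 - ⟨a, b⟩` -/
def UU (a b : Fin 3 → R) : R := 1 - dot a b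

/-- `V = 1 + ⟨a, b⟩` -/
def VV (a b : Fin 3 → R) : R := 1 + dot a b

/-- the numerator of the Laplacian: `2 L (X D ^ (-e)) = D ^ (-e-3) NN e X`, `D = U V` -/
def NN (ds dt : R → R) (U V : R) (e : ℤ) (X : R) : R :=
  U * ((U * V) ^ 2 * dt (dt X) - 2 * e * (U * V) * dt (U * V) * dt X - e * (U * V) * dt (dt (U * V)) * X
      + e * (e + 1) * dt (U * V) ^ 2 * X)
    + V * ((U * V) ^ 2 * ds (ds X) - 2 * e * (U * V) * ds (U * V) * ds X - e * (U * V) * ds (ds (U * V)) * X
      + e * (e + 1) * ds (U * V) ^ 2 * X)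
    + U * dt U * (U * V * dt X - e * dt (U * V) * X) - V * ds U * (U * V * ds X - e * ds (U * V) * X)

/-- the numerators of the iterated Laplacians of the surface: `(2 L) ^ (n+1) f = D ^ (-(3 n + 2)) QQ n` -/
def QQ (ds dt : R → R) (a b : Fin 3 → R) : ℕ → Fin 3 → R
  | 0, i => 2 * (UU a b * VV a b) * ds (a i - b i) + UU a b * dt (UU a b) * (a i + b i)
      - VV a b * ds (UU a b) * (a i - b i)
  | n + 1, i => NN ds dt (UU a b) (VV a b) (3 * n + 2) (QQ ds dt a b n i)

theorem QQ_zero (ds dt : R → R) (a b : Fin 3 → R) (i : Fin 3) :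
    QQ ds dt a b 0 i = 2 * (UU a b * VV a b) * ds (a i - b i) + UU a b * dt (UU a b) * (a i + b i)
      - VV a b * ds (UU a b) * (a i - b i) := rfl

theorem QQ_succ (ds dt : R → R) (a b : Fin 3 → R) (n : ℕ) (i : Fin 3) :
    QQ ds dt a b (n + 1) i = NN ds dt (UU a b) (VV a b) (3 * n + 2) (QQ ds dt a b n i) := rfl

/-- the determinant `m = det (a' + b', a, b)` (`a' + b' = ds (a - b)`) -/
def mm (ds : R → R) (a b : Fin 3 → R) : R :=
  ds (a 0 - b 0) * (a 1 * b 2 - a 2 * b 1) + ds (a 1 - b 1) * (a 2 * b 0 - a 0 * b 2)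
    + ds (a 2 - b 2) * (a 0 * b 1 - a 1 * b 0)

end general

section natural

variable {R S : Type*} [CommRing R] [CommRing S]

theorem map_dot (φ : R →+* S) (a b : Fin 3 → R) : φ (dot a b) = dot (fun i => φ (a i)) (fun i => φ (b i)) := by
  simp [dot]

theorem map_UU (φ : R →+* S) (a b : Fin 3 → R) : φ (UU a b) = UU (fun i => φ (a i)) (fun i => φ (b i)) := by
  simp [UU, map_dot]

theorem map_VV (φ : R →+* S) (a b : Fin 3 → R) : φ (VV a b) = VV (fun i => φ (a i)) (fun i => φ (b i)) := by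
  simp [VV, map_dot]

theorem map_NN (φ : R →+* S) (ds dt : R → R) (ds' dt' : S → S) (hs : ∀ x, φ (ds x) = ds' (φ x))
    (ht : ∀ x, φ (dt x) = dt' (φ x)) (U V : R) (e : ℤ) (X : R) :
    φ (NN ds dt U V e X) = NN ds' dt' (φ U) (φ V) e (φ X) := by
  simp only [NN, map_add, map_sub, map_mul, map_pow, map_intCast, map_one, map_ofNat, hs, ht]

theorem map_QQ (φ : R →+* S) (ds dt : R → R) (ds' dt' : S → S) (hs : ∀ x, φ (ds x) = ds' (φ x))
    (ht : ∀ x, φ (dt x) = dt' (φ x)) (a b : Fin 3 → R) (n : ℕ) (i : Fin 3) :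
    φ (QQ ds dt a b n i) = QQ ds' dt' (fun i => φ (a i)) (fun i => φ (b i)) n i := by
  induction n with
  | zero =>
    simp only [QQ_zero, map_add, map_sub, map_mul, map_ofNat, hs, ht, map_UU, map_VV]
  | succ n ih =>
    rw [QQ_succ, QQ_succ, map_NN φ ds dt ds' dt' hs ht, ih, map_UU, map_VV]

theorem map_mm (φ : R →+* S) (ds : R → R) (ds' : S → S) (hs : ∀ x, φ (ds x) = ds' (φ x)) (a b : Fin 3 → R) :
    φ (mm ds a b) = mm ds' (fun i => φ (a i)) (fun i => φ (b i)) := by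
  simp only [mm, map_add, map_sub, map_mul, hs]

end natural

end Pool.Agent.Helper33.TS
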