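import Pool.Agent.Helper33.TS.Tan

/-!
# The local theorem: a formal translation surface of finite type is minimal at a simple isotropic germ
-/

set_option autoImplicit false

namespace Pool.Agent.Helper33.TS

open Pool.Agent.Helper99.TR

/-- the constant term -/
noncomputable def cc : B2 →+* ℂ := (PowerSeries.constantCoeff).comp (PowerSeries.constantCoeff)

theorem cc_eq (f : B2) : cc f = PowerSeries.constantCoeff (c0 f) := rfl

theorem isUnit_of_cc {f : B2} (h : cc f ≠ 0) : IsUnit f := by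
  rw [PowerSeries.isUnit_iff_constantCoeff, PowerSeries.isUnit_iff_constantCoeff]
  exact IsUnit.mk0 _ h

theorem cc_ne_of_isUnit {f : B2} (h : IsUnit f) : cc f ≠ 0 := (h.map cc).ne_zero

theorem intB_ne {z : ℤ} (hz : z ≠ 0) : cc (z : B2) ≠ 0 := by
  rw [map_intCast]
  exact_mod_cast hz

/-- a series in `σ` with `f' = f g` and `f(0) = 0` vanishes -/
theorem ode_zero (f g : A1) (h : dA f = f * g) (h0 : PowerSeries.constantCoeff f = 0) : f = 0 := by
  ext n
  rw [map_zero]
  induction n using Nat.strong_induction_on with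
  | _ n ih =>
    rcases n with _ | n
    · rw [PowerSeries.coeff_zero_eq_constantCoeff]; exact h0
    · have h1 := congrArg (PowerSeries.coeff n) h
      rw [dA_coeff, PowerSeries.coeff_mul] at h1
      have h2 : ∑ p ∈ Finset.HasAntidiagonal.antidiagonal n,
          (PowerSeries.coeff p.1) f * (PowerSeries.coeff p.2) g = 0 := by
        refine Finset.sum_eq_zero fun p hp => ?_
        have := Finset.HasAntidiagonal.mem_antidiagonal.1 hp
        rw [ih p.1 (by omega), zero_mul]
      rw [h2] at h1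
      refine (mul_eq_zero.1 h1).resolve_right ?_
      exact_mod_cast Nat.succ_ne_zero n

section trans

variable {a b : Fin 3 → B2}

theorem QQ_modU (n : ℕ) (i : Fin 3) : ∃ (κ : ℤ) (Y : B2), κ ≠ 0 ∧
    QQ dT dS a b n i = κ * (dT (UU a b)) ^ (2 * n + 1) * (a i - b i) + UU a b * Y := by
  induction n with
  | zero =>
    refine ⟨-2, 2 * VV a b * dT (a i - b i) + dS (UU a b) * (a i + b i) + dT (UU a b) * (a i - b i), by norm_num, ?_⟩
    rw [QQ_zero]
    have hV : VV a b = 2 - UU a b := by linear_combination UV_two a b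
    rw [hV]
    push_cast
    ring
  | succ n ih =>
    obtain ⟨κ, Y, hκ, hY⟩ := ih
    obtain ⟨Z, hZ⟩ := NN_modU dT dS (UU a b) (VV a b) (QQ dT dS a b n i) (3 * n + 2) (UV_two a b)
    refine ⟨4 * (3 * n + 2) * (2 * (3 * n + 2) + 3) * κ,
      Z + 4 * (3 * n + 2) * (2 * (3 * n + 2) + 3) * (dT (UU a b)) ^ 2 * Y, ?_, ?_⟩
    · refine mul_ne_zero ?_ hκ
      positivity
    · rw [QQ_succ, hZ, hY]
      push_cast
      ring

/-- **the local theorem** -/
theorem germ (ha : ∀ i, dS (a i) = dT (a i)) (hb : ∀ i, dS (b i) = - dT (b i)) (haa : dot a a = 1) (hbb : dot b b = 1)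
    (h0 : cc (UU a b) = 0) (hne : ∃ i, cc (a i - b i) ≠ 0) (hs : cc (dot (fun i => dT (a i)) b) ≠ 0)
    (k : ℕ) (c : ℕ → ℝ) (hrel : ∀ i, QQ dT dS a b (k + 1) i =
      ∑ j ∈ Finset.range (k + 1), c j • ((UU a b * VV a b) ^ (3 * (k + 1 - j)) * QQ dT dS a b j i)) :
    ∀ i, QQ dT dS a b 0 i = 0 := by
  obtain ⟨i0, hi0⟩ := hne
  have hV : IsUnit (VV a b) := by
    apply isUnit_of_cc
    have h1 := congrArg cc (UV_two a b)
    rw [map_add, h0, zero_add, map_ofNat] at h1
    rw [h1]
    exact two_ne_zero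
  obtain ⟨v, hv⟩ := hV.exists_left_inv
  -- the isotropic curve is characteristic
  have hpow : UU a b ∣ (dT (UU a b)) ^ (2 * (k + 1) + 1) := by
    obtain ⟨κ, Y, hκ, hY⟩ := QQ_modU (a := a) (b := b) (k + 1) i0
    have h1 : UU a b ∣ QQ dT dS a b (k + 1) i0 := by
      rw [hrel i0]
      refine Finset.dvd_sum fun j hj => ?_
      have hj' : j < k + 1 := Finset.mem_range.1 hj
      rw [Algebra.smul_def]
      refine Dvd.dvd.mul_left (Dvd.dvd.mul_right ?_ _) _
      exact (Dvd.intro _ rfl : UU a b ∣ UU a b * VV a b).trans (dvd_pow_self _ (by omega))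
    rw [hY] at h1
    have h2 := (dvd_add_left (Dvd.intro Y rfl : UU a b ∣ UU a b * Y)).1 h1
    have h3 : IsUnit ((κ : B2) * (a i0 - b i0)) := by
      apply isUnit_of_cc
      rw [map_mul]
      exact mul_ne_zero (intB_ne hκ) hi0
    have h4 : (κ : B2) * (dT (UU a b)) ^ (2 * (k + 1) + 1) * (a i0 - b i0)
        = (dT (UU a b)) ^ (2 * (k + 1) + 1) * ((κ : B2) * (a i0 - b i0)) := by ring
    rw [h4] at h2
    exact (h3.dvd_mul_right).1 h2
  have hT0 : cc (dT (UU a b)) = 0 := by
    by_contra h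
    have h1 : IsUnit (dT (UU a b)) := isUnit_of_cc h
    have h2 : IsUnit (UU a b) := isUnit_of_dvd_unit hpow (h1.pow _)
    exact cc_ne_of_isUnit h2 h0
  have hS0 : cc (dS (UU a b)) ≠ 0 := by
    intro h
    apply hs
    have h1 : dS (UU a b) + dT (UU a b) = - (2 * dot (fun i => dT (a i)) b) := by
      unfold UU
      rw [map_sub, map_sub, lei_dot, lei_dot]
      have e1 : dS (1 : B2) = 0 := dS.map_one_eq_zero
      have e2 : dT (1 : B2) = 0 := dT.map_one_eq_zero
      rw [e1, e2]
      unfold dot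
      dsimp only
      rw [ha, ha, ha, hb, hb, hb]
      ring
    have h2 := congrArg cc h1
    rw [map_add, h, hT0, map_neg, map_mul, map_ofNat] at h2
    have h3 : (2 : ℂ) * cc (dot (fun i => dT (a i)) b) = 0 := by linear_combination h2
    exact (mul_eq_zero.1 h3).resolve_left two_ne_zero
  have hu : PowerSeries.constantCoeff (c1 (UU a b)) ≠ 0 := by
    rw [← c0_dS]
    exact hS0
  obtain ⟨ω, hω⟩ := dvd_of_dvd_pow (D := UU a b) (X := dT (UU a b)) h0 hu hpow
  have hU0 : c0 (UU a b) = 0 := by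
    apply ode_zero _ (c0 ω) _ h0
    rw [← c0_dT, hω, map_mul]
  exact Tan.minimal (v := v) (ω := ω) ⟨ha, hb, haa, hbb, hU0, hu, hω, hv, ⟨i0, hi0⟩⟩ k c hrel

end trans

end Pool.Agent.Helper33.TS
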