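import Pool.Agent.Helper33.TS.Vec

/-!
# Reversal of the second curve
-/

set_option autoImplicit false

namespace Pool.Agent.Helper33.TS

open Pool.Agent.Helper99.TR3
open MvPolynomial

/-- the unit tangent of the reversed curve -/
def rv (b : Fin 3 → ℕ → ℝ → ℝ) (i : Fin 3) (n : ℕ) (t : ℝ) : ℝ := (-1) ^ (n + 1) * b i n (-t)

theorem rv_zero (b : Fin 3 → ℕ → ℝ → ℝ) (i : Fin 3) (t : ℝ) : rv b i 0 t = - b i 0 (-t) := by
  unfold rv; ring

theorem rv_one (b : Fin 3 → ℕ → ℝ → ℝ) (i : Fin 3) (t : ℝ) : rv b i 1 t = b i 1 (-t) := by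
  unfold rv; ring

theorem rv_deriv {b : Fin 3 → ℕ → ℝ → ℝ} {J : Set ℝ} (hb : ∀ i n, ∀ t ∈ J, HasDerivAt (b i n) (b i (n + 1) t) t)
    (i : Fin 3) (n : ℕ) {t : ℝ} (ht : -t ∈ J) : HasDerivAt (rv b i n) (rv b i (n + 1) t) t := by
  have h := (hb i n (-t) ht).comp t (hasDerivAt_neg t)
  have h2 := h.const_mul ((-1 : ℝ) ^ (n + 1))
  refine HasDerivAt.congr_deriv h2 ?_
  unfold rv
  ring

/-- the substitution in the jets of the second curve -/
noncomputable def th : P →ₐ[ℝ] P :=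
  aeval (Sum.elim (fun x => X (Sum.inl x)) fun x => C ((-1) ^ (x.2 + 1)) * X (Sum.inr x))

theorem th_inl (i : Fin 3) (n : ℕ) : th (X (Sum.inl (i, n))) = X (Sum.inl (i, n)) := by
  unfold th; rw [aeval_X]; rfl

theorem th_inr (i : Fin 3) (n : ℕ) : th (X (Sum.inr (i, n))) = C ((-1) ^ (n + 1)) * X (Sum.inr (i, n)) := by
  unfold th; rw [aeval_X]; rfl

theorem th_C (c : ℝ) : th (C c) = C c := th.commutes c

theorem th_val (a b : Fin 3 → ℕ → ℝ → ℝ) (s t : ℝ) (F : P) :
    aeval (pt (fun i n => a i n s) fun i n => rv b i n t) F =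
      aeval (pt (fun i n => a i n s) fun i n => b i n (-t)) (th F) := by
  induction F using MvPolynomial.induction_on with
  | C c => rw [th_C]; exact (AlgHom.commutes _ c).trans (AlgHom.commutes _ c).symm
  | add u v hu hv => rw [map_add, map_add, map_add, hu, hv]
  | mul_X u n hu =>
    rw [map_mul, map_mul, map_mul, hu]
    congr 1
    rcases n with ⟨i, n⟩ | ⟨i, n⟩
    · rw [th_inl, aeval_X, aeval_X]; rfl
    · rw [th_inr, map_mul, aeval_X, aeval_X]
      have h : aeval (pt (fun i n => a i n s) fun i n => b i n (-t)) (C ((-1) ^ (n + 1)) : P) = (-1 : ℝ) ^ (n + 1) :=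
        AlgHom.commutes _ _
      rw [h]
      rfl

theorem th_PU (F : P) : th (PU F) = PW (th F) := by
  induction F using MvPolynomial.induction_on with
  | C c => rw [PU_C, th_C, PW_C, map_zero]
  | add u v hu hv => rw [map_add, map_add, map_add, map_add, hu, hv]
  | mul_X u n hu =>
    rw [lei, map_add, map_mul, map_mul, map_mul, lei, hu]
    rcases n with ⟨i, n⟩ | ⟨i, n⟩
    · rw [PU_inl, th_inl, th_inl, PW_inl]
    · rw [PU_inr, map_neg, th_inr, th_inr, lei, PW_C, PW_inr, pow_succ (-1 : ℝ) (n + 1), C_mul, C_neg, C_1]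
      ring

theorem th_PW (F : P) : th (PW F) = PU (th F) := by
  induction F using MvPolynomial.induction_on with
  | C c => rw [PW_C, th_C, PU_C, map_zero]
  | add u v hu hv => rw [map_add, map_add, map_add, map_add, hu, hv]
  | mul_X u n hu =>
    rw [lei, map_add, map_mul, map_mul, map_mul, lei, hu]
    rcases n with ⟨i, n⟩ | ⟨i, n⟩
    · rw [PW_inl, th_inl, th_inl, PU_inl]
    · rw [PW_inr, th_inr, th_inr, lei, PU_C, PU_inr, pow_succ (-1 : ℝ) (n + 1), C_mul, C_neg, C_1]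
      ring

theorem th_gA (i : Fin 3) : th (gA i) = gA i := th_inl i 0

theorem th_gB (i : Fin 3) : th (gB i) = - gB i := by
  unfold gB
  rw [th_inr, zero_add, pow_one, C_neg, C_1]
  ring

theorem th_QQ (n : ℕ) (i : Fin 3) : th (QQ PU PW gA gB n i) = QQ PU PW gA gB n i := by
  have h : th (QQ PU PW gA gB n i) = QQ PW PU (fun i => th (gA i)) (fun i => th (gB i)) n i :=
    map_QQ th.toRingHom PU PW PW PU th_PU th_PW gA gB n i
  rw [h]
  simp only [th_gA, th_gB]
  exact QQ_rev PU PW (fun i => by rw [PU_gA, PW_gA]) (fun i => by rw [PU_gB, PW_gB, neg_neg]) n i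

theorem th_U : th (UU gA gB) = VV gA gB := by
  have h : th (UU gA gB) = UU (fun i => th (gA i)) (fun i => th (gB i)) := map_UU th.toRingHom gA gB
  rw [h]
  simp only [th_gA, th_gB]
  exact UU_neg _ _

theorem th_V : th (VV gA gB) = UU gA gB := by
  have h : th (VV gA gB) = VV (fun i => th (gA i)) (fun i => th (gB i)) := map_VV th.toRingHom gA gB
  rw [h]
  simp only [th_gA, th_gB]
  exact VV_neg _ _

/-- the relation of finite type is invariant -/
theorem th_Rel (k : ℕ) (c : ℕ → ℝ) (i : Fin 3) : th (Rel k c i) = Rel k c i := by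
  unfold Rel
  rw [map_sub, map_sum, th_QQ]
  congr 1
  refine Finset.sum_congr rfl fun j _ => ?_
  rw [map_smul, map_mul, map_pow, map_mul, th_U, th_V, th_QQ, mul_comm (VV gA gB)]

theorem rv_rel {a b : Fin 3 → ℕ → ℝ → ℝ} (k : ℕ) (c : ℕ → ℝ) (i : Fin 3) {s t : ℝ}
    (h : aeval (pt (fun i n => a i n s) fun i n => b i n (-t)) (Rel k c i) = 0) :
    aeval (pt (fun i n => a i n s) fun i n => rv b i n t) (Rel k c i) = 0 := by
  rw [th_val, th_Rel]
  exact h

theorem rv_mr (a a1 : Fin 3 → ℝ) (b : Fin 3 → ℕ → ℝ → ℝ) (t : ℝ) :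
    mr a a1 (fun i => rv b i 0 t) (fun i => rv b i 1 t) = - mr a a1 (fun i => b i 0 (-t)) (fun i => b i 1 (-t)) := by
  simp only [rv_zero, rv_one]
  unfold mr
  ring

end Pool.Agent.Helper33.TS
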