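import Pool.Agent.Helper33.TS.SurfRing
import Pool.Agent.Helper99.TR.Fps2
import Pool.Agent.Helper44.FT.FinRec

/-!
# The real side: a translation surface of finite type gives a polynomial relation between the jets
-/

set_option autoImplicit false

namespace Pool.Agent.Helper33.TS

open Pool.Agent.Helper33.TT (dp dD lapC Sm Sm.ext' dv dv_apply dv_comm mr mr_apply dv_mr emb emb_apply dv_emb dp_emb cst
  cst_apply dv_cst CD E3 sm_Wi lap_smooth lap_ring fderiv_smooth comp_smooth)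
open Pool.Agent.Helper44.FT (Sf fin_rec)
open Pool.Agent.Helper99.TR3

/-- the data of a translation surface: `a i n`, `b i n` the derivatives of the components of the two unit tangents -/
structure Td (I J : Set ℝ) (f : ℝ × ℝ → E3) (a b : Fin 3 → ℕ → ℝ → ℝ) : Prop where
  hI : IsOpen I
  hJ : IsOpen J
  ha : ∀ i n, ∀ s ∈ I, HasDerivAt (a i n) (a i (n + 1) s) s
  hb : ∀ i n, ∀ t ∈ J, HasDerivAt (b i n) (b i (n + 1) t) t
  haa : ∀ s ∈ I, dot (fun i => a i 0 s) (fun i => a i 0 s) = 1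
  hbb : ∀ t ∈ J, dot (fun i => b i 0 t) (fun i => b i 0 t) = 1
  f1 : ∀ p ∈ I ×ˢ J, ∀ k, fderiv ℝ f p ((1 : ℝ), (0 : ℝ)) k = a k 0 p.1
  f2 : ∀ p ∈ I ×ˢ J, ∀ k, fderiv ℝ f p ((0 : ℝ), (1 : ℝ)) k = b k 0 p.2

theorem smooth_of_family {I : Set ℝ} (hI : IsOpen I) {a : ℕ → ℝ → ℝ}
    (ha : ∀ n, ∀ s ∈ I, HasDerivAt (a n) (a (n + 1) s) s) (n : ℕ) :
    ContDiffOn ℝ ((⊤ : ℕ∞) : WithTop ℕ∞) (a n) I := by
  rw [contDiffOn_infty]
  intro m
  induction m generalizing n with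
  | zero =>
    rw [Nat.cast_zero, contDiffOn_zero]
    exact fun s hs => (ha n s hs).continuousAt.continuousWithinAt
  | succ m ih =>
    rw [Nat.cast_succ, contDiffOn_succ_iff_deriv_of_isOpen hI]
    refine ⟨fun s hs => (ha n s hs).differentiableAt.differentiableWithinAt, ?_, ?_⟩
    · intro h
      exact absurd h (by simp)
    · exact (ih (n + 1)).congr fun s hs => (ha n s hs).deriv

/-- the generators -/
noncomputable def gA : Fin 3 → P := fun i => MvPolynomial.X (Sum.inl (i, 0))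

/-- the generators -/
noncomputable def gB : Fin 3 → P := fun i => MvPolynomial.X (Sum.inr (i, 0))

/-- the relation of finite type -/
noncomputable def Rel (k : ℕ) (c : ℕ → ℝ) (i : Fin 3) : P :=
  QQ PU PW gA gB (k + 1) i -
    ∑ j ∈ Finset.range (k + 1), c j • ((UU gA gB * VV gA gB) ^ (3 * (k + 1 - j)) * QQ PU PW gA gB j i)

section

variable {I J : Set ℝ} {f : ℝ × ℝ → E3} {a b : Fin 3 → ℕ → ℝ → ℝ} {E F G : ℝ × ℝ → ℝ}
  {L : (ℝ × ℝ → E3) → ℝ × ℝ → E3}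

theorem Td.smA (T : Td I J f a b) (i : Fin 3) (n : ℕ) : CD (fun p : ℝ × ℝ => a i n p.1) (I ×ˢ J) :=
  (smooth_of_family T.hI (T.ha i) n).comp contDiff_fst.contDiffOn fun _ hp => hp.1

theorem Td.smB (T : Td I J f a b) (i : Fin 3) (n : ℕ) : CD (fun p : ℝ × ℝ => b i n p.2) (I ×ˢ J) :=
  (smooth_of_family T.hJ (T.hb i) n).comp contDiff_snd.contDiffOn fun _ hp => hp.2

/-- real constants in the ring -/
noncomputable def rho (U : Set (ℝ × ℝ)) : ℝ →+* Sm U where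
  toFun r := cst (r : ℂ)
  map_one' := by
    apply Sm.ext'; intro p; show ((1 : ℝ) : ℂ) = 1; simp
  map_zero' := by
    apply Sm.ext'; intro p; show ((0 : ℝ) : ℂ) = 0; simp
  map_add' x y := by
    apply Sm.ext'; intro p; show ((x + y : ℝ) : ℂ) = (x : ℂ) + (y : ℂ); simp
  map_mul' x y := by
    apply Sm.ext'; intro p; show ((x * y : ℝ) : ℂ) = (x : ℂ) * (y : ℂ); simp

/-- the evaluation of the jets in the ring of smooth functions -/
noncomputable def Td.psi (T : Td I J f a b) : P →+* Sm (I ×ˢ J) :=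
  MvPolynomial.eval₂Hom (rho (I ×ˢ J)) (Sum.elim (fun x => mr _ (T.smA x.1 x.2)) fun x => mr _ (T.smB x.1 x.2))

theorem Td.psi_C (T : Td I J f a b) (c : ℝ) : T.psi (MvPolynomial.C c) = cst (c : ℂ) := by
  unfold Td.psi
  rw [MvPolynomial.coe_eval₂Hom, MvPolynomial.eval₂_C]
  rfl

theorem Td.psi_inl (T : Td I J f a b) (i : Fin 3) (n : ℕ) :
    T.psi (MvPolynomial.X (Sum.inl (i, n))) = mr _ (T.smA i n) := by
  unfold Td.psi
  rw [MvPolynomial.coe_eval₂Hom, MvPolynomial.eval₂_X]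
  rfl

theorem Td.psi_inr (T : Td I J f a b) (i : Fin 3) (n : ℕ) :
    T.psi (MvPolynomial.X (Sum.inr (i, n))) = mr _ (T.smB i n) := by
  unfold Td.psi
  rw [MvPolynomial.coe_eval₂Hom, MvPolynomial.eval₂_X]
  rfl

theorem Td.psi_val (T : Td I J f a b) (H : P) (p : (I ×ˢ J : Set (ℝ × ℝ))) : (T.psi H).1 p =
    ((MvPolynomial.aeval (pt (fun i n => a i n p.1.1) fun i n => b i n p.1.2) H : ℝ) : ℂ) := by
  induction H using MvPolynomial.induction_on with
  | C c =>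
    rw [T.psi_C]
    have h1 : MvPolynomial.aeval (pt (fun i n => a i n p.1.1) fun i n => b i n p.1.2) (MvPolynomial.C c : P) = c :=
      (MvPolynomial.aeval (pt (fun i n => a i n p.1.1) fun i n => b i n p.1.2)).commutes c
    rw [h1]
    rfl
  | add u v hu hv =>
    rw [map_add, map_add, Complex.ofReal_add, ← hu, ← hv]
    rfl
  | mul_X u n hu =>
    rw [map_mul, map_mul, Complex.ofReal_mul, ← hu, MvPolynomial.aeval_X]
    rcases n with ⟨i, n⟩ | ⟨i, n⟩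
    · rw [T.psi_inl]; rfl
    · rw [T.psi_inr]; rfl

theorem fd_fst {g g' : ℝ → ℝ} {p : ℝ × ℝ} (h : HasDerivAt g (g' p.1) p.1) (v : ℝ × ℝ) :
    fderiv ℝ (fun q : ℝ × ℝ => g q.1) p v = g' p.1 * v.1 := by
  have h1 := h.hasFDerivAt.comp p (hasFDerivAt_fst (𝕜 := ℝ) (p := p))
  have h2 : HasFDerivAt (fun q : ℝ × ℝ => g q.1) _ p := h1
  rw [h2.fderiv]
  simp [mul_comm]

theorem fd_snd {g g' : ℝ → ℝ} {p : ℝ × ℝ} (h : HasDerivAt g (g' p.2) p.2) (v : ℝ × ℝ) :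
    fderiv ℝ (fun q : ℝ × ℝ => g q.2) p v = g' p.2 * v.2 := by
  have h1 := h.hasFDerivAt.comp p (hasFDerivAt_snd (𝕜 := ℝ) (p := p))
  have h2 : HasFDerivAt (fun q : ℝ × ℝ => g q.2) _ p := h1
  rw [h2.fderiv]
  simp [mul_comm]

theorem Td.psi_PS (T : Td I J f a b) (hU : IsOpen (I ×ˢ J)) (H : P) :
    T.psi (PS H) = dv hU ((1 : ℝ), (0 : ℝ)) (T.psi H) := by
  induction H using MvPolynomial.induction_on with
  | C c => rw [PS_C, map_zero, T.psi_C, dv_cst]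
  | add u v hu hv => rw [map_add, map_add, map_add, map_add, hu, hv]
  | mul_X u n hu =>
    rw [Derivation.leibniz, map_add, smul_eq_mul, smul_eq_mul, map_mul, map_mul, map_mul, hu, leq]
    congr 2
    rcases n with ⟨i, n⟩ | ⟨i, n⟩
    · rw [PS_inl, T.psi_inl, T.psi_inl]
      apply Sm.ext'
      intro p
      rw [dv_mr, mr_apply, fd_fst (T.ha i n p.1.1 p.2.1)]
      simp
    · rw [PS_inr, map_zero, T.psi_inr]
      apply Sm.ext'
      intro p
      rw [dv_mr, fd_snd (T.hb i n p.1.2 p.2.2)]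
      simp

theorem Td.psi_PT (T : Td I J f a b) (hU : IsOpen (I ×ˢ J)) (H : P) :
    T.psi (PT H) = dv hU ((0 : ℝ), (1 : ℝ)) (T.psi H) := by
  induction H using MvPolynomial.induction_on with
  | C c => rw [PT_C, map_zero, T.psi_C, dv_cst]
  | add u v hu hv => rw [map_add, map_add, map_add, map_add, hu, hv]
  | mul_X u n hu =>
    rw [Derivation.leibniz, map_add, smul_eq_mul, smul_eq_mul, map_mul, map_mul, map_mul, hu, leq]
    congr 2
    rcases n with ⟨i, n⟩ | ⟨i, n⟩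
    · rw [PT_inl, map_zero, T.psi_inl]
      apply Sm.ext'
      intro p
      rw [dv_mr, fd_fst (T.ha i n p.1.1 p.2.1)]
      simp
    · rw [PT_inr, T.psi_inr, T.psi_inr]
      apply Sm.ext'
      intro p
      rw [dv_mr, mr_apply, fd_snd (T.hb i n p.1.2 p.2.2)]
      simp

theorem Td.d1x (T : Td I J f a b) (S : Sf (I ×ˢ J) f E F G L) (i : Fin 3) :
    dv S.opn ((1 : ℝ), (0 : ℝ)) (emb f S.smooth i) = T.psi (gA i) := by
  unfold gA
  rw [T.psi_inl]
  apply Sm.ext'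
  intro p
  rw [dv_emb, mr_apply, T.f1 p.1 p.2]

theorem Td.d2x (T : Td I J f a b) (S : Sf (I ×ˢ J) f E F G L) (i : Fin 3) :
    dv S.opn ((0 : ℝ), (1 : ℝ)) (emb f S.smooth i) = T.psi (gB i) := by
  unfold gB
  rw [T.psi_inr]
  apply Sm.ext'
  intro p
  rw [dv_emb, mr_apply, T.f2 p.1 p.2]

theorem Td.val_dot (a b : Fin 3 → ℕ → ℝ → ℝ) (s t : ℝ) (H K : Fin 3 → P) :
    MvPolynomial.aeval (pt (fun i n => a i n s) fun i n => b i n t) (dot H K) =
    dot (fun i => MvPolynomial.aeval (pt (fun i n => a i n s) fun i n => b i n t) (H i))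
      (fun i => MvPolynomial.aeval (pt (fun i n => a i n s) fun i n => b i n t) (K i)) :=
  map_dot (MvPolynomial.aeval (pt (fun i n => a i n s) fun i n => b i n t)).toRingHom H K

theorem ev_gA (a b : Fin 3 → ℕ → ℝ → ℝ) (s t : ℝ) (i : Fin 3) :
    MvPolynomial.aeval (pt (fun i n => a i n s) fun i n => b i n t) (gA i) = a i 0 s := by
  unfold gA
  rw [MvPolynomial.aeval_X]; rfl

theorem ev_gB (a b : Fin 3 → ℕ → ℝ → ℝ) (s t : ℝ) (i : Fin 3) :
    MvPolynomial.aeval (pt (fun i n => a i n s) fun i n => b i n t) (gB i) = b i 0 t := by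
  unfold gB
  rw [MvPolynomial.aeval_X]; rfl

/-- `D = 1 - ⟨a, b⟩²` as a real function -/
def Dr (a b : Fin 3 → ℕ → ℝ → ℝ) (s t : ℝ) : ℝ :=
  UU (fun i => a i 0 s) (fun i => b i 0 t) * VV (fun i => a i 0 s) (fun i => b i 0 t)

theorem ev_D (a b : Fin 3 → ℕ → ℝ → ℝ) (s t : ℝ) :
    MvPolynomial.aeval (pt (fun i n => a i n s) fun i n => b i n t) (UU gA gB * VV gA gB) = Dr a b s t := by
  rw [map_mul]
  have h1 := map_UU (MvPolynomial.aeval (pt (fun i n => a i n s) fun i n => b i n t)).toRingHom gA gB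
  have h2 := map_VV (MvPolynomial.aeval (pt (fun i n => a i n s) fun i n => b i n t)).toRingHom gA gB
  have h3 : (fun i => (MvPolynomial.aeval (pt (fun i n => a i n s) fun i n => b i n t)).toRingHom (gA i))
      = fun i => a i 0 s := funext fun i => ev_gA a b s t i
  have h4 : (fun i => (MvPolynomial.aeval (pt (fun i n => a i n s) fun i n => b i n t)).toRingHom (gB i))
      = fun i => b i 0 t := funext fun i => ev_gB a b s t i
  rw [h3, h4] at h1 h2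
  exact congrArg₂ (· * ·) h1 h2

theorem Td.E_one (T : Td I J f a b) (S : Sf (I ×ˢ J) f E F G L) {p : ℝ × ℝ} (hp : p ∈ I ×ˢ J) : E p = 1 := by
  rw [S.hE, Pool.Agent.Helper33.TT.inner3, T.f1 p hp, T.f1 p hp, T.f1 p hp]
  exact T.haa p.1 hp.1

theorem Td.G_one (T : Td I J f a b) (S : Sf (I ×ˢ J) f E F G L) {p : ℝ × ℝ} (hp : p ∈ I ×ˢ J) : G p = 1 := by
  rw [S.hG, Pool.Agent.Helper33.TT.inner3, T.f2 p hp, T.f2 p hp, T.f2 p hp]
  exact T.hbb p.2 hp.2

theorem Td.F_eq (T : Td I J f a b) (S : Sf (I ×ˢ J) f E F G L) {p : ℝ × ℝ} (hp : p ∈ I ×ˢ J) :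
    F p = dot (fun i => a i 0 p.1) (fun i => b i 0 p.2) := by
  rw [S.hF, Pool.Agent.Helper33.TT.inner3, T.f1 p hp, T.f1 p hp, T.f1 p hp, T.f2 p hp, T.f2 p hp, T.f2 p hp]
  rfl

theorem Td.W_eq (T : Td I J f a b) (S : Sf (I ×ˢ J) f E F G L) {p : ℝ × ℝ} (hp : p ∈ I ×ˢ J) :
    E p * G p - F p ^ 2 = Dr a b p.1 p.2 := by
  rw [T.E_one S hp, T.G_one S hp, T.F_eq S hp]
  unfold Dr UU VV
  ring

theorem Td.D_pos (T : Td I J f a b) (S : Sf (I ×ˢ J) f E F G L) {s t : ℝ} (hs : s ∈ I) (ht : t ∈ J) :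
    0 < Dr a b s t := by
  have h := S.det_pos (p := (s, t)) ⟨hs, ht⟩
  rwa [T.W_eq S (p := (s, t)) ⟨hs, ht⟩] at h

theorem val_mul {U : Set (ℝ × ℝ)} (x y : Sm U) (p : U) : (x * y : Sm U).1 p = x.1 p * y.1 p := rfl

theorem val_pow {U : Set (ℝ × ℝ)} (x : Sm U) (n : ℕ) (p : U) : (x ^ n : Sm U).1 p = x.1 p ^ n := by
  induction n with
  | zero => rw [pow_zero, pow_zero]; rfl
  | succ n ih => rw [pow_succ, pow_succ, val_mul, ih]

theorem val_int {U : Set (ℝ × ℝ)} (m : ℤ) (p : U) : (m : Sm U).1 p = m := rfl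

/-- the surface in the ring -/
theorem Td.trs (T : Td I J f a b) (S : Sf (I ×ˢ J) f E F G L) :
    Trs (dv S.opn ((1 : ℝ), (0 : ℝ))) (dv S.opn ((0 : ℝ), (1 : ℝ))) (emb f S.smooth) (mr _ (sm_Wi S)) where
  comm := dv_comm S.opn _ _
  h12 i := by
    rw [T.d1x S, ← T.psi_PT]
    unfold gA
    rw [PT_inl, map_zero]
  h11 := by
    have h : dp (dD (dv S.opn ((1 : ℝ), (0 : ℝ))) (emb f S.smooth)) (dD (dv S.opn ((1 : ℝ), (0 : ℝ))) (emb f S.smooth))
      = T.psi (dot gA gA) := by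
      rw [map_dot]
      unfold dp dD dot
      rw [T.d1x S, T.d1x S, T.d1x S]
    rw [h]
    apply Sm.ext'
    intro p
    rw [T.psi_val, Td.val_dot]
    simp only [ev_gA]
    rw [T.haa _ p.2.1]
    simp
  h22 := by
    have h : dp (dD (dv S.opn ((0 : ℝ), (1 : ℝ))) (emb f S.smooth)) (dD (dv S.opn ((0 : ℝ), (1 : ℝ))) (emb f S.smooth))
      = T.psi (dot gB gB) := by
      rw [map_dot]
      unfold dp dD dot
      rw [T.d2x S, T.d2x S, T.d2x S]
    rw [h]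
    apply Sm.ext'
    intro p
    rw [T.psi_val, Td.val_dot]
    simp only [ev_gB]
    rw [T.hbb _ p.2.2]
    simp
  hq := by
    have e1 : dD (dv S.opn ((1 : ℝ), (0 : ℝ))) (emb f S.smooth) = fun i => T.psi (gA i) :=
      funext fun i => T.d1x S i
    have e2 : dD (dv S.opn ((0 : ℝ), (1 : ℝ))) (emb f S.smooth) = fun i => T.psi (gB i) :=
      funext fun i => T.d2x S i
    rw [e1, e2, ← map_UU, ← map_VV, ← T.psi.map_mul]
    apply Sm.ext'
    intro p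
    have h0 : (Real.sqrt (Dr a b p.1.1 p.1.2))⁻¹ ^ 2 * Dr a b p.1.1 p.1.2 = 1 := by
      rw [inv_pow, Real.sq_sqrt (T.D_pos S p.2.1 p.2.2).le, inv_mul_cancel₀ (T.D_pos S p.2.1 p.2.2).ne']
    have h1 := congrArg (fun r : ℝ => (r : ℂ)) h0
    rw [val_mul, val_pow, T.psi_val, ev_D, mr_apply, T.W_eq S p.2]
    have h2 : (1 : Sm (I ×ˢ J)).1 p = ((1 : ℝ) : ℂ) := by
      rw [Complex.ofReal_one]; rfl
    rw [h2]
    rw [← h1]
    push_cast
    rfl

/-- the iterated Laplacians -/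
noncomputable def iter (L : (ℝ × ℝ → E3) → ℝ × ℝ → E3) (f : ℝ × ℝ → E3) : ℕ → ℝ × ℝ → E3
  | 0 => f
  | n + 1 => L (iter L f n)

theorem iter_smooth (S : Sf (I ×ˢ J) f E F G L) (n : ℕ) : CD (iter L f n) (I ×ˢ J) := by
  induction n with
  | zero => exact S.smooth
  | succ n ih => exact lap_smooth S ih

theorem lapC_int {d1 d2 : Derivation ℚ (Sm (I ×ˢ J)) (Sm (I ×ˢ J))} {x : Fin 3 → Sm (I ×ˢ J)} {q : Sm (I ×ˢ J)}
    (m : ℤ) (g : Sm (I ×ˢ J)) : lapC d1 d2 x q (m * g) = m * lapC d1 d2 x q g := by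
  have h1 : d1 (m : Sm (I ×ˢ J)) = 0 := d1.map_intCast m
  have h2 : d2 (m : Sm (I ×ˢ J)) = 0 := d2.map_intCast m
  unfold lapC
  have e1 : q * (dp (dD d2 x) (dD d2 x) * d1 (m * g) - dp (dD d1 x) (dD d2 x) * d2 (m * g)) =
      m * (q * (dp (dD d2 x) (dD d2 x) * d1 g - dp (dD d1 x) (dD d2 x) * d2 g)) := by
    rw [leq, leq, h1, h2]; ring
  have e2 : q * (dp (dD d1 x) (dD d1 x) * d2 (m * g) - dp (dD d1 x) (dD d2 x) * d1 (m * g)) =
      m * (q * (dp (dD d1 x) (dD d1 x) * d2 g - dp (dD d1 x) (dD d2 x) * d1 g)) := by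
    rw [leq, leq, h1, h2]; ring
  rw [e1, e2, leq d1, leq d2, h1, h2]
  ring

theorem Td.iter_eq (T : Td I J f a b) (S : Sf (I ×ˢ J) f E F G L) (n : ℕ) (i : Fin 3) :
    (((-2) ^ (n + 1) : ℤ) : Sm (I ×ˢ J)) * emb (iter L f (n + 1)) (iter_smooth S (n + 1)) i =
      (mr _ (sm_Wi S)) ^ (2 * (3 * n + 2)) * T.psi (QQ PU PW gA gB n i) := by
  have hTrs := T.trs S
  have hPU : ∀ H, T.psi (PU H) = (fun g => dv S.opn ((1 : ℝ), (0 : ℝ)) g - dv S.opn ((0 : ℝ), (1 : ℝ)) g) (T.psi H) := by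
    intro H
    rw [PU_apply, map_sub, T.psi_PS S.opn, T.psi_PT S.opn]
  have hPW : ∀ H, T.psi (PW H) = (fun g => dv S.opn ((1 : ℝ), (0 : ℝ)) g + dv S.opn ((0 : ℝ), (1 : ℝ)) g) (T.psi H) := by
    intro H
    rw [PW_apply, map_add, T.psi_PS S.opn, T.psi_PT S.opn]
  have e1 : dD (dv S.opn ((1 : ℝ), (0 : ℝ))) (emb f S.smooth) = fun i => T.psi (gA i) := funext fun i => T.d1x S i
  have e2 : dD (dv S.opn ((0 : ℝ), (1 : ℝ))) (emb f S.smooth) = fun i => T.psi (gB i) := funext fun i => T.d2x S i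
  induction n with
  | zero =>
    have h1 := hTrs.lap_zero i
    have h2 := lap_ring S S.smooth i
    have h3 : emb (iter L f (0 + 1)) (iter_smooth S (0 + 1)) i = emb (L f) (lap_smooth S S.smooth) i := rfl
    rw [h3, map_QQ T.psi PU PW (fun g => dv S.opn ((1 : ℝ), (0 : ℝ)) g - dv S.opn ((0 : ℝ), (1 : ℝ)) g)
      (fun g => dv S.opn ((1 : ℝ), (0 : ℝ)) g + dv S.opn ((0 : ℝ), (1 : ℝ)) g) hPU hPW]
    rw [h2, e1, e2] at h1
    rw [show (2 * (3 * 0 + 2)) = 2 * 2 by norm_num, ← h1]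
    push_cast
    ring
  | succ n ih =>
    have h2 := lap_ring S (iter_smooth S (n + 1)) i
    have h3 : emb (iter L f (n + 1 + 1)) (iter_smooth S (n + 1 + 1)) i
      = emb (L (iter L f (n + 1))) (lap_smooth S (iter_smooth S (n + 1))) i := rfl
    have h4 := hTrs.lap_succ (3 * n + 2) (T.psi (QQ PU PW gA gB n i))
    rw [← ih, lapC_int, h2, e1, e2] at h4
    rw [h3, QQ_succ, map_NN T.psi PU PW (fun g => dv S.opn ((1 : ℝ), (0 : ℝ)) g - dv S.opn ((0 : ℝ), (1 : ℝ)) g)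
      (fun g => dv S.opn ((1 : ℝ), (0 : ℝ)) g + dv S.opn ((0 : ℝ), (1 : ℝ)) g) hPU hPW, map_UU, map_VV]
    rw [show (2 * (3 * (n + 1) + 2)) = 2 * (3 * n + 2 + 3) by ring]
    have h5 : ((3 * n + 2 : ℕ) : ℤ) = 3 * (n : ℤ) + 2 := by push_cast; ring
    rw [← h5, ← h4]
    push_cast
    ring

/-- the iterated Laplacians of a translation surface -/
theorem Td.iter_val (T : Td I J f a b) (S : Sf (I ×ˢ J) f E F G L) (n : ℕ) (i : Fin 3) {s t : ℝ} (hs : s ∈ I)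
    (ht : t ∈ J) : (-2) ^ (n + 1) * iter L f (n + 1) (s, t) i = (Dr a b s t)⁻¹ ^ (3 * n + 2) *
      MvPolynomial.aeval (pt (fun i n => a i n s) fun i n => b i n t) (QQ PU PW gA gB n i) := by
  have h := congrArg (fun g : Sm (I ×ˢ J) => g.1 ⟨(s, t), hs, ht⟩) (T.iter_eq S n i)
  rw [val_mul, val_mul, val_pow, val_int, T.psi_val, emb_apply, mr_apply,
    T.W_eq S (p := (s, t)) ⟨hs, ht⟩] at h
  have h4 : (((-2) ^ (n + 1) * iter L f (n + 1) (s, t) i : ℝ) : ℂ) =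
      (((Real.sqrt (Dr a b s t))⁻¹ ^ (2 * (3 * n + 2)) *
        MvPolynomial.aeval (pt (fun i n => a i n s) fun i n => b i n t) (QQ PU PW gA gB n i) : ℝ) : ℂ) := by
    rw [Complex.ofReal_mul, Complex.ofReal_mul, Complex.ofReal_pow (Real.sqrt (Dr a b s t))⁻¹]
    rw [← h]
    push_cast
    ring
  have h5 := Complex.ofReal_injective h4
  rw [h5, pow_mul, inv_pow, Real.sq_sqrt (T.D_pos S hs ht).le]

/-- **the relation of finite type** -/
theorem Td.rel (T : Td I J f a b) (S : Sf (I ×ˢ J) f E F G L)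
    (hft : ∃ (k : ℕ) (x : Fin k → ℝ × ℝ → EuclideanSpace ℝ (Fin 3)) (lam : Fin k → ℝ),
      (∀ i, ContDiffOn ℝ ((⊤ : ℕ∞) : WithTop ℕ∞) (x i) (I ×ˢ J)) ∧
      (∀ p ∈ I ×ˢ J, f p = ∑ i, x i p) ∧
      (∀ i, ∀ p ∈ I ×ˢ J, L (x i) p = lam i • x i p)) :
    (∀ p ∈ I ×ˢ J, L f p = 0) ∨ ∃ (k : ℕ) (c : ℕ → ℝ), ∀ i, ∀ s ∈ I, ∀ t ∈ J,
      MvPolynomial.aeval (pt (fun i n => a i n s) fun i n => b i n t) (Rel k c i) = 0 := by
  rcases fin_rec S hft with h | ⟨k, c0, h⟩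
  · exact Or.inl h
  · right
    have h1 := h (iter L f) (fun p _ => rfl) (fun n p _ => rfl)
    refine ⟨k, fun j => if hj : j < k + 1 then c0 ⟨j, hj⟩ * (-2) ^ (k + 1 - j) else 0, fun i s hs t ht => ?_⟩
    have h2 := congrArg (fun v : E3 => v i) (h1 (s, t) ⟨hs, ht⟩)
    have hD := (T.D_pos S hs ht).ne'
    have h3 : (∑ j : Fin (k + 1), c0 j • iter L f (j.1 + 1) (s, t)) i
        = ∑ j : Fin (k + 1), c0 j * iter L f (j.1 + 1) (s, t) i := by
      rw [WithLp.ofLp_sum, Finset.sum_apply]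
      rfl
    simp only [h3] at h2
    have h4 := T.iter_val S (k + 1) i hs ht
    rw [h2] at h4
    unfold Rel
    rw [map_sub, map_sum, sub_eq_zero]
    have h5 : MvPolynomial.aeval (pt (fun i n => a i n s) fun i n => b i n t) (QQ PU PW gA gB (k + 1) i) =
        (Dr a b s t) ^ (3 * (k + 1) + 2) * ((-2) ^ (k + 1 + 1) *
          ∑ j : Fin (k + 1), c0 j * iter L f (j.1 + 1) (s, t) i) := by
      rw [h4, ← mul_assoc, ← mul_pow, mul_inv_cancel₀ hD, one_pow, one_mul]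
    rw [h5, Finset.sum_range, Finset.mul_sum, Finset.mul_sum]
    refine Finset.sum_congr rfl fun j _ => ?_
    have hj : j.1 < k + 1 := j.2
    rw [map_smul, map_mul, map_pow, ev_D, smul_eq_mul]
    dsimp only
    rw [dif_pos hj]
    have h6 := T.iter_val S j.1 i hs ht
    have h7 : MvPolynomial.aeval (pt (fun i n => a i n s) fun i n => b i n t) (QQ PU PW gA gB j.1 i) =
        (Dr a b s t) ^ (3 * j.1 + 2) * ((-2) ^ (j.1 + 1) * iter L f (j.1 + 1) (s, t) i) := by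
      rw [h6, ← mul_assoc, ← mul_pow, mul_inv_cancel₀ hD, one_pow, one_mul]
    rw [h7]
    have e1 : 3 * (k + 1) + 2 = 3 * (k + 1 - j.1) + (3 * j.1 + 2) := by omega
    have e2 : k + 1 + 1 = (k + 1 - j.1) + (j.1 + 1) := by omega
    rw [e1, e2, pow_add, pow_add]
    ring

/-- the Laplacian of the surface -/
theorem Td.lap_val (T : Td I J f a b) (S : Sf (I ×ˢ J) f E F G L) (i : Fin 3) {s t : ℝ} (hs : s ∈ I)
    (ht : t ∈ J) : -2 * L f (s, t) i = (Dr a b s t)⁻¹ ^ 2 *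
      MvPolynomial.aeval (pt (fun i n => a i n s) fun i n => b i n t) (QQ PU PW gA gB 0 i) := by
  have h := T.iter_val S 0 i hs ht
  have e : iter L f (0 + 1) = L f := rfl
  rw [e] at h
  simpa using h

end

end Pool.Agent.Helper33.TS
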