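import Pool.Agent.Helper33.TS.Alg

/-!
# Symmetries of the numerators: exchange of the two curves, reversal of the second curve
-/

set_option autoImplicit false

namespace Pool.Agent.Helper33.TS

section

variable {R : Type*} [CommRing R]

theorem dot_comm (a b : Fin 3 → R) : dot a b = dot b a := by
  unfold dot; ring

theorem UU_comm (a b : Fin 3 → R) : UU a b = UU b a := by unfold UU; rw [dot_comm]

theorem VV_comm (a b : Fin 3 → R) : VV a b = VV b a := by unfold VV; rw [dot_comm]

theorem dot_neg' (a b : Fin 3 → R) : dot a (fun i => - b i) = - dot a b := by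
  unfold dot; ring

theorem UU_neg (a b : Fin 3 → R) : UU a (fun i => - b i) = VV a b := by
  unfold UU VV; rw [dot_neg']; ring

theorem VV_neg (a b : Fin 3 → R) : VV a (fun i => - b i) = UU a b := by
  unfold UU VV; rw [dot_neg']; ring

/-- exchange of the two curves -/
theorem QQ_swap (ds dt : R → R) (hneg : ∀ x, ds (-x) = - ds x) (a b : Fin 3 → R) (n : ℕ) (i : Fin 3) :
    QQ (fun x => - ds x) dt b a n i = QQ ds dt a b n i := by
  induction n with
  | zero =>
    rw [QQ_zero, QQ_zero, UU_comm b a, VV_comm b a]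
    have h : ds (b i - a i) = - ds (a i - b i) := by rw [← hneg]; congr 1; ring
    rw [h]
    ring
  | succ n ih =>
    rw [QQ_succ, QQ_succ, ih, UU_comm b a, VV_comm b a]
    unfold NN
    have h1 : ∀ x, (fun x => - ds x) x = - ds x := fun _ => rfl
    simp only [hneg]
    ring

theorem NN_rev (ds dt : R → R) (U V : R) (h1 : ds V = - ds U) (h2 : dt V = - dt U) (e : ℤ) (X : R) :
    NN dt ds V U e X = NN ds dt U V e X := by
  unfold NN
  rw [mul_comm V U, h1, h2]
  ring

end

section

variable {R : Type*} [CommRing R] [Algebra ℝ R]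

/-- reversal of the second curve -/
theorem QQ_rev (ds dt : Derivation ℝ R R) {a b : Fin 3 → R} (ha : ∀ i, dt (a i) = ds (a i))
    (hb : ∀ i, dt (b i) = - ds (b i)) (n : ℕ) (i : Fin 3) :
    QQ dt ds a (fun i => - b i) n i = QQ ds dt a b n i := by
  have h1 : ds (VV a b) = - ds (UU a b) := by
    unfold VV UU
    rw [map_sub, map_add, Derivation.map_one_eq_zero]; ring
  have h2 : dt (VV a b) = - dt (UU a b) := by
    unfold VV UU
    rw [map_sub, map_add, Derivation.map_one_eq_zero]; ring
  induction n with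
  | zero =>
    rw [QQ_zero, QQ_zero, UU_neg, VV_neg, h1, h2, sub_neg_eq_add, map_add, map_sub, ha, hb]
    ring
  | succ n ih =>
    rw [QQ_succ, QQ_succ, ih, UU_neg, VV_neg]
    exact NN_rev ds dt _ _ h1 h2 _ _

/-- `QQ 0` and the determinant -/
theorem QQ_mm (ds dt : Derivation ℝ R R) (a b : Fin 3 → R) :
    QQ ds dt a b 0 0 * (a 1 * b 2 - a 2 * b 1) + QQ ds dt a b 0 1 * (a 2 * b 0 - a 0 * b 2)
      + QQ ds dt a b 0 2 * (a 0 * b 1 - a 1 * b 0) = 2 * (UU a b * VV a b) * mm ds a b := by
  rw [QQ_zero, QQ_zero, QQ_zero]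
  unfold mm
  ring

end

end Pool.Agent.Helper33.TS
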