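import Pool.Agent.Helper33.TS.Prep
import Pool.Agent.Helper33.TS.Rev
import Pool.Agent.Helper99.TR.CoreB
import Pool.Agent.Helper99.TR.CylF

/-!
# Translation surfaces of finite type are minimal or circular cylinders
-/

set_option autoImplicit false

namespace Pool.Agent.Helper33.TS

open Pool.Agent.Helper33.TT (E3)
open Pool.Agent.Helper44.FT (Sf)
open Pool.Agent.Helper99.TR3
open MvPolynomial
open Set Filter Topology

section

variable {I J : Set ℝ} {a b : Fin 3 → ℕ → ℝ → ℝ}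

theorem sum3 {R : Type*} [CommRing R] (c x : Fin 3 → R) : ∑ i, c i * x i = dot c x := by
  unfold dot
  rw [Fin.sum_univ_three]

theorem dotc_deriv (ha : ∀ i n, ∀ s ∈ I, HasDerivAt (a i n) (a i (n + 1) s) s) (c : Fin 3 → ℂ) (n : ℕ) {s : ℝ}
    (hs : s ∈ I) : HasDerivAt (fun s => dot c (fun i => (a i n s : ℂ))) (dot c (fun i => (a i (n + 1) s : ℂ))) s := by
  have h := (((ha 0 n s hs).ofReal_comp.const_mul (c 0)).add ((ha 1 n s hs).ofReal_comp.const_mul (c 1))).add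
    ((ha 2 n s hs).ofReal_comp.const_mul (c 2))
  exact h

/-- a complex plane which contains a curve contains its derivatives -/
theorem plane_deriv (hI : IsOpen I) (ha : ∀ i n, ∀ s ∈ I, HasDerivAt (a i n) (a i (n + 1) s) s) (c : Fin 3 → ℂ) (d : ℂ)
    (n : ℕ) (h : ∀ s ∈ I, dot c (fun i => (a i n s : ℂ)) = d) : ∀ s ∈ I, dot c (fun i => (a i (n + 1) s : ℂ)) = 0 := by
  intro s hs
  have h1 := dotc_deriv ha c n hs
  have h2 : HasDerivAt (fun s => dot c (fun i => (a i n s : ℂ))) 0 s := by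
    refine (hasDerivAt_const s d).congr_of_eventuallyEq ?_
    filter_upwards [hI.mem_nhds hs] with x hx
    exact h x hx
  exact h1.unique h2

theorem mr_real (a a1 b b1 : Fin 3 → ℝ) : ((mr a a1 b b1 : ℝ) : ℂ) =
    mr (fun i => (a i : ℂ)) (fun i => (a1 i : ℂ)) (fun i => (b i : ℂ)) (fun i => (b1 i : ℂ)) := by
  unfold mr
  push_cast
  ring

theorem not_countable_Ioo {p q : ℝ} (h : p < q) : ¬ (Ioo p q).Countable := by
  rw [← Cardinal.le_aleph0_iff_set_countable, Cardinal.mk_Ioo_real h, not_le]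
  exact Cardinal.aleph0_lt_continuum

/-- **the local claim**: the determinant vanishes where the two curves are curved -/
theorem local_zero (hI : IsOpen I) (hJ : IsOpen J) (ha : ∀ i n, ∀ s ∈ I, HasDerivAt (a i n) (a i (n + 1) s) s)
    (hb : ∀ i n, ∀ t ∈ J, HasDerivAt (b i n) (b i (n + 1) t) t)
    (haa : ∀ s ∈ I, dot (fun i => a i 0 s) (fun i => a i 0 s) = 1)
    (hbb : ∀ t ∈ J, dot (fun i => b i 0 t) (fun i => b i 0 t) = 1) (k : ℕ) (c : ℕ → ℝ)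
    (hrel : ∀ i, ∀ s ∈ I, ∀ t ∈ J, aeval (pt (fun i n => a i n s) fun i n => b i n t) (Rel k c i) = 0)
    {s1 t1 : ℝ} (hs1 : s1 ∈ I) (ht1 : t1 ∈ J) (h1 : ∃ i, a i 1 s1 ≠ 0) (h2 : ∃ i, b i 1 t1 ≠ 0) :
    mr (fun i => a i 0 s1) (fun i => a i 1 s1) (fun i => b i 0 t1) (fun i => b i 1 t1) = 0 := by
  by_contra hm
  obtain ⟨i1, hi1⟩ := h1
  obtain ⟨j1, hj1⟩ := h2
  -- a small rectangle
  obtain ⟨p, q, p2, q2, hpq, hpq2, hKI, hKJ, hK, hK2, hmK⟩ : ∃ p q p2 q2 : ℝ, p < q ∧ p2 < q2 ∧ Ioo p q ⊆ I ∧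
      Ioo p2 q2 ⊆ J ∧ (∀ s ∈ Ioo p q, a i1 1 s ≠ 0) ∧ (∀ t ∈ Ioo p2 q2, b j1 1 t ≠ 0) ∧
      ∀ s ∈ Ioo p q, ∀ t ∈ Ioo p2 q2,
        mr (fun i => a i 0 s) (fun i => a i 1 s) (fun i => b i 0 t) (fun i => b i 1 t) ≠ 0 := by
    have hca : ∀ i n, ContinuousAt (fun x : ℝ × ℝ => a i n x.1) (s1, t1) := fun i n =>
      ContinuousAt.comp (x := (s1, t1)) (f := Prod.fst) (g := a i n) (ha i n s1 hs1).continuousAt continuousAt_fst
    have hcb : ∀ i n, ContinuousAt (fun x : ℝ × ℝ => b i n x.2) (s1, t1) := fun i n =>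
      ContinuousAt.comp (x := (s1, t1)) (f := Prod.snd) (g := b i n) (hb i n t1 ht1).continuousAt continuousAt_snd
    have hcm : ContinuousAt (fun x : ℝ × ℝ =>
        mr (fun i => a i 0 x.1) (fun i => a i 1 x.1) (fun i => b i 0 x.2) (fun i => b i 1 x.2)) (s1, t1) := by
      unfold mr
      exact (((((hca 0 1).add (hcb 0 1)).mul (((hca 1 0).mul (hcb 2 0)).sub ((hca 2 0).mul (hcb 1 0)))).add
        (((hca 1 1).add (hcb 1 1)).mul (((hca 2 0).mul (hcb 0 0)).sub ((hca 0 0).mul (hcb 2 0))))).add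
        (((hca 2 1).add (hcb 2 1)).mul (((hca 0 0).mul (hcb 1 0)).sub ((hca 1 0).mul (hcb 0 0)))))
    have hev : ∀ᶠ x : ℝ × ℝ in 𝓝 s1 ×ˢ 𝓝 t1, (mr (fun i => a i 0 x.1) (fun i => a i 1 x.1) (fun i => b i 0 x.2)
        (fun i => b i 1 x.2) ≠ 0) := by
      rw [← nhds_prod_eq]
      exact hcm.eventually_ne hm
    obtain ⟨pa, hpa, pb, hpb, hab⟩ := Filter.eventually_prod_iff.1 hev
    have hev1 : ∀ᶠ s in 𝓝 s1, (pa s ∧ a i1 1 s ≠ 0) ∧ s ∈ I :=
      (hpa.and ((ha i1 1 s1 hs1).continuousAt.eventually_ne hi1)).and (hI.mem_nhds hs1)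
    have hev2 : ∀ᶠ t in 𝓝 t1, (pb t ∧ b j1 1 t ≠ 0) ∧ t ∈ J :=
      (hpb.and ((hb j1 1 t1 ht1).continuousAt.eventually_ne hj1)).and (hJ.mem_nhds ht1)
    obtain ⟨p, q, hpq, hs⟩ := mem_nhds_iff_exists_Ioo_subset.1 hev1
    obtain ⟨p2, q2, hpq2, ht⟩ := mem_nhds_iff_exists_Ioo_subset.1 hev2
    exact ⟨p, q, p2, q2, hpq.1.trans hpq.2, hpq2.1.trans hpq2.2, fun s h => (hs h).2, fun t h => (ht h).2,
      fun s h => (hs h).1.2, fun t h => (ht h).1.2, fun s h t h' => hab (hs h).1.1 (ht h').1.1⟩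
  -- generic subintervals
  obtain ⟨p', q', hpq', hsub, ha2, hai⟩ := select ha haa hpq hKI hK
  obtain ⟨p3, q3, hpq3, hsub3, hb2, hbi⟩ := select hb hbb hpq2 hKJ hK2
  obtain ⟨p4, q4, hpq4, hsub4, hw⟩ := wron (d := 6) (v := va a) isOpen_Ioo (nonempty_Ioo.2 hpq')
    fun j n s hs => va_deriv ha j n (hKI (hsub hs))
  have h4I : Ioo p4 q4 ⊆ I := fun s hs => hKI (hsub (hsub4 hs))
  have h3J : Ioo p3 q3 ⊆ J := fun t ht => hKJ (hsub3 ht)
  obtain ⟨s2, hs2⟩ : (Ioo p4 q4).Nonempty := nonempty_Ioo.2 hpq4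
  have ha1 : ∀ s ∈ Ioo p4 q4, ∃ i, a i 1 s ≠ 0 := fun s hs => ⟨i1, hK s (hsub (hsub4 hs))⟩
  -- the first isotropic family
  obtain ⟨c1, d1, hc1, hK1, J', hJ'sub, hJ'c, hJ'⟩ := coreB hpq4 isOpen_Ioo (Subset.refl (Ioo p3 q3))
    (not_countable_Ioo hpq3) (fun i n s hs => ha i n s (h4I hs)) (fun i n t ht => hb i n t (h3J ht))
    (fun s hs => haa s (h4I hs)) (fun t ht => hbb t (h3J ht)) ha1 (fun s hs => ha2 s (hsub4 hs)) hb2
    (hai.mono hsub4) hbi hw k c (fun i s hs t ht => hrel i s (h4I hs) t (h3J ht)) hs2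
    (fun t ht => hmK s2 (hsub (hsub4 hs2)) t (hsub3 ht))
  -- the second isotropic family
  obtain ⟨c2, d2, hc2, hK2', J2, hJ2sub, hJ2c, hJ2⟩ := coreB (J1 := Neg.neg ⁻¹' Ioo p3 q3) (J0 := Neg.neg ⁻¹' J')
    (b := rv b) hpq4 (isOpen_Ioo.preimage continuous_neg) (preimage_mono hJ'sub)
    (fun h => hJ'c (by
      have h5 := h.image Neg.neg
      rwa [image_preimage_eq J' neg_surjective] at h5))
    (fun i n s hs => ha i n s (h4I hs)) (fun i n t ht => rv_deriv hb i n (h3J ht))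
    (fun s hs => haa s (h4I hs))
    (fun t ht => by
      have h5 := hbb (-t) (h3J ht)
      simp only [rv_zero]
      unfold dot at h5 ⊢
      linear_combination h5) ha1 (fun s hs => ha2 s (hsub4 hs))
    (fun t ht => by
      rw [rv_zero, neg_sq]
      exact hb2 (-t) ht)
    (hai.mono hsub4)
    (fun x hx y hy hxy => by
      have h5 : (fun i => b i 0 (-x)) = fun i => b i 0 (-y) := by
        funext i
        have h6 := congrFun hxy i
        simp only [rv_zero, neg_inj] at h6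
        exact h6
      exact neg_inj.1 (hbi hx hy h5)) hw k c
    (fun i s hs t ht => rv_rel k c i (hrel i s (h4I hs) (-t) (h3J ht))) hs2
    (fun t ht => by
      rw [rv_mr]
      exact neg_ne_zero.2 (hmK s2 (hsub (hsub4 hs2)) (-t) (hsub3 ht)))
  simp only [sum3] at hK1 hJ' hK2' hJ2
  -- the two planes are parallel
  have hKo : IsOpen (Ioo p4 q4) := isOpen_Ioo
  have ha4 : ∀ i n, ∀ s ∈ Ioo p4 q4, HasDerivAt (a i n) (a i (n + 1) s) s := fun i n s hs => ha i n s (h4I hs)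
  have haa4 : ∀ s ∈ Ioo p4 q4, dot (fun i => a i 0 s) (fun i => a i 0 s) = 1 := fun s hs => haa s (h4I hs)
  have e11 := plane_deriv hKo ha4 c1 d1 0 hK1
  have e12 := plane_deriv hKo ha4 c1 0 1 e11
  have e21 := plane_deriv hKo ha4 c2 d2 0 hK2'
  have e22 := plane_deriv hKo ha4 c2 0 1 e21
  obtain ⟨μ, hμ⟩ := prop_of_orth (a := fun i => a i 0 s2) (a1 := fun i => a i 1 s2) (a2 := fun i => a i 2 s2)
    (c := c1) (c' := c2) (unit1 hKo ha4 haa4 hs2) (unit2 hKo ha4 haa4 hs2) (ha1 s2 hs2) hc1 (e11 s2 hs2) (e12 s2 hs2)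
    (e21 s2 hs2) (e22 s2 hs2)
  have hμ' : c2 = fun i => μ * c1 i := funext hμ
  have hdot : ∀ x : Fin 3 → ℂ, dot c2 x = μ * dot c1 x := by
    intro x
    rw [hμ']
    unfold dot
    ring
  have hμ0 : μ ≠ 0 := by
    rintro rfl
    obtain ⟨i, hi⟩ := hc2
    apply hi
    rw [hμ i, zero_mul]
  have hd : d1 = 0 := by
    obtain ⟨t, ht⟩ : J2.Nonempty := by
      rw [nonempty_iff_ne_empty]
      rintro rfl
      exact hJ2c countable_empty
    have f1 := hJ' (-t) (hJ2sub ht)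
    have f2 := hJ2 t ht
    have f3 := hK1 s2 hs2
    have f4 := hK2' s2 hs2
    rw [hdot] at f2 f4
    have f5 : dot c1 (fun i => ((rv b i 0 t : ℝ) : ℂ)) = - d1 := by
      rw [← f1]
      simp only [rv_zero]
      unfold dot
      push_cast
      ring
    rw [f5] at f2
    rw [f3] at f4
    have f6 : 2 * μ * d1 = 0 := by linear_combination f4 - f2
    exact (mul_eq_zero.1 f6).resolve_left (mul_ne_zero two_ne_zero hμ0)
  -- an accumulation point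
  obtain ⟨t, ht, ht'⟩ := acc_point (J := Ioo p3 q3) (g := fun t => dot c1 (fun i => (b i 0 t : ℂ)))
    (g' := fun t => dot c1 (fun i => (b i 1 t : ℂ))) hJ'sub hJ'c
    (fun t ht => dotc_deriv (I := J) hb c1 0 (h3J ht)) (fun t ht => by rw [hJ' t ht, hd])
  apply hmK s2 (hsub (hsub4 hs2)) t (hsub3 (hJ'sub ht))
  have g1 := hJ' t ht
  have g2 := hK1 s2 hs2
  rw [hd] at g1 g2
  have g3 := mr_zero (fun i => (a i 0 s2 : ℂ)) (fun i => (a i 1 s2 : ℂ)) (fun i => (b i 0 t : ℂ))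
    (fun i => (b i 1 t : ℂ)) c1 hc1 g2 g1 (e11 s2 hs2) ht'
  rw [← mr_real] at g3
  exact_mod_cast g3

/-- the determinant vanishes identically -/
theorem mr_all (hI : IsOpen I) (hJ : IsOpen J) (hIc : IsPreconnected I) (hJc : IsPreconnected J)
    (ha : ∀ i n, ∀ s ∈ I, HasDerivAt (a i n) (a i (n + 1) s) s)
    (hb : ∀ i n, ∀ t ∈ J, HasDerivAt (b i n) (b i (n + 1) t) t)
    (haa : ∀ s ∈ I, dot (fun i => a i 0 s) (fun i => a i 0 s) = 1)
    (hbb : ∀ t ∈ J, dot (fun i => b i 0 t) (fun i => b i 0 t) = 1) (k : ℕ) (c : ℕ → ℝ)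
    (hrel : ∀ i, ∀ s ∈ I, ∀ t ∈ J, aeval (pt (fun i n => a i n s) fun i n => b i n t) (Rel k c i) = 0)
    (h1 : ∃ s ∈ I, ∃ i, a i 1 s ≠ 0) (h2 : ∃ t ∈ J, ∃ i, b i 1 t ≠ 0) : ∀ s ∈ I, ∀ t ∈ J,
    mr (fun i => a i 0 s) (fun i => a i 1 s) (fun i => b i 0 t) (fun i => b i 1 t) = 0 := by
  have hA : ∀ t ∈ J, (∃ i, b i 1 t ≠ 0) → ∀ s ∈ I,
      mr (fun i => a i 0 s) (fun i => a i 1 s) (fun i => b i 0 t) (fun i => b i 1 t) = 0 := by
    intro t ht hi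
    exact propagate hI hIc ha _ _ (fun s hs hs' => local_zero hI hJ ha hb haa hbb k c hrel hs ht hs' hi) h1
  intro s hs t ht
  rw [mr_swap, neg_eq_zero]
  exact propagate hJ hJc hb _ _ (fun t ht hi => by
    rw [mr_swap, neg_eq_zero]
    exact hA t ht hi s hs) h2 t ht

end

section

variable {I J : Set ℝ} {f : ℝ × ℝ → E3} {a b : Fin 3 → ℕ → ℝ → ℝ} {E F G : ℝ × ℝ → ℝ}
  {L : (ℝ × ℝ → E3) → ℝ × ℝ → E3}

/-- **translation surfaces of finite type are minimal or circular cylinders** -/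
theorem translation (T : Td I J f a b) (S : Sf (I ×ˢ J) f E F G L) (hIc : IsPreconnected I) (hJc : IsPreconnected J)
    (hft : ∃ (k : ℕ) (x : Fin k → ℝ × ℝ → EuclideanSpace ℝ (Fin 3)) (lam : Fin k → ℝ),
      (∀ i, ContDiffOn ℝ ((⊤ : ℕ∞) : WithTop ℕ∞) (x i) (I ×ˢ J)) ∧
      (∀ p ∈ I ×ˢ J, f p = ∑ i, x i p) ∧
      (∀ i, ∀ p ∈ I ×ˢ J, L (x i) p = lam i • x i p)) :
    (∀ p ∈ I ×ˢ J, L f p = 0) ∨ ∃ (c u : E3) (rho : ℝ), ‖u‖ = 1 ∧ 0 < rho ∧
      ∀ p ∈ I ×ˢ J, ‖(f p - c) - inner ℝ (f p - c) u • u‖ = rho := by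
  by_cases h1 : ∃ s ∈ I, ∃ i, a i 1 s ≠ 0
  · by_cases h2 : ∃ t ∈ J, ∃ i, b i 1 t ≠ 0
    · rcases T.rel S hft with h | ⟨k, c, hrel⟩
      · exact Or.inl h
      left
      rintro ⟨s, t⟩ ⟨hs, ht⟩
      apply L_zero T S hs ht
      exact mr_all T.hI T.hJ hIc hJc T.ha T.hb T.haa T.hbb k c hrel h1 h2 s hs t ht
    · refine cyl T S hIc hJc hft (Or.inl fun i t ht => ?_)
      by_contra h
      exact h2 ⟨t, ht, i, h⟩
  · refine cyl T S hIc hJc hft (Or.inr fun i s hs => ?_)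
    by_contra h
    exact h1 ⟨s, hs, i, h⟩

end

end Pool.Agent.Helper33.TS
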