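import Pool.Agent.Helper33.TS.Alg
import Pool.Agent.Helper99.TR.Fps

/-!
# The tangential case in the ring of formal series

`B2 = ℂ⟦σ⟧⟦τ⟧` (outer variable `τ`, derivation `dS`; inner variable `σ`, derivation `dT`), `c0`, `c1` the coefficients of `1` and
`τ`. Here `c0 U = 0`, `c1 U = u0 ≠ 0`, `U_σ = U ω`.
-/

set_option autoImplicit false

namespace Pool.Agent.Helper33.TS

open Pool.Agent.Helper99.TR

/-- formal series in `σ` -/
abbrev A1 : Type := PowerSeries ℂ

/-- the coefficient of `τ ^ 0` -/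
noncomputable def c0 : B2 →+* A1 := PowerSeries.constantCoeff

/-- the coefficient of `τ` -/
noncomputable def c1 (f : B2) : A1 := PowerSeries.coeff 1 f

/-- the derivative in `σ` -/
noncomputable def dA (f : A1) : A1 := PowerSeries.derivative ℂ f

theorem dA_add (f g : A1) : dA (f + g) = dA f + dA g := map_add _ f g

theorem dA_mul (f g : A1) : dA (f * g) = f * dA g + g * dA f := by
  have := (PowerSeries.derivative ℂ).leibniz f g
  rw [smul_eq_mul, smul_eq_mul] at this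
  exact this

theorem dA_zero : dA 0 = 0 := map_zero _

theorem dA_intCast (n : ℤ) : dA (n : A1) = 0 := by
  exact (PowerSeries.derivative ℂ).map_intCast n

theorem dA_coeff (f : A1) (n : ℕ) : PowerSeries.coeff n (dA f) = PowerSeries.coeff (n + 1) f * (n + 1) :=
  PowerSeries.coeff_derivative f n

theorem c0_eq (f : B2) : c0 f = PowerSeries.coeff 0 f := by
  rw [PowerSeries.coeff_zero_eq_constantCoeff]; rfl

theorem c0_dS (f : B2) : c0 (dS f) = c1 f := by
  rw [c0_eq, c1]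
  ext n
  rw [dS_coeff]
  simp

theorem c0_dT (f : B2) : c0 (dT f) = dA (c0 f) := by
  rw [c0_eq, c0_eq]
  ext n
  rw [dT_coeff, dA_coeff]

theorem c1_dT (f : B2) : c1 (dT f) = dA (c1 f) := by
  rw [c1, c1]
  ext n
  rw [dT_coeff, dA_coeff]

theorem c1_mul (f g : B2) : c1 (f * g) = c0 f * c1 g + c1 f * c0 g := by
  rw [← c0_dS, lei, map_add, map_mul, map_mul, c0_dS, c0_dS]
  ring

theorem c1_add (f g : B2) : c1 (f + g) = c1 f + c1 g := map_add _ f g

theorem c1_sub (f g : B2) : c1 (f - g) = c1 f - c1 g := map_sub _ f g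

theorem c1_neg (f : B2) : c1 (-f) = - c1 f := map_neg _ f

theorem c1_intCast (n : ℤ) : c1 (n : B2) = 0 := by
  have h : dS (n : B2) = 0 := by
    have := dS.map_intCast n
    exact this
  rw [← c0_dS, h, map_zero]

section NPcoef

variable {U V v ω : B2}

theorem c0_V (hUV : U + V = 2) (h0 : c0 U = 0) : c0 V = 2 := by
  have h := congrArg c0 hUV
  rw [map_add, h0, zero_add, map_ofNat] at h
  exact h

theorem c1_D (hUV : U + V = 2) (h0 : c0 U = 0) : c1 (U * V) = 2 * c1 U := by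
  rw [c1_mul, h0, c0_V hUV h0]
  ring

theorem c0_D (h0 : c0 U = 0) : c0 (U * V) = 0 := by rw [map_mul, h0, zero_mul]

theorem c0_NP (hUV : U + V = 2) (hv : v * V = 1) (h0 : c0 U = 0) (e : ℤ) (X : B2) :
    c0 (NP dT dS U V v ω e X) = (e : A1) * (2 * e + 1) * (c1 U) ^ 2 * c0 X := by
  have hv0 : c0 v * 2 = 1 := by
    have h := congrArg c0 hv
    rwa [map_mul, map_one, c0_V hUV h0] at h
  have h1 : c0 (dS (U * V)) = 2 * c1 U := by rw [c0_dS, c1_D hUV h0]
  have h2 : c0 (dT (U * V)) = 0 := by rw [c0_dT, c0_D h0, dA_zero]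
  have h3 : c0 (dT (dT (U * V))) = 0 := by rw [c0_dT, h2, dA_zero]
  unfold NP
  simp only [map_add, map_sub, map_mul, map_neg, map_pow, map_intCast, map_ofNat, map_one, h0, h1, h2, h3,
    c0_V hUV h0, c0_dS U]
  linear_combination (2 * (e : A1) * (e + 1) * (c1 U) ^ 2 * c0 X - (e : A1) * (c1 U) ^ 2 * c0 X) * hv0

theorem c1_NP (hUV : U + V = 2) (hv : v * V = 1) (h0 : c0 U = 0) (e : ℤ) : ∃ g h : A1, ∀ X : B2,
    c1 (NP dT dS U V v ω e X) = (2 * e - 1) * (e - 1) * (c1 U) ^ 2 * c1 X + 4 * c1 U * dA (dA (c0 X))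
      + g * c0 X + h * dA (c0 X) := by
  have hv0 : c0 v * 2 = 1 := by
    have h := congrArg c0 hv
    rwa [map_mul, map_one, c0_V hUV h0] at h
  have h1 : c0 (dS (U * V)) = 2 * c1 U := by rw [c0_dS, c1_D hUV h0]
  have h2 : c0 (dT (U * V)) = 0 := by rw [c0_dT, c0_D h0, dA_zero]
  have h3 : c0 (dT (dT (U * V))) = 0 := by rw [c0_dT, h2, dA_zero]
  obtain ⟨α, hα⟩ : ∃ α : B2, α = U * (U * V) := ⟨_, rfl⟩
  obtain ⟨β, hβ⟩ : ∃ β : B2, β = U * dS U - 2 * e * U * dS (U * V) := ⟨_, rfl⟩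
  obtain ⟨δ, hδ⟩ : ∃ δ : B2, δ = V * (U * V) := ⟨_, rfl⟩
  obtain ⟨ε, hε⟩ : ∃ ε : B2, ε = - (2 * e * V * dT (U * V)) - ω * (U * V) := ⟨_, rfl⟩
  obtain ⟨γ, hγ⟩ : ∃ γ : B2, γ = v * (e * (e + 1)) * dS (U * V) ^ 2 - e * (v * dS U * dS (U * V))
        - e * U * dS (dS (U * V))
        - e * V * dT (dT (U * V)) + 4 * e * (e + 1) * (1 - U) ^ 2 * U * ω ^ 2 + e * ω * dT (U * V) := ⟨_, rfl⟩
  have a0 : c0 α = 0 := by rw [hα, c0.map_mul, h0, zero_mul]
  have a1 : c1 α = 0 := by rw [hα, c1_mul, h0, c0_D h0]; ring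
  have b0 : c0 β = 0 := by
    rw [hβ, map_sub, c0.map_mul, c0.map_mul _ (dS (U * V)), c0.map_mul _ U, h0]; ring
  have b1 : c1 β = (1 - 4 * e) * (c1 U) ^ 2 := by
    have e1 : (2 * e * U * dS (U * V) : B2) = U * (((2 * e : ℤ) : B2) * dS (U * V)) := by push_cast; ring
    rw [hβ, c1_sub, e1, c1_mul, c1_mul, h0, c0_dS, c0.map_mul, map_intCast, h1]
    push_cast
    ring
  have d0 : c0 δ = 0 := by rw [hδ, c0.map_mul, c0_D h0, mul_zero]
  have d1 : c1 δ = 4 * c1 U := by rw [hδ, c1_mul, c0_D h0, c0_V hUV h0, c1_D hUV h0]; ring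
  have ee0 : c0 ε = 0 := by
    rw [hε, map_sub, map_neg, c0.map_mul _ (dT (U * V)), h2, c0.map_mul ω, c0_D h0]; ring
  have g0 : c0 γ = (e : A1) * (2 * e + 1) * (c1 U) ^ 2 := by
    rw [hγ]
    simp only [map_add, map_sub, map_mul, map_pow, map_intCast, map_ofNat, map_one, h0, h1, h2, h3,
      c0_V hUV h0, c0_dS U]
    linear_combination (2 * (e : A1) * (e + 1) * (c1 U) ^ 2 - (e : A1) * (c1 U) ^ 2) * hv0
  refine ⟨c1 γ, c1 ε, fun X => ?_⟩
  have hN : NP dT dS U V v ω e X = α * dS (dS X) + β * dS X + δ * dT (dT X) + ε * dT X + γ * X := by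
    unfold NP
    rw [hα, hβ, hδ, hε, hγ]
  rw [hN, c1_add, c1_add, c1_add, c1_add, c1_mul α, c1_mul β, c1_mul δ, c1_mul ε, c1_mul γ, a0, a1, b0, b1, d0, d1,
    ee0, g0, c0_dS (dS X), c0_dS X, c0_dT (dT X), c0_dT X]
  ring

end NPcoef

/-- in three dimensional space, a vector orthogonal to an isotropic vector `p` and to a non isotropic vector `e ⊥ p` is isotropic
and proportional to `p` -/
theorem gram {A : Type*} [CommRing A] [IsDomain A] (p e w : Fin 3 → A) (hpp : dot p p = 0) (hpe : dot p e = 0)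
    (hee : dot e e ≠ 0) (hwp : dot w p = 0) (hwe : dot w e = 0) (hp : ∃ i, p i ≠ 0) :
    dot w w = 0 ∧ ∀ i j, w i * p j = w j * p i := by
  have d1 : ((p 0 * (w 1 * e 2 - w 2 * e 1) - p 1 * (w 0 * e 2 - w 2 * e 0) + p 2 * (w 0 * e 1 - w 1 * e 0)) ^ 2 : A)
      = dot p p * (dot w w * dot e e - dot w e ^ 2) - dot w p * (dot w p * dot e e - dot w e * dot p e)
        + dot p e * (dot w p * dot w e - dot w w * dot p e) := by
    unfold dot; ring
  rw [hpp, hwp, hpe] at d1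
  have d2 : (p 0 * (w 1 * e 2 - w 2 * e 1) - p 1 * (w 0 * e 2 - w 2 * e 0) + p 2 * (w 0 * e 1 - w 1 * e 0) : A) = 0 := by
    apply pow_eq_zero_iff (two_ne_zero) |>.1
    rw [d1]; ring
  have d3 : ∀ x : Fin 3 → A, dot p x * (dot w w * dot e e) = 0 := by
    intro x
    have h := congrArg (fun z => z * (x 0 * (w 1 * e 2 - w 2 * e 1) - x 1 * (w 0 * e 2 - w 2 * e 0)
      + x 2 * (w 0 * e 1 - w 1 * e 0))) d2
    have h' : (p 0 * (w 1 * e 2 - w 2 * e 1) - p 1 * (w 0 * e 2 - w 2 * e 0) + p 2 * (w 0 * e 1 - w 1 * e 0))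
        * (x 0 * (w 1 * e 2 - w 2 * e 1) - x 1 * (w 0 * e 2 - w 2 * e 0) + x 2 * (w 0 * e 1 - w 1 * e 0))
        = dot p x * (dot w w * dot e e - dot w e ^ 2) - dot w p * (dot x w * dot e e - dot w e * dot x e)
          + dot p e * (dot x w * dot w e - dot w w * dot x e) := by
      unfold dot; ring
    simp only [zero_mul] at h
    rw [h', hwp, hpe, hwe] at h
    linear_combination h
  have hww : dot w w = 0 := by
    obtain ⟨i, hi⟩ := hp
    have h := d3 (Pi.single i 1)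
    have h2 : dot p (Pi.single i 1) = p i := by
      unfold dot
      fin_cases i <;> simp
    rw [h2] at h
    rcases mul_eq_zero.1 h with h | h
    · exact absurd h hi
    · exact (mul_eq_zero.1 h).resolve_right hee
  refine ⟨hww, ?_⟩
  have d4 : ∀ x : Fin 3 → A, (p 0 * (w 1 * x 2 - w 2 * x 1) - p 1 * (w 0 * x 2 - w 2 * x 0)
      + p 2 * (w 0 * x 1 - w 1 * x 0) : A) = 0 := by
    intro x
    have h : ((p 0 * (w 1 * x 2 - w 2 * x 1) - p 1 * (w 0 * x 2 - w 2 * x 0)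
      + p 2 * (w 0 * x 1 - w 1 * x 0)) ^ 2 : A)
      = dot p p * (dot w w * dot x x - dot w x ^ 2) - dot w p * (dot w p * dot x x - dot w x * dot p x)
        + dot p x * (dot w p * dot w x - dot w w * dot p x) := by
      unfold dot; ring
    rw [hpp, hwp, hww] at h
    apply pow_eq_zero_iff (two_ne_zero) |>.1
    rw [h]; ring
  have k0 := d4 (Pi.single 0 1)
  have k1 := d4 (Pi.single 1 1)
  have k2 := d4 (Pi.single 2 1)
  simp at k0 k1 k2
  intro i j
  fin_cases i <;> fin_cases j <;>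
    first
      | rfl
      | (show w 0 * p 1 = w 1 * p 0; linear_combination -k2)
      | (show w 1 * p 0 = w 0 * p 1; linear_combination k2)
      | (show w 0 * p 2 = w 2 * p 0; linear_combination k1)
      | (show w 2 * p 0 = w 0 * p 2; linear_combination -k1)
      | (show w 1 * p 2 = w 2 * p 1; linear_combination -k0)
      | (show w 2 * p 1 = w 1 * p 2; linear_combination k0)

end Pool.Agent.Helper33.TS
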