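import Pool.Agent.Helper33.TS.Vec

/-!
# Preparation of the global argument
-/

set_option autoImplicit false

namespace Pool.Agent.Helper33.TS

open Set Filter Topology

/-- a function with uncountably many zeros vanishes to second order somewhere -/
theorem acc_point {g g' : ℝ → ℂ} {J J' : Set ℝ} (hJ' : J' ⊆ J) (hc : ¬ J'.Countable)
    (hg : ∀ t ∈ J, HasDerivAt g (g' t) t) (h0 : ∀ t ∈ J', g t = 0) : ∃ t ∈ J', g' t = 0 := by
  obtain ⟨t, ht, hne⟩ : ∃ t ∈ J', 𝓝[J' ∩ Ioi t] t ≠ ⊥ := by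
    by_contra hcon
    push Not at hcon
    apply hc
    refine (countable_setOfPred_isolated_right_within (s := J')).mono ?_
    intro x hx
    exact ⟨hx, hcon x hx⟩
  refine ⟨t, ht, ?_⟩
  have h := (hg t (hJ' ht)).hasDerivWithinAt (s := J' ∩ Ioi t)
  rw [hasDerivWithinAt_iff_tendsto_slope' (fun h => lt_irrefl t (mem_Ioi.1 h.2))] at h
  have h1 : Tendsto (slope g t) (𝓝[J' ∩ Ioi t] t) (𝓝 0) := by
    refine tendsto_const_nhds.congr' ?_
    filter_upwards [self_mem_nhdsWithin] with y hy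
    rw [slope_def_module, h0 y hy.1, h0 t ht, sub_zero, smul_zero]
  have : (𝓝[J' ∩ Ioi t] t).NeBot := ⟨hne⟩
  exact tendsto_nhds_unique h h1

/-- complex vectors orthogonal to the velocity and the acceleration of a spherical curve are proportional -/
theorem prop_of_orth {a a1 a2 : Fin 3 → ℝ} {c c' : Fin 3 → ℂ} (ha1 : dot a a1 = 0)
    (ha2 : dot a a2 = - dot a1 a1) (hne : ∃ i, a1 i ≠ 0) (hc : ∃ i, c i ≠ 0)
    (h1 : dot c (fun i => (a1 i : ℂ)) = 0) (h2 : dot c (fun i => (a2 i : ℂ)) = 0)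
    (h1' : dot c' (fun i => (a1 i : ℂ)) = 0) (h2' : dot c' (fun i => (a2 i : ℂ)) = 0) :
    ∃ μ : ℂ, ∀ i, c' i = μ * c i := by
  -- the cross product
  have hn : ¬ (a1 1 * a2 2 - a1 2 * a2 1 = 0 ∧ a1 2 * a2 0 - a1 0 * a2 2 = 0 ∧ a1 0 * a2 1 - a1 1 * a2 0 = 0) := by
    rintro ⟨n0, n1, n2⟩
    unfold dot at ha1 ha2
    have h : (a1 0 * a1 0 + a1 1 * a1 1 + a1 2 * a1 2) * (a1 0 * a1 0 + a1 1 * a1 1 + a1 2 * a1 2) = 0 := by
      linear_combination (a1 0 * a2 0 + a1 1 * a2 1 + a1 2 * a2 2) * (-ha1) +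
        (a1 0 * a1 0 + a1 1 * a1 1 + a1 2 * a1 2) * ha2 - (a1 1 * a 2 - a1 2 * a 1) * n0
        - (a1 2 * a 0 - a1 0 * a 2) * n1 - (a1 0 * a 1 - a1 1 * a 0) * n2
    have h' := mul_self_eq_zero.1 h
    obtain ⟨i, hi⟩ := hne
    have : a1 0 = 0 ∧ a1 1 = 0 ∧ a1 2 = 0 := by
      refine ⟨?_, ?_, ?_⟩ <;> nlinarith [sq_nonneg (a1 0), sq_nonneg (a1 1), sq_nonneg (a1 2)]
    fin_cases i
    · exact hi this.1
    · exact hi this.2.1
    · exact hi this.2.2
  have key : ∀ (c : Fin 3 → ℂ), dot c (fun i => (a1 i : ℂ)) = 0 → dot c (fun i => (a2 i : ℂ)) = 0 →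
      ∀ i j, c i * (![a1 1 * a2 2 - a1 2 * a2 1, a1 2 * a2 0 - a1 0 * a2 2, a1 0 * a2 1 - a1 1 * a2 0] j : ℝ) =
        c j * (![a1 1 * a2 2 - a1 2 * a2 1, a1 2 * a2 0 - a1 0 * a2 2, a1 0 * a2 1 - a1 1 * a2 0] i : ℝ) := by
    intro c h1 h2 i j
    unfold dot at h1 h2
    have k01 : c 0 * ((a1 2 * a2 0 - a1 0 * a2 2 : ℝ) : ℂ) = c 1 * ((a1 1 * a2 2 - a1 2 * a2 1 : ℝ) : ℂ) := by
      push_cast
      linear_combination (a1 2 : ℂ) * h2 - (a2 2 : ℂ) * h1
    have k02 : c 0 * ((a1 0 * a2 1 - a1 1 * a2 0 : ℝ) : ℂ) = c 2 * ((a1 1 * a2 2 - a1 2 * a2 1 : ℝ) : ℂ) := by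
      push_cast
      linear_combination (a2 1 : ℂ) * h1 - (a1 1 : ℂ) * h2
    have k12 : c 1 * ((a1 0 * a2 1 - a1 1 * a2 0 : ℝ) : ℂ) = c 2 * ((a1 2 * a2 0 - a1 0 * a2 2 : ℝ) : ℂ) := by
      push_cast
      linear_combination (a1 0 : ℂ) * h2 - (a2 0 : ℂ) * h1
    fin_cases i <;> fin_cases j <;>
      simp only [Fin.zero_eta, Fin.mk_one, Fin.reduceFinMk, Matrix.cons_val_zero, Matrix.cons_val_one, Matrix.cons_val]
    · exact k01
    · exact k02
    · exact k01.symm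
    · exact k12
    · exact k02.symm
    · exact k12.symm
  obtain ⟨j, hj⟩ : ∃ j, ![a1 1 * a2 2 - a1 2 * a2 1, a1 2 * a2 0 - a1 0 * a2 2, a1 0 * a2 1 - a1 1 * a2 0] j ≠ 0 := by
    by_contra hcon
    push Not at hcon
    exact hn ⟨hcon 0, hcon 1, hcon 2⟩
  have hj' : ((![a1 1 * a2 2 - a1 2 * a2 1, a1 2 * a2 0 - a1 0 * a2 2, a1 0 * a2 1 - a1 1 * a2 0] j : ℝ) : ℂ) ≠ 0 := by
    exact_mod_cast hj
  have hcj : c j ≠ 0 := by
    intro h0
    obtain ⟨i, hi⟩ := hc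
    have h := key c h1 h2 i j
    rw [h0, zero_mul] at h
    exact (mul_ne_zero hi hj') h
  refine ⟨c' j / c j, fun i => ?_⟩
  have e1 := key c h1 h2 i j
  have e2 := key c' h1' h2' i j
  apply mul_right_cancel₀ hj'
  rw [e2, div_mul_eq_mul_div, div_mul_eq_mul_div, eq_div_iff hcj]
  linear_combination (-c' j) * e1

section

variable {I : Set ℝ} {a : Fin 3 → ℕ → ℝ → ℝ}

theorem dot_deriv (ha : ∀ i n, ∀ s ∈ I, HasDerivAt (a i n) (a i (n + 1) s) s) (m n : ℕ) {s : ℝ} (hs : s ∈ I) :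
    HasDerivAt (fun s => dot (fun i => a i m s) (fun i => a i n s))
      (dot (fun i => a i (m + 1) s) (fun i => a i n s) + dot (fun i => a i m s) (fun i => a i (n + 1) s)) s := by
  have h := (((ha 0 m s hs).mul (ha 0 n s hs)).add ((ha 1 m s hs).mul (ha 1 n s hs))).add
    ((ha 2 m s hs).mul (ha 2 n s hs))
  have h2 : HasDerivAt (fun s => dot (fun i => a i m s) (fun i => a i n s)) _ s := h
  refine h2.congr_deriv ?_
  unfold dot
  ring

theorem unit1 (hI : IsOpen I) (ha : ∀ i n, ∀ s ∈ I, HasDerivAt (a i n) (a i (n + 1) s) s)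
    (haa : ∀ s ∈ I, dot (fun i => a i 0 s) (fun i => a i 0 s) = 1) {s : ℝ} (hs : s ∈ I) :
    dot (fun i => a i 0 s) (fun i => a i 1 s) = 0 := by
  have h1 := dot_deriv ha 0 0 hs
  have h2 : HasDerivAt (fun s => dot (fun i => a i 0 s) (fun i => a i 0 s)) 0 s := by
    refine (hasDerivAt_const s (1 : ℝ)).congr_of_eventuallyEq ?_
    filter_upwards [hI.mem_nhds hs] with x hx
    exact haa x hx
  have h3 := h1.unique h2
  rw [dot_comm (fun i => a i (0 + 1) s)] at h3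
  have h4 : (2 : ℝ) * dot (fun i => a i 0 s) (fun i => a i 1 s) = 0 := by linear_combination h3
  exact (mul_eq_zero.1 h4).resolve_left two_ne_zero

theorem unit2 (hI : IsOpen I) (ha : ∀ i n, ∀ s ∈ I, HasDerivAt (a i n) (a i (n + 1) s) s)
    (haa : ∀ s ∈ I, dot (fun i => a i 0 s) (fun i => a i 0 s) = 1) {s : ℝ} (hs : s ∈ I) :
    dot (fun i => a i 0 s) (fun i => a i 2 s) = - dot (fun i => a i 1 s) (fun i => a i 1 s) := by
  have h1 := dot_deriv ha 0 1 hs
  have h2 : HasDerivAt (fun s => dot (fun i => a i 0 s) (fun i => a i 1 s)) 0 s := by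
    refine (hasDerivAt_const s (0 : ℝ)).congr_of_eventuallyEq ?_
    filter_upwards [hI.mem_nhds hs] with x hx
    exact unit1 hI ha haa hx
  have h3 := h1.unique h2
  have h4 : dot (fun i => a i 1 s) (fun i => a i 1 s) + dot (fun i => a i 0 s) (fun i => a i 2 s) = 0 := h3
  linear_combination h4

/-- selection of a smaller interval -/
theorem select (ha : ∀ i n, ∀ s ∈ I, HasDerivAt (a i n) (a i (n + 1) s) s)
    (haa : ∀ s ∈ I, dot (fun i => a i 0 s) (fun i => a i 0 s) = 1) {p q : ℝ} (hpq : p < q) (hsub : Ioo p q ⊆ I)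
    {j : Fin 3} (hj : ∀ s ∈ Ioo p q, a j 1 s ≠ 0) :
    ∃ p' q' : ℝ, p' < q' ∧ Ioo p' q' ⊆ Ioo p q ∧ (∀ s ∈ Ioo p' q', (a 2 0 s) ^ 2 ≠ 1) ∧
      InjOn (fun s i => a i 0 s) (Ioo p' q') := by
  obtain ⟨s2, hs2, h2⟩ : ∃ s ∈ Ioo p q, (a 2 0 s) ^ 2 ≠ 1 := by
    by_contra hcon
    push Not at hcon
    have h0 : ∀ s ∈ Ioo p q, a 0 0 s = 0 ∧ a 1 0 s = 0 := by
      intro s hs
      have h1 := haa s (hsub hs)
      have h3 := hcon s hs
      unfold dot at h1
      constructor <;> nlinarith [sq_nonneg (a 0 0 s), sq_nonneg (a 1 0 s)]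
    have hz : ∀ (i : Fin 3) (r : ℝ), (∀ s ∈ Ioo p q, a i 0 s = r) → ∀ s ∈ Ioo p q, a i 1 s = 0 := by
      intro i r hi s hs
      have h1 := ha i 0 s (hsub hs)
      have h3 : HasDerivAt (a i 0) 0 s := by
        refine (hasDerivAt_const s r).congr_of_eventuallyEq ?_
        filter_upwards [isOpen_Ioo.mem_nhds hs] with x hx
        exact hi x hx
      exact h1.unique h3
    obtain ⟨s, hs⟩ : (Ioo p q).Nonempty := nonempty_Ioo.2 hpq
    apply hj s hs
    fin_cases j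
    · exact hz 0 0 (fun s hs => (h0 s hs).1) s hs
    · exact hz 1 0 (fun s hs => (h0 s hs).2) s hs
    · show a 2 1 s = 0
      have h1 : HasDerivAt (fun s => (a 2 0 s) ^ 2) (2 * a 2 0 s * a 2 1 s) s := by
        have := (ha 2 0 s (hsub hs)).pow 2
        refine this.congr_deriv ?_
        push_cast
        ring
      have h3 : HasDerivAt (fun s => (a 2 0 s) ^ 2) 0 s := by
        refine (hasDerivAt_const s (1 : ℝ)).congr_of_eventuallyEq ?_
        filter_upwards [isOpen_Ioo.mem_nhds hs] with x hx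
        exact hcon x hx
      have h4 := h1.unique h3
      have h5 : a 2 0 s ≠ 0 := by
        intro h
        have := hcon s hs
        rw [h] at this
        norm_num at this
      rcases mul_eq_zero.1 h4 with h | h
      · exact absurd ((mul_eq_zero.1 h).resolve_left two_ne_zero) h5
      · exact h
  have hcont : ContinuousAt (fun s => (a 2 0 s) ^ 2) s2 := (ha 2 0 s2 (hsub hs2)).continuousAt.pow 2
  have hev : ∀ᶠ s in 𝓝 s2, (a 2 0 s) ^ 2 ≠ 1 ∧ s ∈ Ioo p q :=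
    (hcont.eventually_ne h2).and (isOpen_Ioo.mem_nhds hs2)
  obtain ⟨p', q', hm, hs'⟩ := mem_nhds_iff_exists_Ioo_subset.1 hev
  refine ⟨p', q', hm.1.trans hm.2, fun s hs => (hs' hs).2, fun s hs => (hs' hs).1, ?_⟩
  intro x hx y hy hxy
  have hxy' : a j 0 x = a j 0 y := congrFun hxy j
  have key : ∀ x y, x ∈ Ioo p' q' → y ∈ Ioo p' q' → a j 0 x = a j 0 y → ¬ x < y := by
    intro x y hx hy hxy hlt
    have hsub2 : Icc x y ⊆ Ioo p' q' := fun z hz => ⟨hx.1.trans_le hz.1, hz.2.trans_lt hy.2⟩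
    obtain ⟨c, hc, hc'⟩ := exists_hasDerivAt_eq_zero (f := a j 0) (f' := fun s => a j 1 s) hlt
      (fun z hz => (ha j 0 z (hsub (hs' (hsub2 hz)).2)).continuousAt.continuousWithinAt) hxy
      (fun z hz => ha j 0 z (hsub (hs' (hsub2 (Ioo_subset_Icc_self hz))).2))
    exact hj c (hs' (hsub2 (Ioo_subset_Icc_self hc))).2 hc'
  rcases lt_trichotomy x y with h | h | h
  · exact absurd h (key x y hx hy hxy')
  · exact h
  · exact absurd h (key y x hy hx hxy'.symm)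

/-- propagation of the vanishing of the determinant over points with `a' = 0` -/
theorem propagate (hI : IsOpen I) (hIc : IsPreconnected I)
    (ha : ∀ i n, ∀ s ∈ I, HasDerivAt (a i n) (a i (n + 1) s) s) (w w1 : Fin 3 → ℝ)
    (h0 : ∀ s ∈ I, (∃ i, a i 1 s ≠ 0) → mr (fun i => a i 0 s) (fun i => a i 1 s) w w1 = 0)
    (h1 : ∃ s ∈ I, ∃ i, a i 1 s ≠ 0) : ∀ s ∈ I, mr (fun i => a i 0 s) (fun i => a i 1 s) w w1 = 0 := by
  -- the derivative
  obtain ⟨g, hg⟩ : ∃ g : ℝ → ℝ, g = fun s => mr (fun i => a i 0 s) (fun i => a i 1 s) w w1 := ⟨_, rfl⟩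
  obtain ⟨g', hg'⟩ : ∃ g' : ℝ → ℝ, g' = fun s =>
      a 0 2 s * (a 1 0 s * w 2 - a 2 0 s * w 1) + (a 0 1 s + w1 0) * (a 1 1 s * w 2 - a 2 1 s * w 1)
      + (a 1 2 s * (a 2 0 s * w 0 - a 0 0 s * w 2) + (a 1 1 s + w1 1) * (a 2 1 s * w 0 - a 0 1 s * w 2))
      + (a 2 2 s * (a 0 0 s * w 1 - a 1 0 s * w 0) + (a 2 1 s + w1 2) * (a 0 1 s * w 1 - a 1 1 s * w 0)) := ⟨_, rfl⟩
  have hder : ∀ s ∈ I, HasDerivAt g (g' s) s := by
    intro s hs
    have t0 := ((ha 0 1 s hs).add_const (w1 0)).mul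
      (((ha 1 0 s hs).mul_const (w 2)).sub ((ha 2 0 s hs).mul_const (w 1)))
    have t1 := ((ha 1 1 s hs).add_const (w1 1)).mul
      (((ha 2 0 s hs).mul_const (w 0)).sub ((ha 0 0 s hs).mul_const (w 2)))
    have t2 := ((ha 2 1 s hs).add_const (w1 2)).mul
      (((ha 0 0 s hs).mul_const (w 1)).sub ((ha 1 0 s hs).mul_const (w 0)))
    have h := (t0.add t1).add t2
    have h2 : HasDerivAt (fun s => mr (fun i => a i 0 s) (fun i => a i 1 s) w w1) _ s := h
    rw [hg, hg']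
    refine h2.congr_deriv ?_
    simp only [Pi.sub_apply]
  -- the square is constant
  have hsq : ∀ s ∈ I, HasDerivAt (fun s => g s ^ 2) 0 s := by
    intro s hs
    have h := (hder s hs).pow 2
    refine h.congr_deriv ?_
    by_cases hz : g s = 0
    · rw [hz]; simp
    · have hnz : ∀ x ∈ I, g x ≠ 0 → ∀ i, a i 1 x = 0 := by
        intro x hx hgx i
        by_contra hne
        apply hgx
        rw [hg]
        exact h0 x hx ⟨i, hne⟩
      have hev : ∀ᶠ x in 𝓝 s, g x ≠ 0 ∧ x ∈ I :=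
        ((hder s hs).continuousAt.eventually_ne hz).and (hI.mem_nhds hs)
      have ha2 : ∀ i, a i 2 s = 0 := by
        intro i
        have h1 := ha i 1 s hs
        have h3 : HasDerivAt (a i 1) 0 s := by
          refine (hasDerivAt_const s (0 : ℝ)).congr_of_eventuallyEq ?_
          filter_upwards [hev] with x hx
          exact hnz x hx.2 hx.1 i
        exact h1.unique h3
      have hg0 : g' s = 0 := by
        rw [hg']
        simp only [ha2, hnz s hs hz]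
        ring
      rw [hg0, mul_zero]
  obtain ⟨r, hr⟩ := hI.exists_is_const_of_deriv_eq_zero hIc
    (f := fun s => g s ^ 2) (fun s hs => (hsq s hs).differentiableAt.differentiableWithinAt)
    (fun s hs => (hsq s hs).deriv)
  obtain ⟨s0, hs0, hi⟩ := h1
  have hr0 : r = 0 := by
    rw [← hr s0 hs0]
    have : g s0 = 0 := by
      rw [hg]
      exact h0 s0 hs0 hi
    simp [this]
  intro s hs
  have h := hr s hs
  rw [hr0] at h
  have h3 : g s = 0 := by simpa using h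
  rw [hg] at h3
  exact h3

end

theorem mr_swap {R : Type*} [CommRing R] (a a1 b b1 : Fin 3 → R) : mr a a1 b b1 = - mr b b1 a a1 := by
  unfold mr
  ring

end Pool.Agent.Helper33.TS
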