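import Pool.Agent.Helper33.TS.Defs
import Pool.Agent.Helper33.TT.Geo

/-!
# The Laplacian of a translation surface in the ring of smooth functions

`lapC` is the Laplacian in the ring, `q² D = 1`. We prove `2 lapC x = q⁴ QQ 0` and
`2 lapC (q ^ (2 e) X) = q ^ (2 (e + 3)) NN e X`.
-/

set_option autoImplicit false

namespace Pool.Agent.Helper33.TS

open Pool.Agent.Helper33.TT (dp dD lapC)

variable {A : Type*} [CommRing A] [Algebra ℚ A]

theorem leq (d : Derivation ℚ A A) (x y : A) : d (x * y) = x * d y + y * d x := by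
  rw [Derivation.leibniz, smul_eq_mul, smul_eq_mul]

theorem dq (d : Derivation ℚ A A) {q D : A} (hq : q ^ 2 * D = 1) : 2 * d q = - q ^ 3 * d D := by
  have h := congrArg d hq
  rw [leq, pow_two, leq, Derivation.map_one_eq_zero] at h
  -- q*q dD + D (q dq + q dq) = 0
  linear_combination q * h + (-2 * d q) * hq

theorem dqe (d : Derivation ℚ A A) {q D : A} (hq : q ^ 2 * D = 1) (e : ℕ) (X : A) :
    d (q ^ (2 * e) * X) = q ^ (2 * e + 2) * (D * d X - e * d D * X) := by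
  induction e generalizing X with
  | zero =>
    simp only [mul_zero, pow_zero, one_mul, Nat.cast_zero, zero_mul, sub_zero, zero_add]
    linear_combination (-d X) * hq
  | succ e ih =>
    have h1 : q ^ (2 * (e + 1)) * X = q ^ (2 * e) * (q ^ 2 * X) := by ring
    have h2 : d (q ^ 2 * X) = q ^ 2 * d X - q ^ 4 * d D * X := by
      rw [leq, pow_two, leq]
      linear_combination X * q * dq d hq
    rw [h1, ih, h2]
    push_cast
    have h3 : q ^ (2 * (e + 1) + 2) = q ^ (2 * e + 2) * q ^ 2 := by ring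
    rw [h3]
    linear_combination (q ^ (2 * e + 2) * (-(q ^ 2 * d D * X))) * hq

theorem dqo (d : Derivation ℚ A A) {q D : A} (hq : q ^ 2 * D = 1) (e : ℕ) (Y : A) :
    2 * d (q ^ (2 * e + 1) * Y) = q ^ (2 * e + 3) * (2 * D * d Y - (2 * e + 1) * d D * Y) := by
  have h1 : q ^ (2 * e + 1) * Y = q ^ (2 * e) * (q * Y) := by ring
  rw [h1, dqe d hq, leq]
  have h3 : q ^ (2 * e + 3) = q ^ (2 * e + 2) * q := by ring
  rw [h3]
  linear_combination (q ^ (2 * e + 2) * D * Y) * dq d hq + (-(q ^ (2 * e + 2) * q * d D * Y)) * hq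

variable {d1 d2 : Derivation ℚ A A} {x : Fin 3 → A} {q : A}

/-- the data of a translation surface in the ring -/
structure Trs (d1 d2 : Derivation ℚ A A) (x : Fin 3 → A) (q : A) : Prop where
  comm : ∀ f, d1 (d2 f) = d2 (d1 f)
  h12 : ∀ i, d2 (d1 (x i)) = 0
  h11 : dp (dD d1 x) (dD d1 x) = 1
  h22 : dp (dD d2 x) (dD d2 x) = 1
  hq : q ^ 2 * (UU (dD d1 x) (dD d2 x) * VV (dD d1 x) (dD d2 x)) = 1

theorem Trs.lapC_eq (T : Trs d1 d2 x q) (f : A) : lapC d1 d2 x q f =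
    q * (d1 (q * (d1 f - dot (dD d1 x) (dD d2 x) * d2 f)) + d2 (q * (d2 f - dot (dD d1 x) (dD d2 x) * d1 f))) := by
  unfold lapC
  rw [T.h11, T.h22, one_mul, one_mul]
  rfl

theorem Trs.lap_zero (T : Trs d1 d2 x q) (i : Fin 3) : 2 * lapC d1 d2 x q (x i) =
    q ^ (2 * 2) * QQ (fun f => d1 f - d2 f) (fun f => d1 f + d2 f) (dD d1 x) (dD d2 x) 0 i := by
  rw [T.lapC_eq]
  have k1 := dqo d1 T.hq 0 (d1 (x i) - dot (dD d1 x) (dD d2 x) * d2 (x i))
  have k2 := dqo d2 T.hq 0 (d2 (x i) - dot (dD d1 x) (dD d2 x) * d1 (x i))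
  simp only [mul_zero, zero_add, pow_one, Nat.cast_zero] at k1 k2
  have e1 : 2 * (q * (d1 (q * (d1 (x i) - dot (dD d1 x) (dD d2 x) * d2 (x i)))
      + d2 (q * (d2 (x i) - dot (dD d1 x) (dD d2 x) * d1 (x i))))) =
      q * (2 * d1 (q * (d1 (x i) - dot (dD d1 x) (dD d2 x) * d2 (x i)))
        + 2 * d2 (q * (d2 (x i) - dot (dD d1 x) (dD d2 x) * d1 (x i)))) := by ring
  rw [e1, k1, k2, QQ_zero]
  have h21 : d1 (d2 (x i)) = 0 := by rw [T.comm, T.h12]
  have h12 := T.h12 i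
  unfold UU VV
  obtain ⟨F, hF⟩ : ∃ F, F = dot (dD d1 x) (dD d2 x) := ⟨_, rfl⟩
  rw [← hF]
  simp only [dD, map_sub, map_add, leq, Derivation.map_one_eq_zero, h21, h12]
  ring

theorem Trs.lap_succ (T : Trs d1 d2 x q) (e : ℕ) (X : A) : 2 * lapC d1 d2 x q (q ^ (2 * e) * X) =
    q ^ (2 * (e + 3)) * NN (fun f => d1 f - d2 f) (fun f => d1 f + d2 f) (UU (dD d1 x) (dD d2 x))
      (VV (dD d1 x) (dD d2 x)) e X := by
  rw [T.lapC_eq, dqe d1 T.hq, dqe d2 T.hq]
  unfold UU VV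
  have hq := T.hq
  unfold UU VV at hq
  obtain ⟨F, hF⟩ : ∃ F, F = dot (dD d1 x) (dD d2 x) := ⟨_, rfl⟩
  rw [← hF] at hq ⊢
  obtain ⟨D, hD⟩ : ∃ D, D = (1 - F) * (1 + F) := ⟨_, rfl⟩
  rw [← hD] at hq ⊢
  have e1 : q * (q ^ (2 * e + 2) * (D * d1 X - e * d1 D * X) - F * (q ^ (2 * e + 2) * (D * d2 X - e * d2 D * X)))
      = q ^ (2 * (e + 1) + 1) * ((D * d1 X - e * d1 D * X) - F * (D * d2 X - e * d2 D * X)) := by ring
  have e2 : q * (q ^ (2 * e + 2) * (D * d2 X - e * d2 D * X) - F * (q ^ (2 * e + 2) * (D * d1 X - e * d1 D * X)))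
      = q ^ (2 * (e + 1) + 1) * ((D * d2 X - e * d2 D * X) - F * (D * d1 X - e * d1 D * X)) := by ring
  rw [e1, e2]
  have k1 := dqo d1 hq (e + 1) ((D * d1 X - e * d1 D * X) - F * (D * d2 X - e * d2 D * X))
  have k2 := dqo d2 hq (e + 1) ((D * d2 X - e * d2 D * X) - F * (D * d1 X - e * d1 D * X))
  rw [mul_left_comm, mul_add, k1, k2]
  have c12 : d2 (d1 X) = d1 (d2 X) := (T.comm X).symm
  have c12' : d2 (d1 D) = d1 (d2 D) := (T.comm D).symm
  have f12 : d2 (d1 F) = d1 (d2 F) := (T.comm F).symm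
  have hn1 : d1 (e : A) = 0 := d1.map_natCast e
  have hn2 : d2 (e : A) = 0 := d2.map_natCast e
  have D1 : d1 D = - (2 * F * d1 F) := by
    rw [hD]; simp only [leq, map_sub, map_add, Derivation.map_one_eq_zero]; ring
  have D2 : d2 D = - (2 * F * d2 F) := by
    rw [hD]; simp only [leq, map_sub, map_add, Derivation.map_one_eq_zero]; ring
  have h2' : d1 (2 : A) = 0 := by
    have := d1.map_natCast 2
    simpa using this
  have h2'' : d2 (2 : A) = 0 := by
    have := d2.map_natCast 2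
    simpa using this
  have D11 : d1 (d1 D) = - (2 * (F * d1 (d1 F) + d1 F * d1 F)) := by
    rw [D1, map_neg, leq, leq, h2']; ring
  have D12 : d1 (d2 D) = - (2 * (F * d1 (d2 F) + d1 F * d2 F)) := by
    rw [D2, map_neg, leq, leq, h2']; ring
  have D22 : d2 (d2 D) = - (2 * (F * d2 (d2 F) + d2 F * d2 F)) := by
    rw [D2, map_neg, leq, leq, h2'']; ring
  unfold NN
  rw [← hD]
  simp only [map_sub, map_add, leq, hn1, hn2, c12, c12', f12, D11, D12, D22, D1, D2, Derivation.map_one_eq_zero]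
  push_cast
  rw [hD]
  ring

end Pool.Agent.Helper33.TS
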