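import Pool.Agent.Helper33.TS.Loc

/-!
# The tangential case: a surface of finite type is minimal at a simple isotropic germ
-/

set_option autoImplicit false

namespace Pool.Agent.Helper33.TS

open Pool.Agent.Helper99.TR

section dotlem

variable {R : Type*} [CommRing R] [Algebra ℝ R]

theorem lei_dot (d : Derivation ℝ R R) (x y : Fin 3 → R) :
    d (dot x y) = dot (fun i => d (x i)) y + dot x (fun i => d (y i)) := by
  unfold dot
  rw [map_add, map_add, lei, lei, lei]
  ring

omit [Algebra ℝ R] in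
theorem UV_two (a b : Fin 3 → R) : UU a b + VV a b = 2 := by
  unfold UU VV; ring

omit [Algebra ℝ R] in
theorem dot_xi_xi {a b : Fin 3 → R} (haa : dot a a = 1) (hbb : dot b b = 1) :
    dot (fun i => a i - b i) (fun i => a i - b i) = 2 * UU a b := by
  unfold UU
  unfold dot at *
  linear_combination haa + hbb

omit [Algebra ℝ R] in
theorem dot_eta_eta {a b : Fin 3 → R} (haa : dot a a = 1) (hbb : dot b b = 1) :
    dot (fun i => a i + b i) (fun i => a i + b i) = 2 * VV a b := by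
  unfold VV
  unfold dot at *
  linear_combination haa + hbb

omit [Algebra ℝ R] in
theorem dot_xi_eta {a b : Fin 3 → R} (haa : dot a a = 1) (hbb : dot b b = 1) :
    dot (fun i => a i - b i) (fun i => a i + b i) = 0 := by
  unfold dot at *
  linear_combination haa - hbb

theorem two_cancel {x y : R} (h : 2 * x = 2 * y) : x = y := by
  have h1 : algebraMap ℝ R (1 / 2) * 2 = 1 := by
    rw [← map_ofNat (algebraMap ℝ R) 2, ← map_mul]
    norm_num
  calc x = algebraMap ℝ R (1 / 2) * (2 * x) := by rw [← mul_assoc, h1, one_mul]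
    _ = algebraMap ℝ R (1 / 2) * (2 * y) := by rw [h]
    _ = y := by rw [← mul_assoc, h1, one_mul]

variable {ds dt : Derivation ℝ R R} {a b : Fin 3 → R}

theorem dot_ds_xi_xi (haa : dot a a = 1) (hbb : dot b b = 1) :
    dot (fun i => ds (a i - b i)) (fun i => a i - b i) = ds (UU a b) := by
  have h := congrArg ds (dot_xi_xi haa hbb)
  rw [lei_dot, lei] at h
  have h0 : ds (2 : R) = 0 := by
    have := ds.map_natCast 2
    simpa using this
  rw [h0] at h
  apply two_cancel
  have h2 : dot (fun i => a i - b i) (fun i => ds (a i - b i)) = dot (fun i => ds (a i - b i)) (fun i => a i - b i) := by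
    unfold dot; ring
  rw [h2] at h
  linear_combination h

theorem dot_ds_xi_eta (haa : dot a a = 1) (hbb : dot b b = 1) (ha : ∀ i, dt (a i) = ds (a i))
    (hb : ∀ i, dt (b i) = - ds (b i)) :
    dot (fun i => ds (a i - b i)) (fun i => a i + b i) = - dt (UU a b) := by
  have h := congrArg ds (dot_xi_eta haa hbb)
  rw [lei_dot, map_zero] at h
  have h1 : (fun i => ds (a i + b i)) = fun i => dt (a i - b i) := by
    funext i
    rw [map_add, map_sub, ha, hb]; ring
  rw [h1] at h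
  have h2 : dot (fun i => a i - b i) (fun i => dt (a i - b i)) = dot (fun i => dt (a i - b i)) (fun i => a i - b i) := by
    unfold dot; ring
  rw [h2, dot_ds_xi_xi haa hbb] at h
  linear_combination h

/-- the mean curvature vector is normal -/
theorem QQ_perp_xi (haa : dot a a = 1) (hbb : dot b b = 1) :
    dot (QQ ds dt a b 0) (fun i => a i - b i) = 0 := by
  have h1 := dot_ds_xi_xi (ds := ds) haa hbb
  have h2 := dot_xi_xi haa hbb
  have h3 := dot_xi_eta haa hbb
  have h : dot (QQ ds dt a b 0) (fun i => a i - b i)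
      = 2 * (UU a b * VV a b) * dot (fun i => ds (a i - b i)) (fun i => a i - b i)
        + UU a b * dt (UU a b) * dot (fun i => a i - b i) (fun i => a i + b i)
        - VV a b * ds (UU a b) * dot (fun i => a i - b i) (fun i => a i - b i) := by
    unfold dot
    rw [QQ_zero, QQ_zero, QQ_zero]
    ring
  rw [h, h1, h2, h3]
  ring

theorem QQ_perp_eta (haa : dot a a = 1) (hbb : dot b b = 1) (ha : ∀ i, dt (a i) = ds (a i))
    (hb : ∀ i, dt (b i) = - ds (b i)) :
    dot (QQ ds dt a b 0) (fun i => a i + b i) = 0 := by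
  have h1 := dot_ds_xi_eta haa hbb ha hb
  have h2 := dot_eta_eta haa hbb
  have h3 := dot_xi_eta haa hbb
  have h : dot (QQ ds dt a b 0) (fun i => a i + b i)
      = 2 * (UU a b * VV a b) * dot (fun i => ds (a i - b i)) (fun i => a i + b i)
        + UU a b * dt (UU a b) * dot (fun i => a i + b i) (fun i => a i + b i)
        - VV a b * ds (UU a b) * dot (fun i => a i - b i) (fun i => a i + b i) := by
    unfold dot
    rw [QQ_zero, QQ_zero, QQ_zero]
    ring
  rw [h, h1, h2, h3]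
  ring

end dotlem

theorem four_ne : (4 : A1) ≠ 0 := fun h => by
  have h1 := congrArg PowerSeries.constantCoeff h
  rw [map_ofNat, map_zero] at h1
  norm_num at h1

theorem c0_dot (x y : Fin 3 → B2) : c0 (dot x y) = dot (fun i => c0 (x i)) (fun i => c0 (y i)) := map_dot c0 x y

theorem c1_dot (x y : Fin 3 → B2) : c1 (dot x y) = dot (fun i => c0 (x i)) (fun i => c1 (y i))
    + dot (fun i => c1 (x i)) (fun i => c0 (y i)) := by
  unfold dot
  rw [c1_add, c1_add, c1_mul, c1_mul, c1_mul]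
  ring

theorem dA_dot (x y : Fin 3 → A1) : dA (dot x y) = dot (fun i => dA (x i)) y + dot x (fun i => dA (y i)) := by
  unfold dot
  rw [dA_add, dA_add, dA_mul, dA_mul, dA_mul]
  ring

/-- the data of a simple isotropic germ in the tangential case -/
structure Tan (a b : Fin 3 → B2) (v ω : B2) : Prop where
  ha : ∀ i, dS (a i) = dT (a i)
  hb : ∀ i, dS (b i) = - dT (b i)
  haa : dot a a = 1
  hbb : dot b b = 1
  hU0 : c0 (UU a b) = 0
  hu : PowerSeries.constantCoeff (c1 (UU a b)) ≠ 0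
  hω : dT (UU a b) = UU a b * ω
  hv : v * VV a b = 1
  hξ : ∃ i, PowerSeries.constantCoeff (c0 (a i - b i)) ≠ 0

namespace Tan

variable {a b : Fin 3 → B2} {v ω : B2}

theorem w_xi (T : Tan a b v ω) : dot (fun i => dA (c0 (a i - b i))) (fun i => c0 (a i - b i)) = 0 := by
  have h := congrArg c0 (dot_ds_xi_xi (ds := dT) T.haa T.hbb)
  rw [c0_dot, c0_dT, T.hU0, dA_zero] at h
  simpa only [c0_dT] using h

theorem w_eta (T : Tan a b v ω) : dot (fun i => dA (c0 (a i - b i))) (fun i => c0 (a i + b i)) = - c1 (UU a b) := by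
  have h := congrArg c0 (dot_ds_xi_eta (ds := dT) (dt := dS) T.haa T.hbb T.ha T.hb)
  rw [c0_dot, map_neg, c0_dS] at h
  simpa only [c0_dT] using h

theorem xi_xi (T : Tan a b v ω) : dot (fun i => c0 (a i - b i)) (fun i => c0 (a i - b i)) = 0 := by
  have h := congrArg c0 (dot_xi_xi T.haa T.hbb)
  rw [c0_dot, map_mul, T.hU0, mul_zero] at h
  exact h

theorem xi_eta (T : Tan a b v ω) : dot (fun i => c0 (a i - b i)) (fun i => c0 (a i + b i)) = 0 := by
  have h := congrArg c0 (dot_xi_eta T.haa T.hbb)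
  rw [c0_dot, map_zero] at h
  exact h

theorem eta_eta (T : Tan a b v ω) : dot (fun i => c0 (a i + b i)) (fun i => c0 (a i + b i)) = 4 := by
  have h := congrArg c0 (dot_eta_eta T.haa T.hbb)
  rw [c0_dot, map_mul, c0_V (UV_two a b) T.hU0, map_ofNat] at h
  rw [h]; ring

theorem xi_ne (T : Tan a b v ω) : ∃ i, c0 (a i - b i) ≠ 0 := by
  obtain ⟨i, hi⟩ := T.hξ
  exact ⟨i, fun h => hi (by rw [h, map_zero])⟩

theorem ww (T : Tan a b v ω) : 4 * dot (fun i => dA (c0 (a i - b i))) (fun i => dA (c0 (a i - b i)))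
    = c1 (UU a b) ^ 2 := by
  have h1 := T.w_xi
  have h2 := T.w_eta
  have h3 := T.xi_xi
  have h4 := T.xi_eta
  have h5 := T.eta_eta
  have h6 := (gram (fun i => c0 (a i - b i)) (fun i => c0 (a i + b i))
    (fun i => 4 * dA (c0 (a i - b i)) + c1 (UU a b) * c0 (a i + b i)) h3 h4 (by rw [h5]; exact four_ne) (by
      unfold dot at *
      linear_combination 4 * h1 + c1 (UU a b) * h4) (by
      unfold dot at *
      linear_combination 4 * h2 + c1 (UU a b) * h5) T.xi_ne).1
  have h7 : (4 : A1) * (4 * dot (fun i => dA (c0 (a i - b i))) (fun i => dA (c0 (a i - b i))))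
      = 4 * c1 (UU a b) ^ 2 := by
    unfold dot at *
    linear_combination h6 - 8 * c1 (UU a b) * h2 - c1 (UU a b) ^ 2 * h5
  exact mul_left_cancel₀ four_ne h7

theorem w'_xi (T : Tan a b v ω) : 4 * dot (fun i => dA (dA (c0 (a i - b i)))) (fun i => c0 (a i - b i))
    = - c1 (UU a b) ^ 2 := by
  have h := congrArg dA T.w_xi
  rw [dA_dot, dA_zero] at h
  linear_combination 4 * h - T.ww

/-- the recursion on the coefficients -/
theorem stepA (T : Tan a b v ω) (X : Fin 3 → B2) (e : ℤ) (ν : A1) (m1 m2 : ℤ)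
    (h0 : ∀ i, c0 (X i) = m1 * ν * c0 (a i - b i))
    (h1 : dot (fun i => c1 (X i)) (fun i => c0 (a i - b i)) = - (m2 * ν * c1 (UU a b))) :
    (∀ i, c0 (NP dT dS (UU a b) (VV a b) v ω e (X i)) =
      ((e * (2 * e + 1) * m1 : ℤ) : A1) * (c1 (UU a b) ^ 2 * ν) * c0 (a i - b i)) ∧
    dot (fun i => c1 (NP dT dS (UU a b) (VV a b) v ω e (X i))) (fun i => c0 (a i - b i)) =
      - (((((2 * e - 1) * (e - 1) * m2 + m1 : ℤ) : A1)) * (c1 (UU a b) ^ 2 * ν) * c1 (UU a b)) := by
  constructor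
  · intro i
    rw [c0_NP (UV_two a b) T.hv T.hU0, h0]
    push_cast
    ring
  · obtain ⟨g, h, hgh⟩ := c1_NP (ω := ω) (UV_two a b) T.hv T.hU0 e
    have e0 : (fun i => c1 (NP dT dS (UU a b) (VV a b) v ω e (X i))) = fun i =>
        (2 * e - 1) * (e - 1) * (c1 (UU a b)) ^ 2 * c1 (X i) + 4 * c1 (UU a b) * dA (dA (c0 (X i)))
      + g * c0 (X i) + h * dA (c0 (X i)) := by
      funext i
      exact hgh (X i)
    rw [e0]
    have k0 : ∀ i, dA (c0 (X i)) = m1 * (ν * dA (c0 (a i - b i)) + dA ν * c0 (a i - b i)) := by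
      intro i
      rw [h0, mul_assoc, dA_mul, dA_intCast, dA_mul]
      ring
    have k1 : ∀ i, dA (dA (c0 (X i))) = m1 * (ν * dA (dA (c0 (a i - b i))) + 2 * dA ν * dA (c0 (a i - b i))
        + dA (dA ν) * c0 (a i - b i)) := by
      intro i
      rw [k0, dA_mul, dA_intCast, dA_add, dA_mul, dA_mul]
      ring
    have e1 := T.w_xi
    have e2 := T.w'_xi
    have e3 := T.xi_xi
    have e4 : (dot (fun i => (2 * e - 1) * (e - 1) * (c1 (UU a b)) ^ 2 * c1 (X i) + 4 * c1 (UU a b) * dA (dA (c0 (X i)))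
      + g * c0 (X i) + h * dA (c0 (X i))) (fun i => c0 (a i - b i)) : A1)
      = (2 * e - 1) * (e - 1) * (c1 (UU a b)) ^ 2 * dot (fun i => c1 (X i)) (fun i => c0 (a i - b i))
        + c1 (UU a b) * (m1 * (ν * (4 * dot (fun i => dA (dA (c0 (a i - b i)))) (fun i => c0 (a i - b i)))
          + 8 * dA ν * dot (fun i => dA (c0 (a i - b i))) (fun i => c0 (a i - b i))
          + 4 * dA (dA ν) * dot (fun i => c0 (a i - b i)) (fun i => c0 (a i - b i))))
        + g * (m1 * ν) * dot (fun i => c0 (a i - b i)) (fun i => c0 (a i - b i))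
        + h * (m1 * (ν * dot (fun i => dA (c0 (a i - b i))) (fun i => c0 (a i - b i))
          + dA ν * dot (fun i => c0 (a i - b i)) (fun i => c0 (a i - b i)))) := by
      unfold dot
      dsimp only
      rw [k1 0, k1 1, k1 2, k0 0, k0 1, k0 2, h0 0, h0 1, h0 2]
      ring
    rw [e4, e1, e2, e3, h1]
    push_cast
    ring

theorem u_ne (T : Tan a b v ω) : c1 (UU a b) ≠ 0 := fun h => T.hu (by rw [h, map_zero])

/-- `D` divides everything without constant term in `τ` -/
theorem dvd (T : Tan a b v ω) {Y : B2} (hY : c0 Y = 0) : UU a b * VV a b ∣ Y := by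
  have h1 : (PowerSeries.X : B2) ∣ Y := PowerSeries.X_dvd_iff.2 hY
  have h2 : (PowerSeries.X : B2) ∣ UU a b * VV a b := PowerSeries.X_dvd_iff.2 (c0_D T.hU0)
  obtain ⟨Y', hY'⟩ := h1
  obtain ⟨u, hu⟩ := h2
  have h3 : c0 u = c1 (UU a b * VV a b) := by
    rw [hu, c1_mul]
    have e0 : c0 (PowerSeries.X : B2) = 0 := PowerSeries.constantCoeff_X
    have e1 : c1 (PowerSeries.X : B2) = 1 := PowerSeries.coeff_one_X
    rw [e0, e1]
    ring
  have h4 : IsUnit u := by
    rw [PowerSeries.isUnit_iff_constantCoeff, PowerSeries.isUnit_iff_constantCoeff]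
    have h5 : PowerSeries.constantCoeff (c0 u) ≠ 0 := by
      rw [h3, c1_D (UV_two a b) T.hU0, map_mul, map_ofNat]
      exact mul_ne_zero two_ne_zero T.hu
    exact h5.isUnit
  obtain ⟨u', hu'⟩ := h4.exists_right_inv
  refine ⟨u' * Y', ?_⟩
  rw [hY', hu]
  calc PowerSeries.X * Y' = PowerSeries.X * (u * u') * Y' := by rw [hu', mul_one]
    _ = _ := by ring

theorem D_ne (T : Tan a b v ω) : UU a b * VV a b ≠ 0 := by
  intro h
  have h1 := c1_D (UV_two a b) T.hU0
  rw [h] at h1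
  have h2 : c1 (0 : B2) = 0 := map_zero _
  rw [h2] at h1
  have h3 : (2 : A1) ≠ 0 := fun h => by
    have h1 := congrArg PowerSeries.constantCoeff h
    rw [map_ofNat, map_zero] at h1
    norm_num at h1
  exact T.u_ne ((mul_eq_zero.1 h1.symm).resolve_left h3)

theorem not_dvd (T : Tan a b v ω) {Y : B2} (hY : c0 Y ≠ 0) : ¬ (UU a b * VV a b ∣ Y) := by
  rintro ⟨Z, hZ⟩
  apply hY
  rw [hZ, map_mul, c0_D T.hU0, zero_mul]

/-- the exact power of `D` in a nonzero vector -/
theorem factor (T : Tan a b v ω) (Q : Fin 3 → B2) (hQ : ∃ i, Q i ≠ 0) :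
    ∃ (M : ℕ) (X : Fin 3 → B2), (∀ i, Q i = (UU a b * VV a b) ^ M * X i) ∧ ∃ i, c0 (X i) ≠ 0 := by
  classical
  have h1 : ∃ M : ℕ, ¬ ∀ i, (UU a b * VV a b) ^ M ∣ Q i := by
    obtain ⟨i, hi⟩ := hQ
    obtain ⟨n, hn⟩ := PowerSeries.exists_coeff_ne_zero_iff_ne_zero.2 hi
    refine ⟨n + 1, fun h => hn ?_⟩
    have h2 : (PowerSeries.X : B2) ^ (n + 1) ∣ Q i :=
      (pow_dvd_pow_of_dvd (PowerSeries.X_dvd_iff.2 (c0_D T.hU0)) (n + 1)).trans (h i)
    exact PowerSeries.X_pow_dvd_iff.1 h2 n (Nat.lt_succ_self n)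
  obtain ⟨hM1, hM2⟩ : (¬ ∀ i, (UU a b * VV a b) ^ (Nat.find h1) ∣ Q i) ∧
      ∀ m < Nat.find h1, ¬ ¬ ∀ i, (UU a b * VV a b) ^ m ∣ Q i :=
    ⟨Nat.find_spec h1, fun m hm => Nat.find_min h1 hm⟩
  obtain ⟨M, hM⟩ : ∃ M, Nat.find h1 = M + 1 := by
    refine Nat.exists_eq_succ_of_ne_zero fun h => hM1 ?_
    rw [h]
    intro i
    rw [pow_zero]
    exact one_dvd _
  have h2 := not_not.1 (hM2 M (by omega))
  choose X hX using h2
  refine ⟨M, X, hX, ?_⟩
  by_contra h3
  push Not at h3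
  apply hM1
  rw [hM]
  intro i
  obtain ⟨Z, hZ⟩ := T.dvd (h3 i)
  rw [hX i, hZ]
  exact ⟨Z, by ring⟩

/-- the step of the numerators -/
theorem QQ_step (T : Tan a b v ω) (n m : ℕ) (e : ℤ) (he : e = 3 * n + 2 - m) (X : Fin 3 → B2)
    (hX : ∀ i, QQ dT dS a b n i = (UU a b * VV a b) ^ m * X i) (i : Fin 3) :
    QQ dT dS a b (n + 1) i = (UU a b * VV a b) ^ (m + 1) * NP dT dS (UU a b) (VV a b) v ω e (X i) := by
  rw [QQ_succ, hX, show (3 * (n : ℤ) + 2) = e + m by rw [he]; ring, NN_pow,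
    NN_eq_NP dT dS (UU a b) (VV a b) v ω (X i) e (UV_two a b) T.hv T.hω]
  ring

/-- the state of the induction -/
def St (a b : Fin 3 → B2) (M n : ℕ) : Prop :=
  ∃ (m : ℕ) (e : ℤ) (X : Fin 3 → B2), e = 3 * n + 2 - m ∧ (∀ i, QQ dT dS a b n i = (UU a b * VV a b) ^ m * X i) ∧
    ((m = M + n ∧ ∃ (ν : A1) (m1 m2 : ℤ), ν ≠ 0 ∧ 0 < m1 ∧ 0 < m2 ∧ (∀ i, c0 (X i) = m1 * ν * c0 (a i - b i)) ∧
      dot (fun i => c1 (X i)) (fun i => c0 (a i - b i)) = - (m2 * ν * c1 (UU a b))) ∨
    (m = M + n + 1 ∧ 1 ≤ e ∧ ∃ i, c0 (X i) ≠ 0))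

theorem int_ne {z : ℤ} (hz : z ≠ 0) : (z : A1) ≠ 0 := fun h => by
  have h1 := congrArg PowerSeries.constantCoeff h
  rw [map_intCast, map_zero] at h1
  exact hz (by exact_mod_cast h1)

theorem St_succ (T : Tan a b v ω) (M n : ℕ) (h : St a b M n) : St a b M (n + 1) := by
  obtain ⟨m, e, X, he, hX, h⟩ := h
  have hstep := T.QQ_step n m e he X hX
  rcases h with ⟨hm, ν, m1, m2, hν, hm1, hm2, h0, h1⟩ | ⟨hm, he1, i, hi⟩
  · obtain ⟨k0, k1⟩ := T.stepA X e ν m1 m2 h0 h1
    rcases eq_or_ne e 0 with rfl | hne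
    · -- crossing
      have k2 : ∀ i, c0 (NP dT dS (UU a b) (VV a b) v ω 0 (X i)) = 0 := by
        intro i
        rw [k0 i]
        simp
      choose Y hY using fun i => T.dvd (k2 i)
      refine ⟨m + 2, 1, Y, by push_cast; linarith, fun i => ?_, Or.inr ⟨by omega, le_refl _, ?_⟩⟩
      · rw [hstep i, hY i]; ring
      · by_contra h3
        push Not at h3
        have k3 : ∀ i, c1 (NP dT dS (UU a b) (VV a b) v ω 0 (X i)) = 0 := by
          intro i
          rw [hY i, c1_mul, h3 i, c0_D T.hU0]; ring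
        have k4 : dot (fun i => c1 (NP dT dS (UU a b) (VV a b) v ω 0 (X i))) (fun i => c0 (a i - b i)) = 0 := by
          unfold dot
          dsimp only
          rw [k3, k3, k3]; ring
        rw [k1] at k4
        have k5 := neg_eq_zero.1 k4
        rcases mul_eq_zero.1 k5 with k5 | k5
        · rcases mul_eq_zero.1 k5 with k5 | k5
          · exact int_ne (by omega) k5
          · exact mul_ne_zero (pow_ne_zero 2 T.u_ne) hν k5
        · exact T.u_ne k5
    · refine ⟨m + 1, e + 2, fun i => NP dT dS (UU a b) (VV a b) v ω e (X i), by push_cast; linarith, hstep,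
        Or.inl ⟨by omega, c1 (UU a b) ^ 2 * ν, e * (2 * e + 1) * m1, (2 * e - 1) * (e - 1) * m2 + m1,
          mul_ne_zero (pow_ne_zero 2 T.u_ne) hν, ?_, ?_, k0, k1⟩⟩
      · apply mul_pos _ hm1
        rcases lt_or_gt_of_ne hne with h | h
        · nlinarith
        · nlinarith
      · have : 0 ≤ (2 * e - 1) * (e - 1) := by
          rcases le_or_gt e 0 with h | h
          · nlinarith
          · nlinarith
        nlinarith
  · refine ⟨m + 1, e + 2, fun i => NP dT dS (UU a b) (VV a b) v ω e (X i), by push_cast; linarith, hstep,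
        Or.inr ⟨by omega, by omega, i, ?_⟩⟩
    rw [c0_NP (UV_two a b) T.hv T.hU0]
    refine mul_ne_zero (mul_ne_zero ?_ (pow_ne_zero 2 T.u_ne)) hi
    have h2 := int_ne (z := e * (2 * e + 1)) (by nlinarith)
    push_cast at h2
    exact h2

theorem St_zero (T : Tan a b v ω) (h : ∃ i, QQ dT dS a b 0 i ≠ 0) : ∃ M, St a b M 0 := by
  obtain ⟨M, X, hX, i0, hi0⟩ := T.factor _ h
  refine ⟨M, M, 2 - M, X, by push_cast; ring, hX, Or.inl ⟨by omega, ?_⟩⟩
  have hD := T.D_ne
  have hperp1 : dot X (fun i => a i - b i) = 0 := by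
    have h1 := QQ_perp_xi (ds := dT) (dt := dS) T.haa T.hbb
    have h2 : dot (QQ dT dS a b 0) (fun i => a i - b i) = (UU a b * VV a b) ^ M * dot X (fun i => a i - b i) := by
      unfold dot
      dsimp only
      rw [hX, hX, hX]; ring
    rw [h2] at h1
    exact (mul_eq_zero.1 h1).resolve_left (pow_ne_zero M hD)
  have hperp2 : dot X (fun i => a i + b i) = 0 := by
    have h1 := QQ_perp_eta (ds := dT) (dt := dS) T.haa T.hbb T.ha T.hb
    have h2 : dot (QQ dT dS a b 0) (fun i => a i + b i) = (UU a b * VV a b) ^ M * dot X (fun i => a i + b i) := by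
      unfold dot
      dsimp only
      rw [hX, hX, hX]; ring
    rw [h2] at h1
    exact (mul_eq_zero.1 h1).resolve_left (pow_ne_zero M hD)
  have p1 : dot (fun i => c0 (X i)) (fun i => c0 (a i - b i)) = 0 := by
    rw [← c0_dot, hperp1, map_zero]
  have p2 : dot (fun i => c0 (X i)) (fun i => c0 (a i + b i)) = 0 := by
    rw [← c0_dot, hperp2, map_zero]
  have p3 := (gram (fun i => c0 (a i - b i)) (fun i => c0 (a i + b i)) (fun i => c0 (X i)) T.xi_xi T.xi_eta
    (by rw [T.eta_eta]; exact four_ne) p1 p2 T.xi_ne).2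
  obtain ⟨j, hj⟩ := T.hξ
  have hju : IsUnit (c0 (a j - b j)) := by
    rw [PowerSeries.isUnit_iff_constantCoeff]
    exact hj.isUnit
  obtain ⟨r, hr⟩ := hju.exists_right_inv
  have q0 : ∀ i, c0 (X i) = (c0 (X j) * r) * c0 (a i - b i) := by
    intro i
    have := p3 i j
    calc c0 (X i) = c0 (X i) * (c0 (a j - b j) * r) := by rw [hr, mul_one]
      _ = (c0 (X i) * c0 (a j - b j)) * r := by ring
      _ = (c0 (X j) * c0 (a i - b i)) * r := by rw [this]
      _ = _ := by ring
  refine ⟨c0 (X j) * r, 1, 1, ?_, one_pos, one_pos, fun i => ?_, ?_⟩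
  · intro h0
    apply hi0
    rw [q0 i0, h0, zero_mul]
  · rw [q0 i]; push_cast; ring
  · have h1 := congrArg c1 hperp1
    have hz : c1 (0 : B2) = 0 := map_zero _
    rw [c1_dot, hz] at h1
    have h2 : dot (fun i => c0 (a i - b i)) (fun i => c1 (a i - b i)) = c1 (UU a b) := by
      have h3 := congrArg c0 (dot_ds_xi_xi (ds := dS) T.haa T.hbb)
      rw [c0_dot, c0_dS] at h3
      rw [← h3]
      simp only [c0_dS]
      unfold dot
      ring
    have h4 : dot (fun i => c0 (X i)) (fun i => c1 (a i - b i)) = c0 (X j) * r * c1 (UU a b) := by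
      rw [← h2]
      unfold dot
      dsimp only
      rw [q0 0, q0 1, q0 2]
      have hjj := q0 j
      ring
    rw [h4] at h1
    push_cast
    linear_combination h1

/-- **a surface of finite type is minimal at a tangential simple isotropic germ** -/
theorem minimal (T : Tan a b v ω) (k : ℕ) (c : ℕ → ℝ) (hrel : ∀ i, QQ dT dS a b (k + 1) i =
      ∑ j ∈ Finset.range (k + 1), c j • ((UU a b * VV a b) ^ (3 * (k + 1 - j)) * QQ dT dS a b j i)) :
    ∀ i, QQ dT dS a b 0 i = 0 := by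
  by_contra hcon
  push Not at hcon
  obtain ⟨M, h0⟩ := T.St_zero hcon
  have hS : ∀ n, St a b M n := by
    intro n
    induction n with
    | zero => exact h0
    | succ n ih => exact T.St_succ M n ih
  have hdiv : ∀ n i, (UU a b * VV a b) ^ (M + n) ∣ QQ dT dS a b n i := by
    intro n i
    obtain ⟨m, e, X, he, hX, h⟩ := hS n
    rw [hX i]
    refine Dvd.dvd.mul_right (pow_dvd_pow _ ?_) _
    rcases h with ⟨hm, _⟩ | ⟨hm, _⟩ <;> omega
  obtain ⟨m, e, X, he, hX, h⟩ := hS (k + 1)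
  have hne : ∃ i, c0 (X i) ≠ 0 := by
    rcases h with ⟨hm, ν, m1, m2, hν, hm1, hm2, h0, h1⟩ | ⟨hm, he1, hi⟩
    · obtain ⟨i, hi⟩ := T.xi_ne
      refine ⟨i, ?_⟩
      rw [h0 i]
      exact mul_ne_zero (mul_ne_zero (int_ne hm1.ne') hν) hi
    · exact hi
  have hm : m ≤ M + k + 2 := by
    rcases h with ⟨hm, _⟩ | ⟨hm, _⟩ <;> omega
  obtain ⟨i, hi⟩ := hne
  apply T.not_dvd hi
  have h2 : (UU a b * VV a b) ^ (m + 1) ∣ QQ dT dS a b (k + 1) i := by
    rw [hrel i]
    refine Finset.dvd_sum fun j hj => ?_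
    have hj' : j < k + 1 := Finset.mem_range.1 hj
    rw [Algebra.smul_def]
    refine Dvd.dvd.mul_left ?_ _
    have h3 := mul_dvd_mul (dvd_refl ((UU a b * VV a b) ^ (3 * (k + 1 - j)))) (hdiv j i)
    rw [← pow_add] at h3
    exact (pow_dvd_pow _ (by omega)).trans h3
  rw [hX i, pow_succ] at h2
  exact (mul_dvd_mul_iff_left (pow_ne_zero m T.D_ne)).1 h2

end Tan

end Pool.Agent.Helper33.TS
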