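import Mathlib

/-!
# A smooth curve and the span of its jets

Let `v : Fin d → ℕ → ℝ → ℝ` be the components of a smooth curve in `ℝ^d` and their derivatives on an open set `I`. There is an
interval `(p, q) ⊆ I` such that for all `s`, `s'` in it, a linear form which vanishes at all the derivatives at `s` vanishes at the
curve at `s'`.
-/

set_option autoImplicit false

namespace Pool.Agent.Helper33.TS

open Set

/-- a solution of `|g'| ≤ C |g|` which vanishes at a point vanishes -/
theorem gron {r : ℕ} {g g' : ℝ → (Fin r → ℝ)} {p q C s : ℝ} (hs : s ∈ Ioo p q)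
    (hg : ∀ x ∈ Ioo p q, HasDerivAt g (g' x) x) (hC : ∀ x ∈ Ioo p q, ‖g' x‖ ≤ C * ‖g x‖) (h0 : g s = 0) :
    ∀ x ∈ Ioo p q, g x = 0 := by
  have key : ∀ (g g' : ℝ → (Fin r → ℝ)) (p q s : ℝ), s ∈ Ioo p q → (∀ x ∈ Ioo p q, HasDerivAt g (g' x) x) →
      (∀ x ∈ Ioo p q, ‖g' x‖ ≤ C * ‖g x‖) → g s = 0 → ∀ x ∈ Ioo p q, s ≤ x → g x = 0 := by
    intro g g' p q s hs hg hC h0 x hx hsx
    have hsub : Icc s x ⊆ Ioo p q := fun y hy => ⟨hs.1.trans_le hy.1, hy.2.trans_lt hx.2⟩
    refine eq_zero_of_abs_deriv_le_mul_abs_self_of_eq_zero_right (f := g) (f' := g') (K := C) (a := s) (b := x)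
      (fun y hy => (hg y (hsub hy)).continuousAt.continuousWithinAt)
      (fun y hy => (hg y (hsub ⟨hy.1, hy.2.le⟩)).hasDerivWithinAt) h0
      (fun y hy => hC y (hsub ⟨hy.1, hy.2.le⟩)) x ⟨hsx, le_refl _⟩
  intro x hx
  rcases le_total s x with h | h
  · exact key g g' p q s hs hg hC h0 x hx h
  · have := key (fun y => g (-y)) (fun y => - g' (-y)) (-q) (-p) (-s) ⟨by linarith [hs.2], by linarith [hs.1]⟩
      (fun y hy => by
        have h1 : -y ∈ Ioo p q := ⟨by linarith [hy.2], by linarith [hy.1]⟩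
        have h2 := (hg (-y) h1).scomp y (hasDerivAt_neg y)
        have h3 : (fun y => g (-y)) = g ∘ Neg.neg := rfl
        rw [h3]
        refine h2.congr_deriv ?_
        simp)
      (fun y hy => by
        have h1 : -y ∈ Ioo p q := ⟨by linarith [hy.2], by linarith [hy.1]⟩
        rw [norm_neg]
        exact hC (-y) h1)
      (by simpa using h0) (-x) ⟨by linarith [hx.2], by linarith [hx.1]⟩ (by linarith)
    simpa using this

section

variable {d : ℕ} {v : Fin d → ℕ → ℝ → ℝ} {I : Set ℝ}

/-- the Gram matrix -/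
def Gm (v : Fin d → ℕ → ℝ → ℝ) {r : ℕ} (n : Fin r → ℕ) (x : ℝ) : Matrix (Fin r) (Fin r) ℝ :=
  Matrix.of fun i j => ∑ k, v k (n i) x * v k (n j) x

theorem Gm_det {r : ℕ} (n : Fin r → ℕ) (x : ℝ) :
    (Gm v n x).det ≠ 0 ↔ LinearIndependent ℝ (fun i => fun k => v k (n i) x) := by
  have key : ∀ c : Fin r → ℝ, dotProduct c ((Gm v n x).mulVec c) = ∑ k, (∑ i, c i * v k (n i) x) ^ 2 := by
    intro c
    simp only [dotProduct, Matrix.mulVec, Gm, Matrix.of_apply, pow_two, Finset.sum_mul_sum]
    simp only [Finset.mul_sum, Finset.sum_mul]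
    have e1 : ∀ i : Fin r, ∑ j : Fin r, ∑ k : Fin d, c i * (v k (n i) x * v k (n j) x * c j) =
        ∑ k : Fin d, ∑ j : Fin r, c i * (v k (n i) x * v k (n j) x * c j) := fun i => Finset.sum_comm
    simp only [e1]
    rw [Finset.sum_comm]
    refine Finset.sum_congr rfl fun k _ => Finset.sum_congr rfl fun i _ => Finset.sum_congr rfl fun j _ => ?_
    ring
  constructor
  · intro h
    rw [Fintype.linearIndependent_iff]
    intro c hc
    by_contra hne
    push Not at hne
    obtain ⟨i, hi⟩ := hne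
    apply h
    rw [← Matrix.exists_mulVec_eq_zero_iff]
    refine ⟨c, fun h0 => hi (by rw [h0]; rfl), ?_⟩
    funext i
    have h2 : ∀ k, ∑ j, c j * v k (n j) x = 0 := by
      intro k
      have := congrFun hc k
      simpa [Finset.sum_apply] using this
    simp only [Matrix.mulVec, dotProduct, Gm, Matrix.of_apply, Pi.zero_apply]
    have h3 : ∑ j, (∑ k, v k (n i) x * v k (n j) x) * c j = ∑ k, v k (n i) x * ∑ j, c j * v k (n j) x := by
      simp only [Finset.sum_mul, Finset.mul_sum]
      rw [Finset.sum_comm]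
      refine Finset.sum_congr rfl fun k _ => Finset.sum_congr rfl fun j _ => ?_
      ring
    rw [h3]
    exact Finset.sum_eq_zero fun k _ => by rw [h2 k, mul_zero]
  · intro h h0
    rw [← Matrix.exists_mulVec_eq_zero_iff] at h0
    obtain ⟨c, hc, hc0⟩ := h0
    apply hc
    have h1 := key c
    rw [hc0, dotProduct_zero] at h1
    have h2 : ∀ k, ∑ i, c i * v k (n i) x = 0 := by
      intro k
      have h3 := (Finset.sum_eq_zero_iff_of_nonneg (fun k _ => sq_nonneg (∑ i, c i * v k (n i) x))).1 h1.symm k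
        (Finset.mem_univ k)
      exact pow_eq_zero_iff (two_ne_zero) |>.1 h3
    rw [Fintype.linearIndependent_iff] at h
    funext i
    refine h c ?_ i
    funext k
    simpa [Finset.sum_apply] using h2 k

/-- **the span of the jets is locally constant on some interval** -/
theorem wron (hI : IsOpen I) (hne : I.Nonempty) (hv : ∀ j n, ∀ s ∈ I, HasDerivAt (v j n) (v j (n + 1) s) s) :
    ∃ p q : ℝ, p < q ∧ Ioo p q ⊆ I ∧ ∀ s ∈ Ioo p q, ∀ s' ∈ Ioo p q, ∀ c : Fin d → ℝ,
      (∀ n, ∑ j, c j * v j n s = 0) → ∑ j, c j * v j 0 s' = 0 := by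
  classical
  set Pr : ℕ → Prop := fun r => ∃ s ∈ I, ∃ n : Fin r → ℕ, LinearIndependent ℝ (fun i => fun k => v k (n i) s) with hPr
  have hP0 : Pr 0 := by
    obtain ⟨s, hs⟩ := hne
    exact ⟨s, hs, fun i => i.elim0, linearIndependent_empty_type⟩
  have hPd : ¬ Pr (d + 1) := by
    rintro ⟨s, hs, n, hn⟩
    have := hn.fintype_card_le_finrank
    rw [Fintype.card_fin, Module.finrank_fin_fun] at this
    omega
  obtain ⟨r, hr, hr1⟩ : ∃ r, Pr r ∧ ¬ Pr (r + 1) := by
    by_contra hcon
    push Not at hcon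
    have : ∀ r, Pr r := by
      intro r
      induction r with
      | zero => exact hP0
      | succ r ih => exact hcon r ih
    exact hPd (this _)
  obtain ⟨s0, hs0, n, hn⟩ := hr
  have hcont : ContinuousOn (fun x => Gm v n x) I := by
    refine continuousOn_pi.2 fun i => continuousOn_pi.2 fun j => ?_
    show ContinuousOn (fun x => ∑ k, v k (n i) x * v k (n j) x) I
    exact continuousOn_finsetSum _ fun k _ =>
      (fun x hx => ((hv k (n i) x hx).continuousAt.mul (hv k (n j) x hx).continuousAt).continuousWithinAt)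
  have hdet : ContinuousOn (fun x => (Gm v n x).det) I :=
    (continuous_id.matrix_det).comp_continuousOn hcont
  have hopen : IsOpen (I ∩ (fun x => (Gm v n x).det) ⁻¹' {0}ᶜ) :=
    hdet.isOpen_inter_preimage hI isOpen_compl_singleton
  have hmem : s0 ∈ I ∩ (fun x => (Gm v n x).det) ⁻¹' {0}ᶜ := ⟨hs0, (Gm_det n s0).2 hn⟩
  obtain ⟨ε, hε, hball⟩ := Metric.isOpen_iff.1 hopen s0 hmem
  have hIcc : Icc (s0 - ε / 2) (s0 + ε / 2) ⊆ I ∩ (fun x => (Gm v n x).det) ⁻¹' {0}ᶜ := by
    intro x hx
    apply hball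
    rw [Metric.mem_ball, Real.dist_eq, abs_lt]
    constructor <;> linarith [hx.1, hx.2]
  -- the coefficients
  set Bm : ℝ → Matrix (Fin r) (Fin r) ℝ := fun x => Matrix.of fun i j => ∑ k, v k (n i + 1) x * v k (n j) x with hBm
  have hBcont : ContinuousOn Bm I := by
    refine continuousOn_pi.2 fun i => continuousOn_pi.2 fun j => ?_
    show ContinuousOn (fun x => ∑ k, v k (n i + 1) x * v k (n j) x) I
    exact continuousOn_finsetSum _ fun k _ =>
      (fun x hx => ((hv k (n i + 1) x hx).continuousAt.mul (hv k (n j) x hx).continuousAt).continuousWithinAt)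
  have hadj : ContinuousOn (fun x => (Gm v n x).adjugate) I :=
    (continuous_id.matrix_adjugate).comp_continuousOn hcont
  have hγ : ∀ i j, ContinuousOn (fun x => (Bm x * (Gm v n x).adjugate) i j / (Gm v n x).det)
      (Icc (s0 - ε / 2) (s0 + ε / 2)) := by
    intro i j
    refine ContinuousOn.div ?_ (hdet.mono fun x hx => (hIcc hx).1) fun x hx => (hIcc hx).2
    have h1 : ContinuousOn (fun x => Bm x * (Gm v n x).adjugate) I := by
      refine continuousOn_pi.2 fun i => continuousOn_pi.2 fun j => ?_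
      simp only [Matrix.mul_apply]
      exact continuousOn_finsetSum _ fun k _ =>
        ((continuousOn_pi.1 (continuousOn_pi.1 hBcont i)) k).mul ((continuousOn_pi.1 (continuousOn_pi.1 hadj k)) j)
    exact ((continuousOn_pi.1 (continuousOn_pi.1 h1 i)) j).mono fun x hx => (hIcc hx).1
  have hbd : ∀ i j, ∃ C, ∀ x ∈ Icc (s0 - ε / 2) (s0 + ε / 2),
      ‖(Bm x * (Gm v n x).adjugate) i j / (Gm v n x).det‖ ≤ C := fun i j =>
    isCompact_Icc.exists_bound_of_continuousOn (hγ i j)
  choose C hC using hbd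
  refine ⟨s0 - ε / 2, s0 + ε / 2, by linarith, fun x hx => (hIcc ⟨hx.1.le, hx.2.le⟩).1, fun s hs s' hs' c hc => ?_⟩
  have hspan : ∀ x ∈ Icc (s0 - ε / 2) (s0 + ε / 2), ∀ m : ℕ,
      (fun k => v k m x) ∈ Submodule.span ℝ (Set.range fun i => fun k => v k (n i) x) := by
    intro x hx m
    by_contra hcon
    apply hr1
    refine ⟨x, (hIcc hx).1, Fin.cons m n, ?_⟩
    have e : (fun i : Fin (r + 1) => fun k => v k ((Fin.cons m n : Fin (r + 1) → ℕ) i) x) =
        Fin.cons (fun k => v k m x) (fun i => fun k => v k (n i) x) := by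
      funext i
      refine Fin.cases ?_ (fun i => ?_) i
      · simp
      · simp
    rw [e, linearIndependent_finCons]
    exact ⟨(Gm_det n x).1 (hIcc hx).2, hcon⟩
  have hg0 : ∀ x ∈ Ioo (s0 - ε / 2) (s0 + ε / 2), (fun i : Fin r => ∑ k, c k * v k (n i) x) = 0 := by
    refine gron (r := r) (g := fun x i => ∑ k, c k * v k (n i) x) (g' := fun x i => ∑ k, c k * v k (n i + 1) x)
      (C := ∑ i, ∑ j, |C i j|) hs ?_ ?_ ?_
    · intro x hx
      rw [hasDerivAt_pi]
      intro i
      have hx' := (hIcc ⟨hx.1.le, hx.2.le⟩).1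
      have := HasDerivAt.fun_sum (u := Finset.univ) (A := fun k => fun x => c k * v k (n i) x)
        (A' := fun k => c k * v k (n i + 1) x) (x := x) fun k _ => (hv k (n i) x hx').const_mul (c k)
      exact this
    · intro x hx
      have hx' : x ∈ Icc (s0 - ε / 2) (s0 + ε / 2) := ⟨hx.1.le, hx.2.le⟩
      have hdx := (hIcc hx').2
      rw [pi_norm_le_iff_of_nonneg (by positivity)]
      intro i
      obtain ⟨γ, hγ⟩ := (Submodule.mem_span_range_iff_exists_fun ℝ).1 (hspan x hx' (n i + 1))
      have h1 : ∀ k, ∑ j, γ j * v k (n j) x = v k (n i + 1) x := by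
        intro k
        have := congrFun hγ k
        simpa [Finset.sum_apply] using this
      -- the coefficients are given by Cramer's rule
      have h2 : ∀ l, Bm x i l = ∑ j, γ j * Gm v n x j l := by
        intro l
        simp only [hBm, Gm, Matrix.of_apply]
        simp only [← h1, Finset.sum_mul, Finset.mul_sum]
        rw [Finset.sum_comm]
        refine Finset.sum_congr rfl fun j _ => Finset.sum_congr rfl fun k _ => ?_
        ring
      have h3 : ∀ j, γ j = (Bm x * (Gm v n x).adjugate) i j / (Gm v n x).det := by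
        intro j
        rw [eq_div_iff hdx]
        have h4 : (Bm x * (Gm v n x).adjugate) i j = Matrix.vecMul (Matrix.vecMul γ (Gm v n x)) (Gm v n x).adjugate j := by
          rw [Matrix.mul_apply]
          simp only [Matrix.vecMul, dotProduct]
          exact Finset.sum_congr rfl fun l _ => by rw [h2 l]
        rw [h4, Matrix.vecMul_vecMul, Matrix.mul_adjugate, Matrix.vecMul_smul, Matrix.vecMul_one]
        simp [mul_comm]
      have h5 : ∑ k, c k * v k (n i + 1) x = ∑ j, γ j * ∑ k, c k * v k (n j) x := by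
        simp only [← h1, Finset.mul_sum]
        rw [Finset.sum_comm]
        refine Finset.sum_congr rfl fun j _ => Finset.sum_congr rfl fun k _ => ?_
        ring
      rw [h5]
      calc ‖∑ j, γ j * ∑ k, c k * v k (n j) x‖ ≤ ∑ j, ‖γ j * ∑ k, c k * v k (n j) x‖ := norm_sum_le _ _
        _ ≤ ∑ j, |C i j| * ‖fun i : Fin r => ∑ k, c k * v k (n i) x‖ := by
          refine Finset.sum_le_sum fun j _ => ?_
          rw [norm_mul]
          refine mul_le_mul ?_ (norm_le_pi_norm (fun i : Fin r => ∑ k, c k * v k (n i) x) j) (norm_nonneg _)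
            (abs_nonneg _)
          rw [h3 j]
          exact (hC i j x hx').trans (le_abs_self _)
        _ = (∑ j, |C i j|) * ‖fun i : Fin r => ∑ k, c k * v k (n i) x‖ := by rw [Finset.sum_mul]
        _ ≤ _ := by
          refine mul_le_mul_of_nonneg_right ?_ (norm_nonneg _)
          exact Finset.single_le_sum (f := fun i => ∑ j, |C i j|) (fun i _ => by positivity) (Finset.mem_univ i)
    · funext i
      exact hc (n i)
  obtain ⟨γ, hγ⟩ := (Submodule.mem_span_range_iff_exists_fun ℝ).1 (hspan s' ⟨hs'.1.le, hs'.2.le⟩ 0)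
  have h1 : ∀ k, ∑ j, γ j * v k (n j) s' = v k 0 s' := by
    intro k
    have := congrFun hγ k
    simpa [Finset.sum_apply] using this
  have h5 : ∑ k, c k * v k 0 s' = ∑ j, γ j * ∑ k, c k * v k (n j) s' := by
    simp only [← h1, Finset.mul_sum]
    rw [Finset.sum_comm]
    refine Finset.sum_congr rfl fun j _ => Finset.sum_congr rfl fun k _ => ?_
    ring
  rw [h5]
  refine Finset.sum_eq_zero fun j _ => ?_
  have := congrFun (hg0 s' hs') j
  simp only [Pi.zero_apply] at this
  rw [this, mul_zero]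

end

end Pool.Agent.Helper33.TS
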