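import Pool.Agent.Helper33.TS.Surf
import Pool.Agent.Helper33.TS.Germ
import Pool.Agent.Helper33.TS.Sym
import Pool.Agent.Helper33.TS.Wron

/-!
# The determinant `m = det (a' + b', a, b)` as a bilinear form, and a formal germ with an isotropic tangent plane
-/

set_option autoImplicit false

namespace Pool.Agent.Helper33.TS

open Pool.Agent.Helper99.TR3
open MvPolynomial

section

variable {R : Type*} [CommRing R]

/-- the vector `(a' × a, a)` -/
def vv (a a1 : Fin 3 → R) : Fin 6 → R :=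
  ![a1 1 * a 2 - a1 2 * a 1, a1 2 * a 0 - a1 0 * a 2, a1 0 * a 1 - a1 1 * a 0, a 0, a 1, a 2]

/-- the vector `(b, b × b')` -/
def ww (b b1 : Fin 3 → R) : Fin 6 → R :=
  ![b 0, b 1, b 2, b 1 * b1 2 - b 2 * b1 1, b 2 * b1 0 - b 0 * b1 2, b 0 * b1 1 - b 1 * b1 0]

/-- the determinant `det (a' + b', a, b)` -/
def mr (a a1 b b1 : Fin 3 → R) : R :=
  (a1 0 + b1 0) * (a 1 * b 2 - a 2 * b 1) + (a1 1 + b1 1) * (a 2 * b 0 - a 0 * b 2)
    + (a1 2 + b1 2) * (a 0 * b 1 - a 1 * b 0)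

theorem mr_eq (a a1 b b1 : Fin 3 → R) : mr a a1 b b1 = ∑ j, vv a a1 j * ww b b1 j := by
  simp only [Fin.sum_univ_succ, Fin.sum_univ_zero, vv, ww, mr]
  simp
  ring

/-- a vector orthogonal to the three columns -/
theorem mr_zero [IsDomain R] (a a1 b b1 c : Fin 3 → R) (hc : ∃ i, c i ≠ 0) (h1 : dot c a = 0) (h2 : dot c b = 0)
    (h3 : dot c a1 = 0) (h4 : dot c b1 = 0) : mr a a1 b b1 = 0 := by
  obtain ⟨i, hi⟩ := hc
  have key : c i * mr a a1 b b1 = 0 := by
    unfold mr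
    unfold dot at h1 h2 h3 h4
    fin_cases i
    · show c 0 * _ = 0
      linear_combination (a 1 * b 2 - a 2 * b 1) * (h3 + h4) + ((a1 1 + b1 1) * (-b 2) + (a1 2 + b1 2) * b 1) * h1
        + ((a1 1 + b1 1) * a 2 - (a1 2 + b1 2) * a 1) * h2
    · show c 1 * _ = 0
      linear_combination (a 2 * b 0 - a 0 * b 2) * (h3 + h4) + ((a1 2 + b1 2) * (-b 0) + (a1 0 + b1 0) * b 2) * h1
        + ((a1 2 + b1 2) * a 0 - (a1 0 + b1 0) * a 2) * h2
    · show c 2 * _ = 0
      linear_combination (a 0 * b 1 - a 1 * b 0) * (h3 + h4) + ((a1 0 + b1 0) * (-b 1) + (a1 1 + b1 1) * b 0) * h1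
        + ((a1 0 + b1 0) * a 1 - (a1 1 + b1 1) * a 0) * h2
  exact (mul_eq_zero.1 key).resolve_left hi

end

/-- the first derivatives -/
noncomputable def gA1 : Fin 3 → P := fun i => X (Sum.inl (i, 1))

/-- the first derivatives -/
noncomputable def gB1 : Fin 3 → P := fun i => X (Sum.inr (i, 1))

theorem PU_gA (i : Fin 3) : PU (gA i) = gA1 i := by unfold gA gA1; rw [PU_inl]

theorem PW_gA (i : Fin 3) : PW (gA i) = gA1 i := by unfold gA gA1; rw [PW_inl]

theorem PU_gB (i : Fin 3) : PU (gB i) = - gB1 i := by unfold gB gB1; rw [PU_inr]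

theorem PW_gB (i : Fin 3) : PW (gB i) = gB1 i := by unfold gB gB1; rw [PW_inr]

theorem mm_P : mm PU gA gB = mr gA gA1 gB gB1 := by
  unfold mm mr
  rw [map_sub, map_sub, map_sub, PU_gA, PU_gA, PU_gA, PU_gB, PU_gB, PU_gB]
  ring

/-- the family of the derivatives of `(a' × a, a)` -/
noncomputable def va (a : Fin 3 → ℕ → ℝ → ℝ) (j : Fin 6) (n : ℕ) (s : ℝ) : ℝ :=
  aeval (pt (fun i n => a i n s) fun _ _ => 0) (PS^[n] (vv gA gA1 j))

theorem va_deriv {a : Fin 3 → ℕ → ℝ → ℝ} {I : Set ℝ} (ha : ∀ i n, ∀ s ∈ I, HasDerivAt (a i n) (a i (n + 1) s) s)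
    (j : Fin 6) (n : ℕ) {s : ℝ} (hs : s ∈ I) : HasDerivAt (va a j n) (va a j (n + 1) s) s := by
  have h := hasDerivAt_PS ha (fun _ _ => 0) (PS^[n] (vv gA gA1 j)) hs
  unfold va
  rw [Function.iterate_succ_apply']
  exact h

theorem ev_vv {K : Type*} [Field K] [Algebra ℝ K] (w z : Fin 3 → ℕ → K) (j : Fin 6) :
    aeval (pt w z) (vv gA gA1 j) = vv (fun i => w i 0) (fun i => w i 1) j := by
  have h0 : ∀ i, aeval (pt w z) (gA i) = w i 0 := fun i => by unfold gA; rw [aeval_X]; rfl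
  have h1 : ∀ i, aeval (pt w z) (gA1 i) = w i 1 := fun i => by unfold gA1; rw [aeval_X]; rfl
  fin_cases j <;> simp [vv, h0, h1]

theorem ev_ww {K : Type*} [Field K] [Algebra ℝ K] (w z : Fin 3 → ℕ → K) (j : Fin 6) :
    aeval (pt w z) (ww gB gB1 j) = ww (fun i => z i 0) (fun i => z i 1) j := by
  have h0 : ∀ i, aeval (pt w z) (gB i) = z i 0 := fun i => by unfold gB; rw [aeval_X]; rfl
  have h1 : ∀ i, aeval (pt w z) (gB1 i) = z i 1 := fun i => by unfold gB1; rw [aeval_X]; rfl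
  fin_cases j <;> simp [ww, h0, h1]

theorem va_zero (a : Fin 3 → ℕ → ℝ → ℝ) (j : Fin 6) (s : ℝ) :
    va a j 0 s = vv (fun i => a i 0 s) (fun i => a i 1 s) j := by
  unfold va
  exact ev_vv _ _ j

theorem PS_ww (j : Fin 6) : PS (ww gB gB1 j) = 0 := by
  have h0 : ∀ i, PS (gB i) = 0 := fun i => by unfold gB; rw [PS_inr]
  have h1 : ∀ i, PS (gB1 i) = 0 := fun i => by unfold gB1; rw [PS_inr]
  fin_cases j <;> simp [ww, h0, h1]

theorem PS_mm (n : ℕ) : PS^[n] (mm PU gA gB) = ∑ j, PS^[n] (vv gA gA1 j) * ww gB gB1 j := by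
  induction n with
  | zero => rw [Function.iterate_zero, id, mm_P, mr_eq]; rfl
  | succ n ih =>
    rw [Function.iterate_succ_apply', ih, map_sum]
    refine Finset.sum_congr rfl fun j _ => ?_
    rw [lei, PS_ww, mul_zero, zero_add, Function.iterate_succ_apply', mul_comm]

/-- polynomials without the second group of variables -/
theorem indep_z (w : Fin 3 → ℕ → ℂ) (z z' : Fin 3 → ℕ → ℂ) (j : Fin 6) (n : ℕ) :
    aeval (pt w z) (PS^[n] (vv gA gA1 j)) = aeval (pt w z') (PS^[n] (vv gA gA1 j)) := by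
  -- all derivatives lie in the subalgebra generated by the first group of variables
  have hsub : ∀ n, PS^[n] (vv gA gA1 j) ∈ Algebra.adjoin ℝ (Set.range fun x : Fin 3 × ℕ => (X (Sum.inl x) : P)) := by
    intro n
    induction n with
    | zero =>
      have h0 : ∀ i, gA i ∈ Algebra.adjoin ℝ (Set.range fun x : Fin 3 × ℕ => (X (Sum.inl x) : P)) := fun i =>
        Algebra.subset_adjoin ⟨(i, 0), rfl⟩
      have h1 : ∀ i, gA1 i ∈ Algebra.adjoin ℝ (Set.range fun x : Fin 3 × ℕ => (X (Sum.inl x) : P)) := fun i =>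
        Algebra.subset_adjoin ⟨(i, 1), rfl⟩
      rw [Function.iterate_zero, id]
      fin_cases j
      · exact sub_mem (mul_mem (h1 _) (h0 _)) (mul_mem (h1 _) (h0 _))
      · exact sub_mem (mul_mem (h1 _) (h0 _)) (mul_mem (h1 _) (h0 _))
      · exact sub_mem (mul_mem (h1 _) (h0 _)) (mul_mem (h1 _) (h0 _))
      · exact h0 _
      · exact h0 _
      · exact h0 _
    | succ n ih =>
      rw [Function.iterate_succ_apply']
      refine Algebra.adjoin_induction (p := fun y _ =>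
        PS y ∈ Algebra.adjoin ℝ (Set.range fun x : Fin 3 × ℕ => (X (Sum.inl x) : P))) ?_ ?_ ?_ ?_ ih
      · rintro _ ⟨⟨i, m⟩, rfl⟩
        show PS (X (Sum.inl (i, m))) ∈ _
        rw [PS_inl]
        exact Algebra.subset_adjoin ⟨(i, m + 1), rfl⟩
      · intro r
        rw [PS.map_algebraMap]
        exact zero_mem _
      · intro x y _ _ hx hy
        rw [map_add]
        exact add_mem hx hy
      · intro x y hx' hy' hx hy
        rw [lei]
        exact add_mem (mul_mem hx' hy) (mul_mem hy' hx)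
  refine Algebra.adjoin_induction (p := fun y _ => aeval (pt w z) y = aeval (pt w z') y) ?_ ?_ ?_ ?_ (hsub n)
  · rintro _ ⟨x, rfl⟩
    show aeval (pt w z) (X (Sum.inl x)) = aeval (pt w z') (X (Sum.inl x))
    rw [aeval_X, aeval_X]
    rfl
  · intro r
    rw [AlgHom.commutes, AlgHom.commutes]
  · intro x y _ _ hx hy
    rw [map_add, map_add, hx, hy]
  · intro x y _ _ hx hy
    rw [map_mul, map_mul, hx, hy]

/-- the values of the derivatives of `(a' × a, a)` in a formal germ -/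
theorem ev_va (a : Fin 3 → ℕ → ℝ → ℝ) (z : Fin 3 → ℕ → ℂ) (s : ℝ) (j : Fin 6) (n : ℕ) :
    aeval (pt (fun i n => (a i n s : ℂ)) z) (PS^[n] (vv gA gA1 j)) = ((va a j n s : ℝ) : ℂ) := by
  rw [indep_z (fun i n => (a i n s : ℂ)) z (fun _ _ => ((0 : ℝ) : ℂ))]
  exact real_eval (fun i n => a i n s) (fun _ _ => 0) _

end Pool.Agent.Helper33.TS
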